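import Pool.Agent.TH54.BU.QuoEA
import Pool.Agent.TH54.BU.ConeA
import Pool.Agent.TH54.BU.Guess
import Pool.Agent.H17R2.TorsionFree
import Pool.Agent.Y33.SM.Defs

/-!
# The cone metric of a small cancellation family, and hyperbolicity of the quotient

Small cancellation families over the free group on an arbitrary alphabet. Adapted from the files
`Y240.RN.Rb2`, `Y584.RN.Rb3`, `Y215.RN.RB4`, `Y33.RN.Rb6`, which treat the free group of rank five.
-/

set_option autoImplicit false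

namespace Pool.Agent.U627.QC

open Pool.Agent.TH54.BU Pool.Agent.H17R2 Pool.Agent.Y33.SM
open scoped Pointwise

variable {α : Type} [DecidableEq α]

instance (W : Words α) : (W.toFam.N).Normal := W.toFam.N_normal

/-- the steps of the cone metric: letters, and pairs of points of the same relator line -/
def Jm (W : Words α) (g : FreeGroup α) : Prop :=
  FreeGroup.norm g ≤ 1 ∨ ∃ x ∈ W.toFam.fam, ∃ a b : ℤ, g = (x.1 a)⁻¹ * x.1 b

/-- `E` is the cone metric -/
structure CE (W : Words α) (E : GH (FreeGroup α)) (R : ℕ) : Prop where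
  hD : E.D ≤ R
  one : ∀ g : FreeGroup α, E.len g ≤ 1 ↔ Jm W g
  le : ∀ g : FreeGroup α, E.len g ≤ FreeGroup.norm g
  near : ∀ (γ : ℕ → FreeGroup α) (n : ℕ), E.Geod γ n → ∀ p : FreeGroup α,
    fd (γ 0) p + fd p (γ n) = fd (γ 0) (γ n) → ∃ i ≤ n, E.d p (γ i) ≤ R

/-- geodesics of the cone metric with a large projection to a relator line run along it -/
def JP (W : Words α) (E : GH (FreeGroup α)) (Θ : ℕ) : Prop :=
  ∀ x ∈ W.toFam.fam, ∀ (γ : ℕ → FreeGroup α) (n : ℕ), E.Geod γ n →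
    (Θ : ℤ) * x.2 ≤ W.K * |(fTree α).pr x.1 (γ 0) - (fTree α).pr x.1 (γ n)| →
      ∃ k < n, ∃ a b : ℤ, γ k = x.1 a ∧ γ (k + 1) = x.1 b

/-! ### the cone metric -/

theorem norm_mk_of_red {l : List (α × Bool)} (h : FreeGroup.IsReduced l) :
    FreeGroup.norm (FreeGroup.mk l) = l.length := by
  rw [FreeGroup.norm, FreeGroup.toWord_mk, h.reduce_eq]

/-- the word length of the free group -/
noncomputable def H0 : GH (FreeGroup α) where
  len := FreeGroup.norm
  D := 0
  len_one := FreeGroup.norm_one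
  eq_one := fun g h => FreeGroup.norm_eq_zero.1 h
  len_inv := fun g => FreeGroup.norm_inv_eq
  len_mul := FreeGroup.norm_mul_le
  fp' := by
    intro u v w z
    have h : fd u v + fd w z ≤ max (fd u w + fd v z) (fd u z + fd v w) :=
      (fTree α).four u v w z
    unfold fd at h
    rcases le_max_iff.1 h with h1 | h1
    · have : FreeGroup.norm (u⁻¹ * v) + FreeGroup.norm (w⁻¹ * z) ≤
          FreeGroup.norm (u⁻¹ * w) + FreeGroup.norm (v⁻¹ * z) := by exact_mod_cast h1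
      have h2 := le_max_left (FreeGroup.norm (u⁻¹ * w) + FreeGroup.norm (v⁻¹ * z))
        (FreeGroup.norm (u⁻¹ * z) + FreeGroup.norm (v⁻¹ * w))
      omega
    · have : FreeGroup.norm (u⁻¹ * v) + FreeGroup.norm (w⁻¹ * z) ≤
          FreeGroup.norm (u⁻¹ * z) + FreeGroup.norm (v⁻¹ * w) := by exact_mod_cast h1
      have h2 := le_max_right (FreeGroup.norm (u⁻¹ * w) + FreeGroup.norm (v⁻¹ * z))
        (FreeGroup.norm (u⁻¹ * z) + FreeGroup.norm (v⁻¹ * w))
      omega
  step := by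
    intro g k hk
    have hr := FreeGroup.isReduced_toWord (x := g)
    have e : g.toWord = g.toWord.take k ++ g.toWord.drop k := (List.take_append_drop k _).symm
    have h5 : FreeGroup.IsReduced (g.toWord.take k ++ g.toWord.drop k) := by rw [← e]; exact hr
    have h6 : FreeGroup.IsReduced (g.toWord.take k) := (List.isChain_append.1 h5).1
    have h7 : FreeGroup.IsReduced (g.toWord.drop k) := (List.isChain_append.1 h5).2.1
    have hg : g = FreeGroup.mk (g.toWord.take k) * FreeGroup.mk (g.toWord.drop k) := by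
      rw [FreeGroup.mul_mk, ← e, FreeGroup.mk_toWord]
    have hk' : k ≤ g.toWord.length := hk
    have h8 : (FreeGroup.mk (g.toWord.take k))⁻¹ * g = FreeGroup.mk (g.toWord.drop k) := by
      conv_lhs => rw [hg]
      rw [show FreeGroup.mk ((FreeGroup.mk (g.toWord.take k) *
        FreeGroup.mk (g.toWord.drop k)).toWord.take k) = FreeGroup.mk (g.toWord.take k) by
          rw [← hg]]
      rw [inv_mul_cancel_left]
    refine ⟨FreeGroup.mk (g.toWord.take k), ?_, ?_⟩
    · rw [norm_mk_of_red h6, List.length_take]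
      omega
    · rw [h8, norm_mk_of_red h7, List.length_drop]
      show g.toWord.length - k + k = g.toWord.length
      omega

/-- the generating set of the cone metric -/
def gs (W : Words α) : Set (FreeGroup α) := {g | Jm W g}

variable (W : Words α)

theorem gs_one : (1 : (FreeGroup α)) ∈ gs W := by
  left
  rw [FreeGroup.norm_one]
  omega

theorem gs_inv : (gs W)⁻¹ = gs W := by
  have key : ∀ g : (FreeGroup α), g ∈ gs W → g⁻¹ ∈ gs W := by
    rintro g (h | ⟨x, hx, a, b, rfl⟩)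
    · left
      rwa [FreeGroup.norm_inv_eq]
    · right
      exact ⟨x, hx, b, a, by group⟩
  ext g
  rw [Set.mem_inv]
  exact ⟨fun h => by simpa using key _ h, key g⟩

theorem gs_pow (g : (FreeGroup α)) : g ∈ gs W ^ (H0.len g) := by
  generalize hn : H0.len g = n
  induction n generalizing g with
  | zero =>
    have := H0.eq_one g hn
    simp [this]
  | succ n ih =>
    obtain ⟨h, h1, h2⟩ := H0.step g 1 (by omega)
    have h3 := ih (h⁻¹ * g) (by omega)
    rw [pow_succ']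
    have h4 : g = h * (h⁻¹ * g) := by group
    rw [h4]
    refine Set.mul_mem_mul (Or.inl ?_) h3
    have h5 : FreeGroup.norm h = 1 := h1
    omega

theorem gs_ex (g : (FreeGroup α)) : ∃ n, g ∈ gs W ^ n := ⟨_, gs_pow W g⟩

/-- the cone distance -/
noncomputable def ce (u v : (FreeGroup α)) : ℕ := wl (gs W) (u⁻¹ * v)

theorem ce_le (u v : (FreeGroup α)) : ce W u v ≤ H0.d u v := wl_le (gs_pow W _)

theorem ce_dm : DM (ce W) where
  self := fun u => by unfold ce; rw [inv_mul_cancel]; exact wl_one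
  eq := fun u v h => inv_mul_eq_one.1 (wl_eq_one (gs_ex W) _ h)
  comm := fun u v => by
    unfold ce
    rw [← wl_inv (gs_ex W) (gs_inv W) (u⁻¹ * v)]
    congr 1
    group
  tri := fun u v w => by
    unfold ce
    have := wl_mul (gs_ex W) (u⁻¹ * v) (v⁻¹ * w)
    rwa [show u⁻¹ * v * (v⁻¹ * w) = u⁻¹ * w by group] at this
  btw := fun u v k hk => by
    obtain ⟨h, h1, h2⟩ := wl_step (gs_ex W) (u⁻¹ * v) k hk
    refine ⟨u * h, ?_, ?_⟩
    · unfold ce
      rw [show u⁻¹ * (u * h) = h by group, h1]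
    · unfold ce
      rw [show (u * h)⁻¹ * v = h⁻¹ * (u⁻¹ * v) by group, h2]

theorem ce_le_one (u v : (FreeGroup α)) : ce W u v ≤ 1 ↔ u⁻¹ * v ∈ gs W :=
  wl_le_one (gs_ex W) (gs_one W) _

theorem fd_eq (u v : (FreeGroup α)) : fd u v = (H0.d u v : ℤ) := rfl

/-- the geodesics between points at cone distance one stay near to the first point -/
theorem ce_near (p q r : (FreeGroup α)) (h : ce W p q ≤ 1) (hr : H0.d p r + H0.d r q = H0.d p q) :
    ce W p r ≤ 1 := by
  rcases (ce_le_one W p q).1 h with h1 | ⟨x, hx, a, b, hk⟩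
  · have h2 : H0.d p q ≤ 1 := h1
    have h3 := ce_le W p r
    omega
  · have hy := W.toFam.smul_mem (p * (x.1 a)⁻¹) x hx
    have hl := W.toFam.line _ hy
    have hya : (p * (x.1 a)⁻¹) • x.1 a = p := by
      rw [smul_eq_mul]; group
    have hyb : (p * (x.1 a)⁻¹) • x.1 b = q := by
      rw [smul_eq_mul, mul_assoc, ← hk]; group
    have hab : fd p q = |a - b| := by
      have := hl a b
      simp only at this
      rw [hya, hyb] at this
      exact this
    have hq : (fTree α).d ((fun k => (p * (x.1 a)⁻¹) • x.1 k) a) r +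
        (fTree α).d r ((fun k => (p * (x.1 a)⁻¹) • x.1 k) b) = |a - b| := by
      show fd ((p * (x.1 a)⁻¹) • x.1 a) r + fd r ((p * (x.1 a)⁻¹) • x.1 b) = |a - b|
      rw [hya, hyb, ← hab, fd_eq, fd_eq, fd_eq]
      exact_mod_cast hr
    obtain ⟨u, hu, -, -⟩ := hl.on_line a b r hq
    rw [ce_le_one]
    right
    refine ⟨_, hy, a, u, ?_⟩
    show p⁻¹ * r = ((p * (x.1 a)⁻¹) • x.1 a)⁻¹ * ((p * (x.1 a)⁻¹) • x.1 u)
    rw [hya]
    exact congrArg (fun y => p⁻¹ * y) hu

/-- the cone length -/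
noncomputable def coneGH (De : ℕ) (h : Four (ce W) De) : GH (FreeGroup α) where
  len := wl (gs W)
  D := De
  len_one := wl_one
  eq_one := wl_eq_one (gs_ex W)
  len_inv := wl_inv (gs_ex W) (gs_inv W)
  len_mul := wl_mul (gs_ex W)
  fp' := h
  step := wl_step (gs_ex W)

theorem rb2 : ∃ R : ℕ, ∀ {α : Type} [DecidableEq α] (W : Words α),
    ∃ E : GH (FreeGroup α), (∀ g, E.len g = wl (gs W) g) ∧ CE W E R := by
  obtain ⟨R, hR⟩ := guess 0 1
  refine ⟨R, fun {α} _ W => ?_⟩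
  have hF : Four (H0 (α := α)).d 0 := H0.four
  obtain ⟨g1, -, g3⟩ := hR (FreeGroup α) H0.d (ce W) H0.dm (ce_dm W) (ce_le W) hF (ce_near W)
  refine ⟨coneGH W R g3, fun g => rfl, le_rfl, ?_, ?_, ?_⟩
  · intro g
    exact wl_le_one (gs_ex W) (gs_one W) g
  · intro g
    exact wl_le (gs_pow W g)
  · intro γ n hG p hp
    refine g1 γ n hG.1 hG.2 p ?_
    rw [fd_eq, fd_eq, fd_eq] at hp
    exact_mod_cast hp


/-! ### geodesics of the cone metric run along relator lines -/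

/-! ## lines with a large overlap -/

theorem same_line {Γ V : Type*} [Group Γ] [MulAction Γ V] (S : LineFam Γ V) (x y : S.fam)
    (s t : ℤ) (h : x.1.2 ≤ S.K * |S.T.pr x.1.1 (y.1.1 s) - S.T.pr x.1.1 (y.1.1 t)|) :
    ∀ k, ∃ c, y.1.1 k = x.1.1 c := by
  wlog hlt : S.T.pr x.1.1 (y.1.1 s) < S.T.pr x.1.1 (y.1.1 t) generalizing s t
  · rcases (not_lt.1 hlt).lt_or_eq with h1 | h1
    · exact this t s (by rwa [abs_sub_comm]) h1
    · exfalso
      rw [h1] at h
      have h2 := S.KL _ x.2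
      have h3 := S.hK
      simp at h
      omega
  obtain ⟨b, ε, hε, hk⟩ := (S.line _ x.2).overlap (S.line _ y.2) s t hlt
  set a := S.T.pr x.1.1 (y.1.1 s)
  set a' := S.T.pr x.1.1 (y.1.1 t)
  have key : ((fun k => x.1.1 (k + a)), x.1.2) = ((fun k => y.1.1 (b + ε * k)), y.1.2) := by
    apply S.sc _ (S.shift_mem a x.1 x.2) _ (S.repar_mem y b ε hε) (a' - a).toNat
    · intro k hk'
      have := hk k (by positivity) (by omega)
      simp only
      rw [add_comm, this]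
    · left
      rw [abs_sub_comm, abs_of_pos (sub_pos.2 hlt)] at h
      rw [Int.toNat_of_nonneg (by omega)]
      exact h
  have h1 : ∀ k, x.1.1 (k + a) = y.1.1 (b + ε * k) := fun k => congrFun (Prod.ext_iff.1 key).1 k
  have hε2 : ε * ε = 1 := by rcases hε with h | h <;> subst h <;> norm_num
  intro k
  refine ⟨ε * (k - b) + a, ?_⟩
  rw [h1, show b + ε * (ε * (k - b)) = k by linear_combination (k - b) * hε2]

/-! ## geodesics -/

section geod

variable {G : Type*} [Group G] {H : GH G} {γ : ℕ → G} {n : ℕ}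

theorem geod_ub (h : H.Geod γ n) {i : ℕ} (k : ℕ) (hk : i + k ≤ n) :
    H.d (γ i) (γ (i + k)) ≤ k := by
  induction k with
  | zero => rw [add_zero, H.d_self]
  | succ k ih =>
    have h1 := ih (by omega)
    have h2 := h.1 (i + k) (by omega)
    have h3 := H.d_tri (γ i) (γ (i + k)) (γ (i + k + 1))
    rw [← add_assoc]
    omega

theorem geod_eq (h : H.Geod γ n) {i : ℕ} (k : ℕ) (hk : i + k ≤ n) :
    H.d (γ i) (γ (i + k)) = k := by
  apply le_antisymm (geod_ub h k hk)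
  have h1 := geod_ub h (i := 0) i (by omega)
  have h2 := geod_ub h (i := i + k) (n - (i + k)) (by omega)
  have h3 := H.d_tri (γ 0) (γ i) (γ n)
  have h4 := H.d_tri (γ i) (γ (i + k)) (γ n)
  have h5 := h.2
  rw [zero_add] at h1
  rw [show i + k + (n - (i + k)) = n by omega] at h2
  omega

theorem geod_init (h : H.Geod γ n) {i : ℕ} (hi : i ≤ n) : H.Geod γ i := by
  refine ⟨fun k hk => h.1 k (by omega), ?_⟩
  have := geod_eq h (i := 0) i (by omega)
  rwa [zero_add] at this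

theorem geod_tail (h : H.Geod γ n) {i : ℕ} (hi : i ≤ n) :
    H.Geod (fun k => γ (i + k)) (n - i) := by
  refine ⟨fun k hk => ?_, ?_⟩
  · have := h.1 (i + k) (by omega)
    rwa [add_assoc] at this
  · have := geod_eq h (i := i) (n - i) (by omega)
    simpa using this

end geod

/-- **geodesics of the cone metric with a large projection to a relator line run along it** -/
theorem rb3 (R : ℕ) (W : Words α) (E : GH (FreeGroup α)) (hE : CE W E R) :
    JP W E (2 * R + 10) := by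
  intro x hx γ n hγ hbig
  by_contra hcon
  have hL : W.toFam.K ≤ x.2 := W.toFam.KL x hx
  have hK : 20 ≤ W.K := W.hK
  have hKL : W.K ≤ x.2 := hL
  have hline : (fTree α).IsLine x.1 := W.toFam.line x hx
  let a : ℕ → ℤ := fun i => (fTree α).pr x.1 (γ i)
  -- one step
  have h1 : ∀ i < n, W.K * |a i - a (i + 1)| ≤ x.2 := by
    intro i hi
    have h2 : E.len ((γ i)⁻¹ * γ (i + 1)) ≤ 1 := hγ.1 i hi
    rcases (hE.one _).1 h2 with h3 | ⟨y, hy, p, q, hpq⟩
    · have h4 : |a i - a (i + 1)| ≤ fd (γ i) (γ (i + 1)) := hline.lip (γ i) (γ (i + 1))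
      have h5 : fd (γ i) (γ (i + 1)) ≤ 1 := by
        unfold fd
        exact_mod_cast h3
      have h6 : |a i - a (i + 1)| ≤ 1 := h4.trans h5
      nlinarith
    · by_contra hc
      have hc' := (not_le.1 hc).le
      -- the translated line
      let g : (FreeGroup α) := γ i * (y.1 p)⁻¹
      have hy' := W.toFam.smul_mem g y hy
      have e1 : g • y.1 p = γ i := by
        change γ i * (y.1 p)⁻¹ * y.1 p = γ i
        group
      have e2 : g • y.1 q = γ (i + 1) := by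
        change γ i * (y.1 p)⁻¹ * y.1 q = γ (i + 1)
        rw [mul_assoc, ← hpq]
        group
      have key := same_line W.toFam ⟨x, hx⟩ ⟨_, hy'⟩ p q (by
        change x.2 ≤ W.K * |(fTree α).pr x.1 (g • y.1 p) -
          (fTree α).pr x.1 (g • y.1 q)|
        rw [e1, e2]
        exact hc')
      obtain ⟨c1, hc1⟩ := key p
      obtain ⟨c2, hc2⟩ := key q
      apply hcon
      refine ⟨i, hi, c1, c2, ?_, ?_⟩
      · rw [← e1]; exact hc1
      · rw [← e2]; exact hc2
  have h2 : ∀ i k : ℕ, i + k ≤ n → W.K * |a i - a (i + k)| ≤ k * x.2 := by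
    intro i k
    induction k with
    | zero => intro _; simp
    | succ k ih =>
      intro hk
      have e1 := ih (by omega)
      have e2 := h1 (i + k) (by omega)
      have e3 := abs_sub_le (a i) (a (i + k)) (a (i + k + 1))
      have e4 : W.K * |a i - a (i + k + 1)| ≤ W.K * (|a i - a (i + k)| +
          |a (i + k) - a (i + k + 1)|) := by
        apply mul_le_mul_of_nonneg_left e3
        omega
      rw [← add_assoc]
      push_cast
      linarith
  -- points near the line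
  let I : ℕ → Prop := fun i => ∃ c : ℤ, E.d (x.1 c) (γ i) ≤ R
  have hI : ∀ i k : ℕ, i + k ≤ n → I i → I (i + k) → k ≤ 2 * R + 1 := by
    rintro i k hk ⟨c1, hc1⟩ ⟨c2, hc2⟩
    have e1 := geod_eq hγ k hk
    have e2 : E.d (x.1 c1) (x.1 c2) ≤ 1 := (hE.one _).2 (Or.inr ⟨x, hx, c1, c2, rfl⟩)
    have e3 := E.d_tri (γ i) (x.1 c1) (γ (i + k))
    have e4 := E.d_tri (x.1 c1) (x.1 c2) (γ (i + k))
    rw [E.d_comm (γ i) (x.1 c1)] at e3
    omega
  have h3 : ∀ i ≤ n, (∀ j ≤ i, ¬ I j) → a i = a 0 := by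
    intro i hi hj
    by_contra hne
    have e1 := hline.d_eq (γ 0) (γ i) (fun h => hne h.symm)
    change fd (γ 0) (γ i) = fd (γ 0) (x.1 (a 0)) + |a 0 - a i| + fd (x.1 (a i)) (γ i) at e1
    have e2 := fd_tri (x.1 (a 0)) (x.1 (a i)) (γ i)
    have e3 : fd (x.1 (a 0)) (x.1 (a i)) = |a 0 - a i| := hline (a 0) (a i)
    have e4 := fd_tri (γ 0) (x.1 (a 0)) (γ i)
    obtain ⟨j, hj1, hj2⟩ := hE.near γ i (geod_init hγ hi) (x.1 (a 0)) (by omega)
    exact hj j hj1 ⟨_, hj2⟩
  have h4 : ∀ i ≤ n, (∀ j, i ≤ j → j ≤ n → ¬ I j) → a i = a n := by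
    intro i hi hj
    by_contra hne
    have e1 := hline.d_eq (γ i) (γ n) hne
    change fd (γ i) (γ n) = fd (γ i) (x.1 (a i)) + |a i - a n| + fd (x.1 (a n)) (γ n) at e1
    have e2 := fd_tri (x.1 (a i)) (x.1 (a n)) (γ n)
    have e3 : fd (x.1 (a i)) (x.1 (a n)) = |a i - a n| := hline (a i) (a n)
    have e4 := fd_tri (γ i) (x.1 (a i)) (γ n)
    have e5 : i + (n - i) = n := by omega
    obtain ⟨j, hj1, hj2⟩ := hE.near _ _ (geod_tail hγ hi) (x.1 (a i)) (by
      rw [e5]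
      change fd (γ i) (x.1 (a i)) + fd (x.1 (a i)) (γ n) = fd (γ i) (γ n)
      omega)
    exact hj (i + j) (by omega) (by omega) ⟨_, hj2⟩
  have hbig' : ((2 * R + 10 : ℕ) : ℤ) * x.2 ≤ W.K * |a 0 - a n| := hbig
  push_cast at hbig'
  by_cases hex : ∃ i, i ≤ n ∧ I i
  · classical
    obtain ⟨i0, hi0, hi0'⟩ := hex
    let i1 := Nat.find (⟨i0, hi0, hi0'⟩ : ∃ i, i ≤ n ∧ I i)
    have g1 : i1 ≤ n ∧ I i1 := Nat.find_spec (⟨i0, hi0, hi0'⟩ : ∃ i, i ≤ n ∧ I i)
    have g2 : ∀ j, j < i1 → ¬ (j ≤ n ∧ I j) := fun j hj =>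
      Nat.find_min (⟨i0, hi0, hi0'⟩ : ∃ i, i ≤ n ∧ I i) hj
    let i2 := Nat.findGreatest I n
    have g3 : I i2 := Nat.findGreatest_spec hi0 hi0'
    have g4 : i2 ≤ n := Nat.findGreatest_le n
    have g5 : ∀ j, i2 < j → j ≤ n → ¬ I j := fun j h1 h2 => Nat.findGreatest_is_greatest h1 h2
    have g6 : i1 ≤ i2 := by
      by_contra h
      exact g2 i2 (not_le.1 h) ⟨g4, g3⟩
    have g7 : i2 - i1 ≤ 2 * R + 1 := by
      apply hI i1 (i2 - i1) (by omega) g1.2
      rw [show i1 + (i2 - i1) = i2 by omega]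
      exact g3
    -- the left end
    obtain ⟨l, hl1, hl2, hl3⟩ : ∃ l, l ≤ i1 ∧ i1 ≤ l + 1 ∧ a l = a 0 := by
      rcases Nat.eq_zero_or_pos i1 with h | h
      · exact ⟨0, by omega, by omega, rfl⟩
      · exact ⟨i1 - 1, by omega, by omega, h3 _ (by omega) (fun j hj hIj =>
          g2 j (by omega) ⟨by omega, hIj⟩)⟩
    obtain ⟨r, hr1, hr2, hr3, hr4⟩ : ∃ r, i2 ≤ r ∧ r ≤ i2 + 1 ∧ r ≤ n ∧ a r = a n := by
      rcases g4.eq_or_lt with h | h
      · exact ⟨i2, le_rfl, by omega, g4, by rw [h]⟩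
      · exact ⟨i2 + 1, by omega, le_rfl, h, h4 _ h (fun j hj1 hj2 => g5 j (by omega) hj2)⟩
    have g8 := h2 l (r - l) (by omega)
    rw [show l + (r - l) = r by omega, hl3, hr4] at g8
    have g9 : ((r - l : ℕ) : ℤ) ≤ 2 * R + 3 := by omega
    have g10 : ((r - l : ℕ) : ℤ) * x.2 ≤ (2 * R + 3) * x.2 :=
      mul_le_mul_of_nonneg_right g9 (by omega)
    nlinarith
  · push Not at hex
    have e1 := h3 n le_rfl (fun j hj => hex j hj)
    rw [e1, sub_self, abs_zero, mul_zero] at hbig'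
    nlinarith

/-! ### the quotient of the cone metric is hyperbolic -/

section quo

variable {W : Words α} {E : GH (FreeGroup α)} {K : ℤ} {Θ : ℕ}

/-- a nontrivial translate has a long projection to a relator line -/
theorem long (P0 : (FreeGroup α)) (m : (FreeGroup α)) (hm : m ∈ W.toFam.N) (h1 : m * P0 ≠ P0) :
    ∃ x ∈ W.toFam.fam, (W.K - 6) * x.2 ≤
      W.K * |(fTree α).pr x.1 P0 - (fTree α).pr x.1 (m * P0)| := by
  have hN : W.toFam.N.Normal := W.toFam.N_normal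
  have hg : P0⁻¹ * m * P0 ∈ W.toFam.N := by
    have := hN.conj_mem m hm P0⁻¹
    rwa [inv_inv] at this
  have hg1 : P0⁻¹ * m * P0 ≠ 1 := by
    intro h
    apply h1
    have h' : P0 * (P0⁻¹ * m * P0) = P0 * 1 := by rw [h]
    rw [mul_one] at h'
    calc m * P0 = P0 * (P0⁻¹ * m * P0) := by group
      _ = P0 := h'
  obtain ⟨x, hx⟩ := W.toFam.toLines.windmill _ hg hg1
  change (W.K - 6) * x.1.2 ≤ W.K * |(fTree α).pr x.1.1 (1 : (FreeGroup α)) -
    (fTree α).pr x.1.1 ((P0⁻¹ * m * P0) * 1)| at hx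
  refine ⟨(P0 • x : W.toFam.fam).1, (P0 • x : W.toFam.fam).2, ?_⟩
  have e1 := W.toFam.pr_smul P0 x (1 : (FreeGroup α))
  have e2 := W.toFam.pr_smul P0 x ((P0⁻¹ * m * P0) * 1)
  change (fTree α).pr (P0 • x : W.toFam.fam).1.1 (P0 * 1) =
    (fTree α).pr x.1.1 (1 : (FreeGroup α)) at e1
  change (fTree α).pr (P0 • x : W.toFam.fam).1.1 (P0 * ((P0⁻¹ * m * P0) * 1)) =
    (fTree α).pr x.1.1 ((P0⁻¹ * m * P0) * 1) at e2
  rw [mul_one] at e1
  rw [show P0 * ((P0⁻¹ * m * P0) * 1) = m * P0 by group] at e2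
  rw [e1, e2]
  exact hx

/-- the translation of a relator line by a multiple of the period -/
theorem tr (x : (ℤ → (FreeGroup α)) × ℤ) (hx : x ∈ W.toFam.fam) (e : ℤ) (he : e = 1 ∨ e = -1) :
    ∃ t ∈ W.toFam.N, ∀ k, t * x.1 k = x.1 (k + e * x.2) := by
  obtain ⟨t, ht, h⟩ := W.exists_tr x hx
  rcases he with rfl | rfl
  · exact ⟨t, ht, fun k => by rw [h, one_mul]⟩
  · refine ⟨t⁻¹, inv_mem ht, fun k => ?_⟩
    rw [inv_mul_eq_iff_eq_mul, h]
    ring_nf

/-- a translation along a relator line does not increase the length of a side with a large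
projection -/
theorem rot (J : ∀ g : (FreeGroup α), Jm W g → E.len g ≤ 1) (H : JP W E Θ) (x : (ℤ → (FreeGroup α)) × ℤ)
    (hx : x ∈ W.toFam.fam) (p q : (FreeGroup α))
    (h : (Θ : ℤ) * x.2 ≤ W.K * |(fTree α).pr x.1 p - (fTree α).pr x.1 q|)
    (t : (FreeGroup α)) (s : ℤ) (ht : ∀ k, t * x.1 k = x.1 (k + s)) : E.d p (t * q) ≤ E.d p q := by
  obtain ⟨γ, g0, gn, gs⟩ := E.qo_geod (E.d p q) p q rfl
  obtain ⟨k, hk, a, b, ha, hb⟩ := H x hx γ (E.d p q) ⟨gs, by rw [g0, gn]⟩ (by rw [g0, gn]; exact h)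
  have h1 := E.qo_path gs 0 k (by omega)
  rw [zero_add, g0] at h1
  have h2 := E.qo_path gs (k + 1) (E.d p q - (k + 1)) (by omega)
  rw [show k + 1 + (E.d p q - (k + 1)) = E.d p q by omega, gn] at h2
  have h3 : E.d (γ k) (t * γ (k + 1)) ≤ 1 := by
    unfold GH.d
    refine J _ (Or.inr ⟨x, hx, a, b + s, ?_⟩)
    rw [ha, hb, ht]
  have h4 : E.d (t * γ (k + 1)) (t * q) ≤ E.d p q - (k + 1) := by
    rw [E.d_mul]; exact h2
  have t1 := E.d_tri p (γ k) (t * q)
  have t2 := E.d_tri (γ k) (t * γ (k + 1)) (t * q)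
  omega

/-- a translation along a relator line by one period towards `p` decreases the distance -/
theorem dec (x : (ℤ → (FreeGroup α)) × ℤ) (hx : x ∈ W.toFam.fam) (p q : (FreeGroup α))
    (h : x.2 < 2 * |(fTree α).pr x.1 p - (fTree α).pr x.1 q|) :
    ∃ t ∈ W.toFam.N, ∃ s : ℤ, (∀ k, t * x.1 k = x.1 (k + s)) ∧ fd p (t * q) < fd p q := by
  have hφ := W.toFam.line _ hx
  have hL := W.toFam.KL _ hx
  have hK := W.toFam.hK
  have hpos : 0 < x.2 := by omega
  have hd := hφ.d_eq p q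
  have hq := hφ.pr_spec p ((fTree α).pr x.1 p)
  change (fTree α).pr x.1 p ≠ (fTree α).pr x.1 q → fd p q =
    fd p (x.1 ((fTree α).pr x.1 p)) +
      |(fTree α).pr x.1 p - (fTree α).pr x.1 q| +
      fd (x.1 ((fTree α).pr x.1 q)) q at hd
  set a := (fTree α).pr x.1 p with ha
  set b := (fTree α).pr x.1 q with hb
  have hab : a ≠ b := by
    intro h'
    rw [h', sub_self, abs_zero] at h
    omega
  have hd' := hd hab
  have key : ∀ e : ℤ, (e = 1 ∨ e = -1) → |a - (b + e * x.2)| < |a - b| →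
      ∃ t ∈ W.toFam.N, ∃ s : ℤ, (∀ k, t * x.1 k = x.1 (k + s)) ∧ fd p (t * q) < fd p q := by
    intro e he hlt
    obtain ⟨t, htN, ht⟩ := tr x hx e he
    refine ⟨t, htN, e * x.2, ht, ?_⟩
    have t1 := fd_tri p (x.1 a) (t * q)
    have t2 := fd_tri (x.1 a) (x.1 (b + e * x.2)) (t * q)
    have t3 : fd (x.1 a) (x.1 (b + e * x.2)) = |a - (b + e * x.2)| := hφ _ _
    have t4 : fd (x.1 (b + e * x.2)) (t * q) = fd (x.1 b) q := by
      rw [← ht, fd_mul]
    omega
  rcases lt_or_gt_of_ne hab with hlt | hlt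
  · apply key (-1) (Or.inr rfl)
    rw [abs_of_neg (sub_neg.2 hlt)] at h ⊢
    rw [abs_lt]
    constructor <;> omega
  · apply key 1 (Or.inl rfl)
    rw [abs_of_pos (sub_pos.2 hlt)] at h ⊢
    rw [abs_lt]
    constructor <;> omega

/-- the closing lemma -/
theorem close (hK : 4 * (Θ : ℤ) + 100 ≤ W.K) (J : ∀ g : (FreeGroup α), Jm W g → E.len g ≤ 1)
    (H : JP W E Θ) (l : ℕ → ℕ) : ∀ (n : ℕ) (P : ℕ → (FreeGroup α)), fd (P 0) (P 4) ≤ n →
      (∃ m ∈ W.toFam.N, P 4 = m * P 0) → (∀ j < 4, E.d (P j) (P (j + 1)) ≤ l j) →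
      ∃ P' : ℕ → (FreeGroup α), (∀ j < 4, E.d (P' j) (P' (j + 1)) ≤ l j) ∧ P' 4 = P' 0 ∧
        ∀ j ≤ 4, ∃ m ∈ W.toFam.N, P' j = m * P j := by
  intro n
  induction n with
  | zero =>
    intro P h _ hP
    have h0 := fd_nonneg (P 0) (P 4)
    have h1 : P 0 = P 4 := fd_zero _ _ (by push_cast at h; omega)
    exact ⟨P, hP, h1.symm, fun j _ => ⟨1, one_mem _, by rw [one_mul]⟩⟩
  | succ n ih =>
    intro P h hm hP
    obtain ⟨m, hm, h4⟩ := hm
    by_cases h1 : m * P 0 = P 0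
    · exact ⟨P, hP, h4.trans h1, fun j _ => ⟨1, one_mem _, by rw [one_mul]⟩⟩
    obtain ⟨x, hx, hlong⟩ := long (P 0) m hm h1
    rw [← h4] at hlong
    have hL := W.toFam.KL _ hx
    change W.K ≤ x.2 at hL
    have hpos : 0 < x.2 := by omega
    have hKpos : 0 < W.K := by omega
    -- one of the sides is long
    obtain ⟨j, hj, hlj⟩ : ∃ j < 4, (Θ : ℤ) * x.2 ≤ W.K *
        |(fTree α).pr x.1 (P j) - (fTree α).pr x.1 (P (j + 1))| := by
      by_contra hcon
      push Not at hcon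
      have c0 := hcon 0 (by norm_num)
      have c1 := hcon 1 (by norm_num)
      have c2 := hcon 2 (by norm_num)
      have c3 := hcon 3 (by norm_num)
      set q0 := (fTree α).pr x.1 (P 0)
      set q1 := (fTree α).pr x.1 (P 1)
      set q2 := (fTree α).pr x.1 (P 2)
      set q3 := (fTree α).pr x.1 (P 3)
      set q4 := (fTree α).pr x.1 (P 4)
      have t1 : |q0 - q4| ≤ |q0 - q1| + |q1 - q2| + |q2 - q3| + |q3 - q4| := by
        have a1 := abs_sub_le q0 q1 q4
        have a2 := abs_sub_le q1 q2 q4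
        have a3 := abs_sub_le q2 q3 q4
        omega
      have t2 : W.K * |q0 - q4| ≤ W.K * (|q0 - q1| + |q1 - q2| + |q2 - q3| + |q3 - q4|) :=
        mul_le_mul_of_nonneg_left t1 hKpos.le
      have c0' : W.K * |q0 - q1| < Θ * x.2 := c0
      have c1' : W.K * |q1 - q2| < Θ * x.2 := c1
      have c2' : W.K * |q2 - q3| < Θ * x.2 := c2
      have c3' : W.K * |q3 - q4| < Θ * x.2 := c3
      have t3 : (W.K - 6) * x.2 < 4 * (Θ * x.2) := by linarith
      nlinarith
    have hhalf : x.2 < 2 * |(fTree α).pr x.1 (P 0) - (fTree α).pr x.1 (P 4)| := by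
      by_contra hcon
      push Not at hcon
      have t2 := mul_le_mul_of_nonneg_left hcon hKpos.le
      nlinarith
    obtain ⟨t, htN, s, ht, hdec⟩ := dec x hx (P 0) (P 4) hhalf
    let Q : ℕ → (FreeGroup α) := fun i => if i ≤ j then P i else t * P i
    have hQ0 : Q 0 = P 0 := if_pos (Nat.zero_le j)
    have hQ4 : Q 4 = t * P 4 := if_neg (by omega)
    obtain ⟨P', p1, p2, p3⟩ := ih Q (by rw [hQ0, hQ4]; push_cast at h; omega)
      ⟨t * m, mul_mem htN hm, by rw [hQ0, hQ4, h4, mul_assoc]⟩ (by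
        intro i hi
        rcases lt_trichotomy i j with hij | hij | hij
        · have e1 : Q i = P i := if_pos (by omega)
          have e2 : Q (i + 1) = P (i + 1) := if_pos (by omega)
          rw [e1, e2]
          exact hP i hi
        · have e1 : Q i = P i := if_pos (by omega)
          have e2 : Q (i + 1) = t * P (i + 1) := if_neg (by omega)
          rw [e1, e2]
          refine (rot J H x hx (P i) (P (i + 1)) ?_ t s ht).trans (hP i hi)
          rw [hij]
          exact hlj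
        · have e1 : Q i = t * P i := if_neg (by omega)
          have e2 : Q (i + 1) = t * P (i + 1) := if_neg (by omega)
          rw [e1, e2, E.d_mul]
          exact hP i hi)
    refine ⟨P', p1, p2, fun i hi => ?_⟩
    obtain ⟨m', hm', h'⟩ := p3 i hi
    by_cases hij : i ≤ j
    · have e1 : Q i = P i := if_pos hij
      exact ⟨m', hm', by rw [h', e1]⟩
    · have e1 : Q i = t * P i := if_neg hij
      exact ⟨m' * t, mul_mem hm' htN, by rw [h', e1, mul_assoc]⟩

/-- the four point inequality in the quotient -/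
theorem four (hK : 4 * (Θ : ℤ) + 100 ≤ W.K) (J : ∀ g : (FreeGroup α), Jm W g → E.len g ≤ 1)
    (H : JP W E Θ) (M : Subgroup (FreeGroup α)) [M.Normal] (hM : M = W.toFam.N) (u p v z : (FreeGroup α) ⧸ M) :
    E.qoLen M (u⁻¹ * v) + E.qoLen M (z⁻¹ * p) ≤
      max (E.qoLen M (u⁻¹ * z) + E.qoLen M (v⁻¹ * p))
        (E.qoLen M (u⁻¹ * p) + E.qoLen M (v⁻¹ * z)) + E.D := by
  obtain ⟨P0, h0⟩ := QuotientGroup.mk_surjective u
  obtain ⟨P1, h1, d1⟩ := E.qoLen_lift M P0 p
  obtain ⟨P2, h2, d2⟩ := E.qoLen_lift M P1 v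
  obtain ⟨P3, h3, d3⟩ := E.qoLen_lift M P2 z
  obtain ⟨P4, h4, d4⟩ := E.qoLen_lift M P3 u
  have h0' : (P0 : (FreeGroup α) ⧸ M) = u := h0
  obtain ⟨m, hm, hm4⟩ := GH.qo_of_coe_eq M (h0'.trans h4.symm)
  rw [h0'] at d1
  rw [h1] at d2
  rw [h2] at d3
  rw [h3] at d4
  let P : ℕ → (FreeGroup α) := fun j => match j with
    | 0 => P0
    | 1 => P1
    | 2 => P2
    | 3 => P3
    | _ => P4
  let l : ℕ → ℕ := fun j => match j with
    | 0 => E.qoLen M (u⁻¹ * p)
    | 1 => E.qoLen M (p⁻¹ * v)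
    | 2 => E.qoLen M (v⁻¹ * z)
    | _ => E.qoLen M (z⁻¹ * u)
  obtain ⟨P', hR, hc, hP'⟩ := close hK J H l (fd (P 0) (P 4)).toNat P
    (Int.self_le_toNat _) ⟨m, hM ▸ hm, hm4⟩
    (fun j hj => by
      rcases (by omega : j = 0 ∨ j = 1 ∨ j = 2 ∨ j = 3) with rfl | rfl | rfl | rfl
      · exact d1.le
      · exact d2.le
      · exact d3.le
      · exact d4.le)
  have e : ∀ j ≤ 4, (P' j : (FreeGroup α) ⧸ M) = (P j : (FreeGroup α) ⧸ M) := by
    intro j hj
    obtain ⟨m', hm', h⟩ := hP' j hj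
    rw [h]
    exact GH.qo_coe_mul M (hM ▸ hm') _
  have r0 : E.d (P' 0) (P' 1) ≤ E.qoLen M (u⁻¹ * p) := hR 0 (by norm_num)
  have r1 : E.d (P' 1) (P' 2) ≤ E.qoLen M (p⁻¹ * v) := hR 1 (by norm_num)
  have r2 : E.d (P' 2) (P' 3) ≤ E.qoLen M (v⁻¹ * z) := hR 2 (by norm_num)
  have r3 : E.d (P' 3) (P' 4) ≤ E.qoLen M (z⁻¹ * u) := hR 3 (by norm_num)
  rw [hc] at r3
  have f := E.fp (P' 0) (P' 2) (P' 3) (P' 1)
  have g1 := E.qoLen_d M (P' 0) (P' 2)
  have g2 := E.qoLen_d M (P' 3) (P' 1)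
  rw [e 0 (by norm_num), e 2 (by norm_num)] at g1
  rw [e 3 (by norm_num), e 1 (by norm_num)] at g2
  have a0 : (P 0 : (FreeGroup α) ⧸ M) = u := h0'
  have a1 : (P 1 : (FreeGroup α) ⧸ M) = p := h1
  have a2 : (P 2 : (FreeGroup α) ⧸ M) = v := h2
  have a3 : (P 3 : (FreeGroup α) ⧸ M) = z := h3
  rw [a0, a2] at g1
  rw [a3, a1] at g2
  have c1 : E.qoLen M (z⁻¹ * u) = E.qoLen M (u⁻¹ * z) := by
    rw [← E.qoLen_inv]; congr 1; group
  have c2 : E.qoLen M (p⁻¹ * v) = E.qoLen M (v⁻¹ * p) := by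
    rw [← E.qoLen_inv]; congr 1; group
  have c3 := E.d_comm (P' 0) (P' 3)
  have c4 := E.d_comm (P' 1) (P' 2)
  omega

end quo

/-- the quotient of the cone metric -/
noncomputable def quoGH (W : Words α) (E : GH (FreeGroup α)) (Θ : ℕ) (hK : 4 * (Θ : ℤ) + 100 ≤ W.K)
    (J : ∀ g : FreeGroup α, Jm W g → E.len g ≤ 1) (H : JP W E Θ) : GH (FreeGroup α ⧸ W.toFam.N) where
  len := E.qoLen W.toFam.N
  D := 2 * E.D + 2
  len_one := E.qoLen_one W.toFam.N
  eq_one := E.qoLen_eq_one W.toFam.N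
  len_inv := E.qoLen_inv W.toFam.N
  len_mul := E.qoLen_mul W.toFam.N
  fp' := fun u v w z => by
    have h := four hK J H W.toFam.N rfl u z v w
    omega
  step := E.qoLen_step W.toFam.N

/-! ### finiteness -/

theorem zw_mod (W : Words α) {b : (ℤ → α × Bool) × ℤ} (hb : b ∈ W.B) (k : ℤ) :
    ((zw b.1 k : (FreeGroup α)) : (FreeGroup α) ⧸ W.toFam.N) = ((zw b.1 (k % b.2) : (FreeGroup α)) : (FreeGroup α) ⧸ W.toFam.N) := by
  have h1 : (zw b.1 b.2 : (FreeGroup α)) ∈ W.toFam.N := by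
    rw [W.N_eq]
    exact Subgroup.subset_normalClosure ⟨b, hb, rfl⟩
  have h2 := zp_mul_period (fun k => (FreeGroup.mk [b.1 k] : (FreeGroup α))) b.2 (W.per_f b hb) (k / b.2)
    (k % b.2)
  change zw b.1 (k % b.2 + k / b.2 * b.2) = zw b.1 b.2 ^ (k / b.2) * zw b.1 (k % b.2) at h2
  rw [Int.emod_add_ediv_mul] at h2
  rw [h2, QuotientGroup.mk_mul, QuotientGroup.mk_zpow, (QuotientGroup.eq_one_iff _).2 h1, one_zpow,
    one_mul]

theorem fin_norm [Finite α] : {g : (FreeGroup α) | FreeGroup.norm g ≤ 1}.Finite := by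
  refine ((Set.finite_singleton (1 : (FreeGroup α))).union
    (Set.finite_range (fun a : α × Bool => (FreeGroup.mk [a] : (FreeGroup α))))).subset ?_
  intro g hg
  have hg' : g.toWord.length ≤ 1 := hg
  rcases Nat.le_one_iff_eq_zero_or_eq_one.1 hg' with h | h
  · left
    rw [List.length_eq_zero_iff, FreeGroup.toWord_eq_nil_iff] at h
    exact h
  · right
    obtain ⟨a, ha⟩ := List.length_eq_one_iff.1 h
    exact ⟨a, by rw [← FreeGroup.mk_toWord (x := g), ha]⟩

theorem fin_one [Finite α] {W : Words α} (hW : W.B.Finite) :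
    {q : (FreeGroup α) ⧸ W.toFam.N | ∃ g : (FreeGroup α), (g : (FreeGroup α) ⧸ W.toFam.N) = q ∧ Jm W g}.Finite := by
  have h1 : ((fun g : (FreeGroup α) => (g : (FreeGroup α) ⧸ W.toFam.N)) '' {g : (FreeGroup α) | FreeGroup.norm g ≤ 1}).Finite :=
    fin_norm.image _
  have h2 : (⋃ b ∈ W.B, Set.image2 (fun p q : ℤ => (((zw b.1 p)⁻¹ * zw b.1 q : (FreeGroup α)) :
      (FreeGroup α) ⧸ W.toFam.N)) (Set.Ico 0 b.2) (Set.Ico 0 b.2)).Finite :=
    hW.biUnion fun b _ => (Set.finite_Ico 0 b.2).image2 _ (Set.finite_Ico 0 b.2)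
  refine (h1.union h2).subset ?_
  rintro q ⟨g, rfl, hg | ⟨x, hx, a, c, hg⟩⟩
  · exact Or.inl ⟨g, hg, rfl⟩
  · right
    obtain ⟨b, hb, g', s, ε, rfl⟩ := hx
    have hL : 0 < b.2 := by
      have h3 := W.KL b hb
      have h4 := W.hK
      omega
    have e : g = (zw b.1 (s + sg ε * a))⁻¹ * zw b.1 (s + sg ε * c) := by
      rw [hg]
      show (g' * zw b.1 (s + sg ε * a))⁻¹ * (g' * zw b.1 (s + sg ε * c)) = _
      group
    refine Set.mem_iUnion₂.2 ⟨b, hb, (s + sg ε * a) % b.2, ⟨Int.emod_nonneg _ hL.ne',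
      Int.emod_lt_of_pos _ hL⟩, (s + sg ε * c) % b.2, ⟨Int.emod_nonneg _ hL.ne',
      Int.emod_lt_of_pos _ hL⟩, ?_⟩
    rw [e]
    simp only [QuotientGroup.mk_mul, QuotientGroup.mk_inv, ← zw_mod W hb]


end Pool.Agent.U627.QC
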