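import Pool.Agent.Helper705_SA.TreeSets

/-!
# Equivariant maps between trees
-/

set_option autoImplicit false

namespace Pool.Agent.U627.QC

open SimpleGraph Pool.Agent.Helper270.Tree Pool.Agent.Helper705_SA

section metric

variable {V : Type} {T : SimpleGraph V}

/-- tripods -/
theorem tripod (hT : T.IsTree) {x y w : V} (z : V) (h : T.dist y x + T.dist x w = T.dist y w) :
    T.dist y x + T.dist x z = T.dist y z ∨ T.dist z x + T.dist x w = T.dist z w := by
  by_cases hxz : x = z
  · left
    rw [hxz, dist_self, add_zero]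
  obtain ⟨q, hq0, hq1, hqadj, hqd, -⟩ := exists_geod hT x z
  have hd0 : 0 < T.dist x z := hT.connected.pos_dist_of_ne hxz
  have hadj : T.Adj x (q 1) := by
    have := hqadj 0 hd0
    rwa [hq0] at this
  have hz : T.dist z x = T.dist z (q 1) + 1 := by
    have h2 := (hqd 1 (by omega)).2
    rw [dist_comm (u := z) (v := q 1), h2, dist_comm]
    omega
  have c1 : T.dist (q 1) z = T.dist z (q 1) := dist_comm
  have c2 : T.dist z x = T.dist x z := dist_comm
  rcases side_dichotomy hT hadj y with h1 | h1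
  · left
    have := cross hT hadj h1 hz
    omega
  · rcases side_dichotomy hT hadj w with h2 | h2
    · right
      have := cross hT hadj h2 hz
      have c3 : T.dist w z = T.dist z w := dist_comm
      have c4 : T.dist w x = T.dist x w := dist_comm
      omega
    · exfalso
      have h3 : T.dist y w ≤ T.dist y (q 1) + T.dist (q 1) w := hT.connected.dist_triangle
      have c3 : T.dist (q 1) w = T.dist w (q 1) := dist_comm
      have c4 : T.dist w x = T.dist x w := dist_comm
      omega

end metric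

section map

variable {G V' W : Type} [Group G] [MulAction G V'] [MulAction G W] {T' : SimpleGraph V'}
  {T : SimpleGraph W}

/-- the map `f` is constant equal to `c` on the geodesic from `y` to `z` -/
def PP (T' : SimpleGraph V') (f : V' → W) (c : W) (y z : V') : Prop :=
  ∀ x, T'.dist y x + T'.dist x z = T'.dist y z → f x = c

variable {f : V' → W} {c : W}

lemma PP.symm {y z : V'} (h : PP T' f c y z) : PP T' f c z y := by
  intro x hx
  apply h
  rw [dist_comm (u := y) (v := x), dist_comm (u := x) (v := z), dist_comm (u := y) (v := z)]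
  omega

lemma PP.left {y z : V'} (h : PP T' f c y z) : f y = c := by
  apply h
  rw [dist_self, zero_add]

lemma PP.trans (hT : T'.IsTree) {y z w : V'} (h : PP T' f c y z) (h' : PP T' f c z w) :
    PP T' f c y w := by
  intro x hx
  rcases tripod hT z hx with h1 | h1
  · exact h x h1
  · exact h' x h1

lemma PP.smul (h' : TreeAct G T') (hf : ∀ (g : G) x, f (g • x) = g • f x) {g : G}
    {y z : V'} (h : PP T' f c y z) : PP T' f (g • c) (g • y) (g • z) := by
  intro x hx
  have : f (g⁻¹ • x) = c := by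
    apply h
    rw [← h'.dist_smul g y, ← h'.dist_smul g (g⁻¹ • x), ← h'.dist_smul g y z, smul_inv_smul]
    exact hx
  rw [← this, hf, smul_inv_smul]

lemma PP.sub (hT : T'.IsTree) {y z w : V'} (h : PP T' f c y w)
    (hz : T'.dist y z + T'.dist z w = T'.dist y w) : PP T' f c y z := by
  intro x hx
  apply h
  have h1 : T'.dist x w ≤ T'.dist x z + T'.dist z w := hT.connected.dist_triangle
  have h2 : T'.dist y w ≤ T'.dist y x + T'.dist x w := hT.connected.dist_triangle
  omega

lemma PP.conv (hT : T'.IsTree) (v : V') : Conv T' {y | PP T' f c v y} := by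
  intro x hx y hy z hz
  exact hx.trans hT ((hx.symm.trans hT hy).sub hT hz)

/-- an element preserving two disjoint convex sets fixes the gate -/
theorem gate_fixed (h' : TreeAct G T') {Y Z : Set V'} {a b : V'}
    (hab : ∀ x ∈ Y, ∀ y ∈ Z, T'.dist x y = T'.dist x a + 1 + T'.dist b y) (ha : a ∈ Y)
    (hZ : Z.Nonempty) (g : G) (h1 : ∀ x ∈ Y, g • x ∈ Y) (h2 : ∀ x ∈ Z, g • x ∈ Z)
    (h3 : ∀ x ∈ Y, g⁻¹ • x ∈ Y) (h4 : ∀ x ∈ Z, g⁻¹ • x ∈ Z) : g • a = a := by
  obtain ⟨y, hy⟩ := hZ
  have e1 := hab _ (h1 a ha) _ (h2 y hy)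
  rw [h'.dist_smul] at e1
  have e2 := hab a ha y hy
  have e3 := hab _ (h3 a ha) _ (h4 _ (h2 y hy))
  rw [h'.dist_smul] at e3
  have e4 := hab a ha _ (h2 y hy)
  rw [inv_smul_smul] at e3
  rw [dist_self] at e2 e4
  have h5 : T'.dist (g • a) a = 0 := by omega
  exact h'.isTree.connected.dist_eq_zero_iff.1 h5

/-- The main lemma on equivariant maps of trees. -/
theorem exists_edge (h' : TreeAct G T') (h : TreeAct G T)
    (hf : ∀ (g : G) x, f (g • x) = g • f x) (hadjf : ∀ x y, T'.Adj x y → f x = f y ∨ T.Adj (f x) (f y))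
    (wA wB : W) (hadj : T.Adj wB wA) (s : G) (hs : s • wA = wA) (hs' : s • wB ≠ wB) (v0 : V')
    (hP : ∀ b : G, b • wB = wB → PP T' f wB v0 (b • v0)) :
    ∃ p q, T'.Adj p q ∧ f p = wB ∧ f q = wA ∧
      ∀ g : G, g • wB = wB → (s⁻¹ * g * s) • wB = wB → g • p = p ∧ g • q = q := by
  have hT' := h'.isTree
  have hT := h.isTree
  have hv0 : f v0 = wB := (hP 1 (one_smul _ _)).left
  set Y : Set V' := {y | PP T' f wB v0 y} with hY
  set Z : Set V' := {y | PP T' f (s • wB) (s • v0) y} with hZ
  have hYc : Conv T' Y := PP.conv hT' v0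
  have hZc : Conv T' Z := PP.conv hT' (s • v0)
  have h0Y : v0 ∈ Y := by
    have := hP 1 (one_smul _ _)
    rwa [one_smul] at this
  have h0Z : s • v0 ∈ Z := PP.smul h' hf h0Y
  have hYf : ∀ y ∈ Y, f y = wB := fun y hy => (PP.symm hy).left
  have hZf : ∀ y ∈ Z, f y = s • wB := fun y hy => (PP.symm hy).left
  have hdis : ¬ (Y ∩ Z).Nonempty := by
    rintro ⟨x, h1, h2⟩
    exact hs' ((hZf x h2).symm.trans (hYf x h1))
  -- invariance
  have hYi : ∀ g : G, g • wB = wB → ∀ x ∈ Y, g • x ∈ Y := by
    intro g hg x hx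
    have h1 := PP.smul h' hf (g := g) hx
    rw [hg] at h1
    exact (hP g hg).trans hT' h1
  have hZi : ∀ g : G, (s⁻¹ * g * s) • wB = wB → ∀ x ∈ Z, g • x ∈ Z := by
    intro g hg x hx
    have h1 : PP T' f (s • wB) (s • v0) (s • (s⁻¹ * g * s) • v0) := PP.smul h' hf (hP _ hg)
    have h2 := PP.smul h' hf (g := g) hx
    have e1 : s • (s⁻¹ * g * s) • v0 = g • s • v0 := by
      rw [← mul_smul, ← mul_smul]; congr 1; group
    have e2 : g • s • wB = s • wB := by
      have this : s • (s⁻¹ * g * s) • wB = s • wB := by rw [hg]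
      rw [← mul_smul] at this
      rw [← mul_smul, ← this]
      congr 1
      group
    rw [e1] at h1
    rw [e2] at h2
    exact h1.trans hT' h2
  obtain ⟨a, b, hab, haY, hbY, hab1, hab2⟩ := hYc.separate hT' hZc ⟨_, h0Y⟩ ⟨_, h0Z⟩ hdis
  obtain ⟨a', b', hab', haZ, hbZ, hab1', hab2'⟩ := hZc.separate hT' hYc ⟨_, h0Z⟩ ⟨_, h0Y⟩
    (by rwa [Set.inter_comm])
  have hfix : ∀ g : G, g • wB = wB → (s⁻¹ * g * s) • wB = wB → g • a = a ∧ g • a' = a' := by
    intro g h1 h2
    have h3 : g⁻¹ • wB = wB := inv_smul_eq_iff.2 h1.symm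
    have h4 : (s⁻¹ * g⁻¹ * s) • wB = wB := by
      have : (s⁻¹ * g⁻¹ * s) = (s⁻¹ * g * s)⁻¹ := by group
      rw [this]
      exact inv_smul_eq_iff.2 h2.symm
    constructor
    · exact gate_fixed h' (fun x hx y hy => cross hT' hab (hab1 x hx) (hab2 y hy)) haY ⟨_, h0Z⟩ g
        (hYi g h1) (hZi g h2) (hYi _ h3) (hZi _ h4)
    · exact gate_fixed h' (fun x hx y hy => cross hT' hab' (hab1' x hx) (hab2' y hy)) haZ ⟨_, h0Y⟩ g
        (hZi g h2) (hYi g h1) (hZi _ h4) (hYi _ h3)
  -- the path from `a` to `a'`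
  obtain ⟨q, hq0, hq1, hqadj, hqd, -⟩ := exists_geod hT' a a'
  set n := T'.dist a a' with hn
  -- sides
  have s0 : T.dist (f (q 0)) wA = T.dist (f (q 0)) wB + 1 := by
    rw [hq0, hYf a haY, SimpleGraph.dist_self, dist_eq_one_iff_adj.2 hadj]
  have hsadj : T.Adj (s • wB) wA := by
    have := h.adj s wB wA hadj
    rwa [hs] at this
  have s1 : ¬ T.dist (f (q n)) wA = T.dist (f (q n)) wB + 1 := by
    rw [hq1, hZf a' haZ, dist_eq_one_iff_adj.2 hsadj]
    intro h1
    have h2 : T.dist (s • wB) wB = 0 := by omega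
    exact hs' (hT.connected.dist_eq_zero_iff.1 h2)
  obtain ⟨i, hi, hi1, hi2⟩ : ∃ i < n, T.dist (f (q i)) wA = T.dist (f (q i)) wB + 1 ∧
      ¬ T.dist (f (q (i + 1))) wA = T.dist (f (q (i + 1))) wB + 1 := by
    by_contra hcon
    push Not at hcon
    have : ∀ i ≤ n, T.dist (f (q i)) wA = T.dist (f (q i)) wB + 1 := by
      intro i
      induction i with
      | zero => intro _; exact s0
      | succ i ih => intro h1; exact hcon i (by omega) (ih (by omega))
    exact s1 (this n le_rfl)
  have hi3 : T.dist (f (q (i + 1))) wB = T.dist (f (q (i + 1))) wA + 1 :=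
    (side_dichotomy hT hadj.symm _).resolve_right hi2
  have hcr := cross hT hadj hi1 hi3
  have hfi : f (q i) = wB ∧ f (q (i + 1)) = wA := by
    rcases hadjf _ _ (hqadj i hi) with h1 | h1
    · rw [h1] at hi1
      exact absurd hi1 hi2
    · rw [dist_eq_one_iff_adj.2 h1] at hcr
      constructor
      · exact hT.connected.dist_eq_zero_iff.1 (by omega)
      · exact (hT.connected.dist_eq_zero_iff.1 (show T.dist wA (f (q (i + 1))) = 0 by omega)).symm
  refine ⟨q i, q (i + 1), hqadj i hi, hfi.1, hfi.2, ?_⟩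
  intro g h1 h2
  obtain ⟨h3, h4⟩ := hfix g h1 h2
  constructor
  · apply h'.convex h3 h4
    have := hqd i (by omega)
    omega
  · apply h'.convex h3 h4
    have := hqd (i + 1) (by omega)
    omega

/-- the constancy on geodesics for elements of the group generated by ... -/
theorem PP_closure (h' : TreeAct G T') (hf : ∀ (g : G) x, f (g • x) = g • f x) (v0 : V')
    (h0 : f v0 = c) (S : Set G) (hS : ∀ g ∈ S, PP T' f c v0 (g • v0)) (hc : ∀ g ∈ S, g • c = c)
    (g : G) (hg : g ∈ Subgroup.closure S) : PP T' f c v0 (g • v0) := by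
  have hcl : ∀ g ∈ Subgroup.closure S, g • c = c := by
    intro g hg
    have : Subgroup.closure S ≤ MulAction.stabilizer G c := by
      rw [Subgroup.closure_le]
      exact hc
    exact this hg
  induction hg using Subgroup.closure_induction with
  | mem x hx => exact hS x hx
  | one =>
    rw [one_smul]
    intro x hx
    rw [dist_self] at hx
    have : T'.dist v0 x = 0 := by omega
    rw [← h'.isTree.connected.dist_eq_zero_iff.1 this]
    exact h0
  | mul x y hx hy ihx ihy =>
    have h1 := PP.smul h' hf (g := x) ihy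
    rw [hcl x hx] at h1
    rw [mul_smul]
    exact ihx.trans h'.isTree h1
  | inv x hx ihx =>
    have h1 := PP.smul h' hf (g := x⁻¹) ihx
    rw [hcl x⁻¹ (inv_mem hx), inv_smul_smul] at h1
    exact h1.symm

/-- If `g` commutes with an element `k` which fixes `v0` and fixes only the vertex `c` of `T` then
the geodesic from `v0` to `g v0` is mapped to `c`. -/
theorem PP_of_commute (h' : TreeAct G T') (hf : ∀ (g : G) x, f (g • x) = g • f x) (v0 : V') (k g : G)
    (hk : k • v0 = v0) (hkc : ∀ w : W, k • w = w → w = c) (hc : Commute k g) :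
    PP T' f c v0 (g • v0) := by
  intro x hx
  apply hkc
  rw [← hf]
  congr 1
  apply h'.convex hk _ hx
  rw [← mul_smul, hc.eq, mul_smul, hk]

end map

end Pool.Agent.U627.QC
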