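import Pool.Agent.H322R3.HypDefs

/-!
# Quasi-convex subgroups are undistorted
-/

set_option autoImplicit false

namespace Pool.Agent.U627.QC

open Pool.Agent.H322R3.Hyp
open scoped Pointwise

variable {G : Type*} [Group G]

/-- `γ 0, γ 1, …, γ n` is a geodesic of the Cayley graph of `G` with respect to `S`. -/
def GeodSeg (S : Set G) (n : ℕ) (γ : ℕ → G) : Prop :=
  ∀ i j, i ≤ j → j ≤ n → wlen S ((γ i)⁻¹ * γ j) = j - i

/-- Every geodesic joining two points of `H` lies in the `R`-neighbourhood of `H`, in the Cayley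
graph of `G` with respect to `S`. -/
def QConv (S : Set G) (R : ℕ) (H : Subgroup G) : Prop :=
  ∀ (n : ℕ) (γ : ℕ → G), GeodSeg S n γ → γ 0 ∈ H → γ n ∈ H →
    ∀ i ≤ n, ∃ h ∈ H, wlen S ((γ i)⁻¹ * h) ≤ R

variable {S : Set G} (hS : Subgroup.closure S = ⊤)

include hS

lemma exists_geodSeg (g : G) : ∃ γ : ℕ → G, GeodSeg S (wlen S g) γ ∧ γ 0 = 1 ∧ γ (wlen S g) = g := by
  obtain ⟨l, h1, h2, h3⟩ := wlen_spec hS g
  refine ⟨fun i => (l.take i).prod, ?_, by simp, by simp only; rw [← h1, List.take_length, h3]⟩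
  have e : ∀ i j, i ≤ j → wlen S ((l.take i).prod⁻¹ * (l.take j).prod) ≤ j - i := by
    intro i j hij
    have h4 : (l.take j).prod = (l.take i).prod * ((l.take j).drop i).prod := by
      have : l.take i = (l.take j).take i := by rw [List.take_take, min_eq_left hij]
      rw [this, List.prod_take_mul_prod_drop]
    rw [h4, inv_mul_cancel_left]
    refine (wlen_le (S := S) _ ?_).trans ?_
    · intro x hx
      exact h2 x (List.mem_of_mem_take (List.mem_of_mem_drop hx))
    · rw [List.length_drop, List.length_take]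
      omega
  intro i j hij hj
  apply le_antisymm (e i j hij)
  have a1 := e 0 i (Nat.zero_le _)
  have a2 := e j (wlen S g) hj
  simp only [List.take_zero, List.prod_nil, inv_one, one_mul] at a1
  rw [← h1, List.take_length, h3, h1] at a2
  have a3 := wlen_mul_le hS ((l.take i).prod) ((l.take i).prod⁻¹ * (l.take j).prod)
  have a4 := wlen_mul_le hS ((l.take j).prod) ((l.take j).prod⁻¹ * g)
  rw [mul_inv_cancel_left] at a3 a4
  omega

lemma ball_finite (hfin : S.Finite) (n : ℕ) : {g : G | wlen S g ≤ n}.Finite := by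
  have hT : (S ∪ S⁻¹ ∪ {1}).Finite := (hfin.union hfin.inv).union (Set.finite_singleton 1)
  have h1 : ∀ n : ℕ, ((S ∪ S⁻¹ ∪ {1}) ^ n).Finite := by
    intro n
    induction n with
    | zero => rw [pow_zero]; exact Set.finite_one
    | succ n ih => rw [pow_succ]; exact ih.mul hT
  have h2 : ∀ l : List G, (∀ x ∈ l, x ∈ S ∨ x⁻¹ ∈ S) → l.prod ∈ (S ∪ S⁻¹ ∪ {1}) ^ l.length := by
    intro l
    induction l with
    | nil => intro _; simp
    | cons a l ih =>
      intro hl
      rw [List.prod_cons, List.length_cons, pow_succ']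
      refine Set.mul_mem_mul ?_ (ih fun x hx => hl x (List.mem_cons_of_mem _ hx))
      rcases hl a List.mem_cons_self with h | h
      · exact Or.inl (Or.inl h)
      · exact Or.inl (Or.inr h)
  refine (h1 n).subset ?_
  intro g hg
  obtain ⟨l, e1, e2, rfl⟩ := wlen_spec hS g
  have h3 := h2 l e2
  have h4 : (1 : G) ∈ S ∪ S⁻¹ ∪ {1} := Set.mem_union_right _ rfl
  exact Set.pow_subset_pow_right h4 (by rw [e1]; exact hg) h3

/-- quasi-convex subgroups are undistorted, as seen by a homomorphism to `ℤ` -/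
theorem linear_bound (hfin : S.Finite) {R : ℕ} {H : Subgroup G} (hQ : QConv S R H)
    (f : H →* Multiplicative ℤ) :
    ∃ M : ℕ, ∀ h : H, (f h).toAdd.natAbs ≤ M * (wlen S (h : G) + 1) := by
  have hB := ball_finite hS hfin (2 * R + 1)
  have hB' : {h : H | wlen S (h : G) ≤ 2 * R + 1}.Finite := by
    apply hB.preimage (f := fun h : H => (h : G))
    exact Subtype.val_injective.injOn
  obtain ⟨M, hM⟩ := (hB'.image (fun h => (f h).toAdd.natAbs)).bddAbove
  have hM' : ∀ h : H, wlen S (h : G) ≤ 2 * R + 1 → (f h).toAdd.natAbs ≤ M := by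
    intro h hh
    exact hM ⟨h, hh, rfl⟩
  refine ⟨M, fun h => ?_⟩
  obtain ⟨γ, hγ, h0, h1⟩ := exists_geodSeg hS (h : G)
  have hq := hQ _ γ hγ (by rw [h0]; exact one_mem _) (by rw [h1]; exact h.2)
  have key : ∀ i ≤ wlen S (h : G), ∀ k : H, wlen S ((γ i)⁻¹ * k) ≤ R →
      (f k).toAdd.natAbs ≤ M * (i + 1) := by
    intro i
    induction i with
    | zero =>
      intro _ k hk
      rw [h0, inv_one, one_mul] at hk
      have := hM' k (by omega)
      omega
    | succ i ih =>
      intro hi k hk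
      obtain ⟨k', hk', hk2⟩ := hq i (by omega)
      have e1 := ih (by omega) ⟨k', hk'⟩ hk2
      have e2 := hγ i (i + 1) (by omega) hi
      have e3 : wlen S ((k' : G)⁻¹ * k) ≤ 2 * R + 1 := by
        have a1 := wlen_mul_le hS ((k' : G)⁻¹ * γ i) ((γ i)⁻¹ * k)
        have a2 := wlen_mul_le hS ((γ i)⁻¹ * γ (i + 1)) ((γ (i + 1))⁻¹ * k)
        have a3 := wlen_inv hS ((γ i)⁻¹ * k')
        rw [mul_assoc, mul_inv_cancel_left] at a1
        rw [mul_assoc, mul_inv_cancel_left] at a2
        rw [mul_inv_rev, inv_inv] at a3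
        omega
      have e4 := hM' (⟨k', hk'⟩⁻¹ * k) e3
      have e5 : f k = f ⟨k', hk'⟩ * f (⟨k', hk'⟩⁻¹ * k) := by rw [← map_mul, mul_inv_cancel_left]
      rw [e5, toAdd_mul]
      have e6 := Int.natAbs_add_le (f ⟨k', hk'⟩).toAdd (f (⟨k', hk'⟩⁻¹ * k)).toAdd
      have e7 : M * (i + 1 + 1) = M * (i + 1) + M := by ring
      omega
  have := key _ le_rfl h (by rw [h1, inv_mul_cancel, wlen_one]; omega)
  exact this

end Pool.Agent.U627.QC
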