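import Mathlib

/-!
# The wreath product and positive words of the same length
-/

set_option autoImplicit false

namespace Pool.Agent.U627.QC

open FreeGroup (of mk)

section wreath

variable {β : Type} (n : ℕ)

/-- the shift automorphism -/
def shE (s : ZMod n) : MulAut (ZMod n → FreeGroup β) where
  toFun f := fun k => f (k - s)
  invFun f := fun k => f (k + s)
  left_inv f := by funext k; simp
  right_inv f := by funext k; simp
  map_mul' f g := rfl

/-- the shift action -/
def sh : Multiplicative (ZMod n) →* MulAut (ZMod n → FreeGroup β) where
  toFun s := shE n s.toAdd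
  map_one' := by
    ext f k
    show f (k - 0) = f k
    rw [sub_zero]
  map_mul' s t := by
    ext f k
    show f (k - (s.toAdd + t.toAdd)) = f (k - s.toAdd - t.toAdd)
    rw [sub_sub]

/-- the wreath product -/
abbrev Wr (β : Type) (n : ℕ) : Type := (ZMod n → FreeGroup β) ⋊[sh n] Multiplicative (ZMod n)

/-- the homomorphism to the wreath product -/
def wr : FreeGroup β →* Wr β n :=
  FreeGroup.lift (fun b => ⟨fun k => if k = 0 then of b else 1, Multiplicative.ofAdd 1⟩)

/-- the coordinates -/
def co (l : List β) (k : ℕ) : FreeGroup β := (l[k]?).elim 1 of

lemma wr_pos [NeZero n] (l : List β) (hl : l.length ≤ n) :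
    wr n (mk (l.map (fun b => (b, true)))) =
      (⟨fun k => co l k.val, Multiplicative.ofAdd (l.length : ZMod n)⟩ : Wr β n) := by
  induction l using List.reverseRecOn with
  | nil =>
    show wr n 1 = _
    rw [map_one]
    apply SemidirectProduct.ext
    · funext k
      simp [co]
    · simp
  | append_singleton l b ih =>
    rw [List.length_append, List.length_singleton] at hl
    have e1 : (mk ((l ++ [b]).map (fun b => (b, true))) : FreeGroup β) =
        mk (l.map (fun b => (b, true))) * of b := by
      rw [List.map_append, ← FreeGroup.mul_mk]
      rfl
    have e2 : wr n (of b) = (⟨fun k => if k = 0 then of b else 1, Multiplicative.ofAdd 1⟩ : Wr β n) :=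
      FreeGroup.lift_apply_of
    rw [e1, map_mul, ih (by omega), e2]
    apply SemidirectProduct.ext
    · rw [SemidirectProduct.mul_left]
      funext k
      show co l k.val * (if k - ((l.length : ℕ) : ZMod n) = 0 then of b else 1) = co (l ++ [b]) k.val
      have hk : k = ((l.length : ℕ) : ZMod n) ↔ k.val = l.length := by
        constructor
        · intro h
          rw [h, ZMod.val_natCast, Nat.mod_eq_of_lt (by omega)]
        · intro h
          rw [← h, ZMod.natCast_val, ZMod.cast_id]
      unfold co
      rcases lt_trichotomy k.val l.length with h | h | h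
      · rw [if_neg (by rw [sub_eq_zero, hk]; omega), mul_one, List.getElem?_append_left h]
      · rw [if_pos (by rw [sub_eq_zero, hk]; exact h), h]
        simp
      · rw [if_neg (by rw [sub_eq_zero, hk]; omega), List.getElem?_eq_none (by omega),
          List.getElem?_eq_none (by simp; omega)]
        simp
    · rw [SemidirectProduct.mul_right, List.length_append, List.length_singleton]
      show Multiplicative.ofAdd (l.length : ZMod n) * Multiplicative.ofAdd 1 = _
      rw [← ofAdd_add]
      congr 1
      push_cast
      rfl

lemma wr_full [NeZero n] (l : List β) (hl : l.length = n) :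
    wr n (mk (l.map (fun b => (b, true)))) =
      (SemidirectProduct.inl (fun k => co l k.val) : Wr β n) := by
  rw [wr_pos n l hl.le, hl]
  apply SemidirectProduct.ext
  · rfl
  · show Multiplicative.ofAdd ((n : ℕ) : ZMod n) = 1
    rw [ZMod.natCast_self]
    rfl

/-- the coordinates of the images of a pair of positive words -/
lemma wr_lift [NeZero n] {ι : Type} (U : ι → List β) (hU : ∀ i, (U i).length = n)
    (w : FreeGroup ι) :
    wr n (FreeGroup.lift (fun i => mk ((U i).map (fun b => (b, true)))) w) =
      (SemidirectProduct.inl (fun k => FreeGroup.lift (fun i => co (U i) k.val) w) : Wr β n) := by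
  let f : FreeGroup ι →* Wr β n := (SemidirectProduct.inl (φ := sh n)).comp
    { toFun := fun w k => FreeGroup.lift (fun i => co (U i) (ZMod.val k)) w
      map_one' := by funext k; simp
      map_mul' := fun a b => by funext k; simp }
  have h : (wr n).comp (FreeGroup.lift (fun i => mk ((U i).map (fun b => (b, true))))) = f := by
    apply FreeGroup.ext_hom
    intro i
    rw [MonoidHom.comp_apply, FreeGroup.lift_apply_of, wr_full n _ (hU i)]
    show _ = SemidirectProduct.inl (fun k => FreeGroup.lift (fun i => co (U i) (ZMod.val k)) (of i))
    congr 1
    funext k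
    rw [FreeGroup.lift_apply_of]
  exact DFunLike.congr_fun h w

end wreath

/-- Two distinct positive words of the same length generate a free group of rank two. -/
theorem pos_inj {β : Type} (U : Bool → List β) (hU : (U false).length = (U true).length)
    (hne : U false ≠ U true) :
    Function.Injective (FreeGroup.lift (fun z => (mk ((U z).map (fun b => (b, true))) : FreeGroup β))) := by
  obtain ⟨k, hk⟩ : ∃ k : ℕ, (U false)[k]? ≠ (U true)[k]? := by
    by_contra hcon
    push Not at hcon
    exact hne (List.ext_getElem? hcon)
  have hk1 : k < (U false).length := by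
    by_contra h
    apply hk
    rw [List.getElem?_eq_none (by omega), List.getElem?_eq_none (by omega)]
  have hk2 : k < (U true).length := by omega
  set n := (U false).length with hn
  have : NeZero n := ⟨by omega⟩
  rw [injective_iff_map_eq_one]
  intro w hw
  have h1 := wr_lift n U (by intro z; cases z <;> [rfl; exact hU.symm]) w
  rw [hw, map_one] at h1
  have h2 : (1 : Wr β n).left (k : ZMod n) = FreeGroup.lift (fun i => co (U i) (k : ZMod n).val) w := by
    rw [h1]
    rfl
  rw [ZMod.val_natCast, Nat.mod_eq_of_lt hk1] at h2
  let c : Bool → β := fun z => if z then (U true)[k] else (U false)[k]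
  have hc : Function.Injective c := by
    intro z z' h
    rw [List.getElem?_eq_getElem hk1, List.getElem?_eq_getElem hk2] at hk
    cases z <;> cases z'
    · rfl
    · exact absurd (congrArg some h) hk
    · exact absurd (congrArg some h.symm) hk
    · rfl
  have h3 : (fun i => co (U i) k) = fun i => (of (c i) : FreeGroup β) := by
    funext z
    unfold co
    cases z
    · rw [List.getElem?_eq_getElem hk1]; rfl
    · rw [List.getElem?_eq_getElem hk2]; rfl
  rw [h3] at h2
  have h4 : FreeGroup.map c w = 1 := by
    rw [FreeGroup.map_eq_lift]
    exact h2.symm
  exact (injective_iff_map_eq_one _).1 (FreeGroup.map_injective hc) w h4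

end Pool.Agent.U627.QC
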