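import Pool.Agent.U627.QC.Rel
import Pool.Agent.U627.QC.Inj

/-!
# The action of `(ℤ/2)²` on the small cancellation group
-/

set_option autoImplicit false

namespace Pool.Agent.U627.QC

open Pool.Agent.H17R2 Pool.Agent.Y893.RN Pool.Agent.TH54.BU
open FreeGroup (of mk)
open scoped Pointwise

lemma phi_injective {K : ℤ} (hK : 20 ≤ K) : Function.Injective (phi K) := by
  have h1 : ((tl K false).length : ℤ) = (tl K true).length := by
    rw [tl_length hK, tl_length hK]
  have h2 := pos_inj (tl K) (by exact_mod_cast h1) (tl_ne hK)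
  have h3 : phi K = (FreeGroup.lift (fun z => (mk ((tl K z).map (fun b => (b, true))) : F2))).comp
      (FreeGroup.lift (fun z => (of z)⁻¹)) := by
    apply FreeGroup.ext_hom
    intro z
    rw [phi_of, MonoidHom.comp_apply, FreeGroup.lift_apply_of, map_inv, FreeGroup.lift_apply_of]
    rfl
  have h4 : Function.Involutive (FreeGroup.lift (fun z : Bool => (of z)⁻¹)) := by
    intro u
    have : (FreeGroup.lift (fun z : Bool => (of z)⁻¹)).comp (FreeGroup.lift (fun z : Bool => (of z)⁻¹)) =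
        MonoidHom.id _ := by
      apply FreeGroup.ext_hom
      intro z
      rw [MonoidHom.comp_apply, FreeGroup.lift_apply_of, map_inv, FreeGroup.lift_apply_of, inv_inv]
      rfl
    exact DFunLike.congr_fun this u
  rw [h3, MonoidHom.coe_comp]
  exact h2.comp h4.injective

/-- the permutations of the letters -/
def pm : V →* Equiv.Perm Al where
  toFun w :=
    { toFun := fun l => match l with
        | Sum.inl (Sum.inl i) => Sum.inl (Sum.inl (w.1 * i))
        | Sum.inl (Sum.inr j) => Sum.inl (Sum.inr (w.2 * j))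
        | Sum.inr u => Sum.inr (w * u)
      invFun := fun l => match l with
        | Sum.inl (Sum.inl i) => Sum.inl (Sum.inl (w.1⁻¹ * i))
        | Sum.inl (Sum.inr j) => Sum.inl (Sum.inr (w.2⁻¹ * j))
        | Sum.inr u => Sum.inr (w⁻¹ * u)
      left_inv := by rintro ((i | j) | u) <;> simp [← mul_assoc]
      right_inv := by rintro ((i | j) | u) <;> simp [← mul_assoc] }
  map_one' := by ext l; rcases l with ((i | j) | u) <;> simp
  map_mul' w w' := by ext l; rcases l with ((i | j) | u) <;> simp [mul_assoc]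

lemma pm_la (w : V) (i : ℤˣ) : pm w (la i) = la (w.1 * i) := rfl
lemma pm_lb (w : V) (j : ℤˣ) : pm w (lb j) = lb (w.2 * j) := rfl
lemma pm_lt (w u : V) : pm w (lt u) = lt (w * u) := rfl

/-- the automorphisms of the free group -/
def pF : V →* MulAut FA where
  toFun w := FreeGroup.freeGroupCongr (pm w)
  map_one' := by
    apply MulEquiv.toMonoidHom_injective
    apply FreeGroup.ext_hom
    intro l
    show FreeGroup.map (pm 1) (of l) = of l
    rw [FreeGroup.map.of, map_one]
    rfl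
  map_mul' w w' := by
    apply MulEquiv.toMonoidHom_injective
    apply FreeGroup.ext_hom
    intro l
    show FreeGroup.map (pm (w * w')) (of l) = FreeGroup.map (pm w) (FreeGroup.map (pm w') (of l))
    rw [FreeGroup.map.of, FreeGroup.map.of, FreeGroup.map.of, map_mul]
    rfl

lemma pF_of (w : V) (l : Al) : pF w (of l) = of (pm w l) := by
  show FreeGroup.map (pm w) (of l) = _
  rw [FreeGroup.map.of]

lemma pF_xy (w v : V) (z : Bool) : pF w (xy v z) = xy (w * v) z := by
  cases z
  · show pF w (of (la v.1) * of (la v.1) * of (lb v.2)) = of (la (w * v).1) * of (la (w * v).1) * of (lb (w * v).2)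
    rw [map_mul, map_mul, pF_of, pF_of, pm_la, pm_lb]
    rfl
  · show pF w (of (la (-v.1)) * of (lb (-v.2)) * of (lb (-v.2))) =
      of (la (-(w * v).1)) * of (lb (-(w * v).2)) * of (lb (-(w * v).2))
    rw [map_mul, map_mul, pF_of, pF_of, pm_la, pm_lb, mul_neg, mul_neg]
    rfl

lemma pF_kap (w v : V) (u : F2) : pF w (kap v u) = kap (w * v) u := by
  have : (pF w).toMonoidHom.comp (kap v) = kap (w * v) := by
    apply FreeGroup.ext_hom
    intro z
    rw [MonoidHom.comp_apply, kap_of, kap_of]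
    exact pF_xy w v z
  exact DFunLike.congr_fun this u

lemma pm_ex (w v : V) (l : Fin 5 × Bool) (r : ℤ) :
    (pm w (ex v l r).1, (ex v l r).2) = ex (w * v) l r := by
  unfold ex
  split_ifs
  · rfl
  · rfl
  · rfl
  · show (pm w (la (-v.1)), true) = (la (-(w.1 * v.1)), true)
    rw [pm_la, mul_neg]
  · show (pm w (lb (-v.2)), true) = (lb (-(w.2 * v.2)), true)
    rw [pm_lb, mul_neg]

lemma pF_mk (w : V) (a : Al × Bool) : pF w (mk [a]) = mk [(pm w a.1, a.2)] := rfl

lemma pF_zw (w v : V) (K : ℤ) (z : Bool) (k : ℤ) :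
    pF w (zw (ww K v z) k) = zw (ww K (w * v) z) k := by
  refine zp_uniq (fun k => (mk [ww K (w * v) z k] : FA)) (fun k => pF w (zw (ww K v z) k))
    (fun k => zw (ww K (w * v) z) k) ?_ ?_ ?_ k
  · intro k
    show pF w (zw (ww K v z) (k + 1)) = pF w (zw (ww K v z) k) * mk [ww K (w * v) z k]
    rw [zw_succ, map_mul, pF_mk]
    congr 2
    rw [show (pm w (ww K v z k).1, (ww K v z k).2) = ww K (w * v) z k from pm_ex w v _ _]
  · intro k
    exact zw_succ _ _
  · show pF w (zw (ww K v z) 0) = zw (ww K (w * v) z) 0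
    rw [zw_zero, zw_zero, map_one]

section WKs

variable (K : ℤ) (hK : 20 ≤ K)

lemma hK2 {K : ℤ} (hK : 20 ≤ K) : 20 ≤ 2 * K := by omega

/-- the kernel -/
abbrev NN : Subgroup FA := (WK K hK).toFam.N

lemma NN_eq : NN K hK = Subgroup.normalClosure {g | ∃ v z, g = Rl (2 * K) v z} := by
  rw [NN, Words.N_eq]
  congr 1
  ext g
  constructor
  · rintro ⟨_, ⟨⟨v, z⟩, rfl⟩, rfl⟩
    exact ⟨v, z, zw_rel (hK2 hK) v z⟩
  · rintro ⟨v, z, rfl⟩
    exact ⟨_, ⟨(v, z), rfl⟩, (zw_rel (hK2 hK) v z).symm⟩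

lemma pF_Rl (w v : V) (z : Bool) (K : ℤ) : pF w (Rl K v z) = Rl K (w * v) z := by
  unfold Rl
  rw [map_mul, map_mul, map_mul, map_inv, map_pow, pF_of, pm_lt, pF_xy, pF_kap]

lemma pF_NN (w : V) {g : FA} (hg : g ∈ NN K hK) : pF w g ∈ NN K hK := by
  have h : NN K hK ≤ (NN K hK).comap (pF w).toMonoidHom := by
    conv_lhs => rw [NN_eq]
    have : ((NN K hK).comap (pF w).toMonoidHom).Normal := Subgroup.normal_comap _
    apply Subgroup.normalClosure_le_normal
    rintro _ ⟨v, z, rfl⟩
    show pF w (Rl (2 * K) v z) ∈ NN K hK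
    rw [pF_Rl, NN_eq]
    exact Subgroup.subset_normalClosure ⟨_, _, rfl⟩
  exact h hg

/-- the small cancellation group -/
abbrev Ga : Type := FA ⧸ NN K hK

/-- the automorphism of the quotient -/
def pQ1 (w : V) : Ga K hK →* Ga K hK :=
  QuotientGroup.map _ _ (pF w).toMonoidHom (fun _ hg => pF_NN K hK w hg)

lemma pQ1_mk (w : V) (g : FA) : pQ1 K hK w (g : Ga K hK) = ((pF w g : FA) : Ga K hK) := rfl

/-- the action on the quotient -/
def pQ : V →* MulAut (Ga K hK) where
  toFun w :=
    { toFun := pQ1 K hK w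
      invFun := pQ1 K hK w⁻¹
      left_inv := by
        intro q
        obtain ⟨g, rfl⟩ := QuotientGroup.mk_surjective q
        rw [pQ1_mk, pQ1_mk, ← MulAut.mul_apply, ← map_mul, inv_mul_cancel, map_one]
        rfl
      right_inv := by
        intro q
        obtain ⟨g, rfl⟩ := QuotientGroup.mk_surjective q
        rw [pQ1_mk, pQ1_mk, ← MulAut.mul_apply, ← map_mul, mul_inv_cancel, map_one]
        rfl
      map_mul' := map_mul _ }
  map_one' := by
    ext q
    obtain ⟨g, rfl⟩ := QuotientGroup.mk_surjective q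
    show pQ1 K hK 1 (g : Ga K hK) = (g : Ga K hK)
    rw [pQ1_mk, map_one]
    rfl
  map_mul' w w' := by
    ext q
    obtain ⟨g, rfl⟩ := QuotientGroup.mk_surjective q
    show pQ1 K hK (w * w') (g : Ga K hK) = pQ1 K hK w (pQ1 K hK w' (g : Ga K hK))
    rw [pQ1_mk, pQ1_mk, pQ1_mk, map_mul]
    rfl

lemma pQ_mk (w : V) (g : FA) : pQ K hK w (g : Ga K hK) = ((pF w g : FA) : Ga K hK) := rfl

lemma norm_pF (w : V) (g : FA) : FreeGroup.norm (pF w g) ≤ FreeGroup.norm g := by
  have : pF w g = mk (g.toWord.map (fun a => (pm w a.1, a.2))) := by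
    conv_lhs => rw [← FreeGroup.mk_toWord (x := g)]
    rfl
  rw [this]
  refine FreeGroup.norm_mk_le.trans ?_
  rw [List.length_map]
  rfl

lemma pF_gs (w : V) {g : FA} (hg : g ∈ gs (WK K hK)) : pF w g ∈ gs (WK K hK) := by
  rcases hg with h | ⟨x, hx, a, b, rfl⟩
  · exact Or.inl ((norm_pF w g).trans h)
  · right
    obtain ⟨_, ⟨⟨v, z⟩, rfl⟩, g, s, ε, rfl⟩ := hx
    refine ⟨(Words.ln (ww (2 * K) (w * v) z) (pF w g) s ε, 3 * Lt (2 * K)),
      ⟨_, ⟨(w * v, z), rfl⟩, _, s, ε, rfl⟩, a, b, ?_⟩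
    have key : ∀ k, pF w (Words.ln (ww (2 * K) v z) g s ε k) =
        Words.ln (ww (2 * K) (w * v) z) (pF w g) s ε k := by
      intro k
      show pF w (g * zw (ww (2 * K) v z) (s + sg ε * k)) = _
      rw [map_mul, pF_zw]
      rfl
    show pF w ((Words.ln (ww (2 * K) v z) g s ε a)⁻¹ * Words.ln (ww (2 * K) v z) g s ε b) = _
    rw [map_mul, map_inv, key, key]

lemma wl_pF (w : V) (g : FA) : wl (gs (WK K hK)) (pF w g) ≤ wl (gs (WK K hK)) g := by
  apply wl_le
  have h := wl_mem (gs_ex (WK K hK)) g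
  generalize wl (gs (WK K hK)) g = n at h
  induction n generalizing g with
  | zero =>
    rw [pow_zero, Set.mem_one] at h ⊢
    rw [h, map_one]
  | succ n ih =>
    rw [pow_succ, Set.mem_mul] at h ⊢
    obtain ⟨a, ha, b, hb, rfl⟩ := h
    exact ⟨pF w a, ih a ha, pF w b, pF_gs K hK w hb, (map_mul _ _ _).symm⟩

/-- the quotient length is invariant -/
lemma len_pQ (E : GH FA) (hE : ∀ g, E.len g = wl (gs (WK K hK)) g) (w : V) (q : Ga K hK) :
    E.qoLen (NN K hK) (pQ K hK w q) = E.qoLen (NN K hK) q := by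
  have key : ∀ w q, E.qoLen (NN K hK) (pQ K hK w q) ≤ E.qoLen (NN K hK) q := by
    intro w q
    obtain ⟨g, rfl, hg⟩ := E.qoLen_rep (NN K hK) q
    rw [← hg, pQ_mk]
    refine (E.qoLen_le (NN K hK) (pF w g)).trans ?_
    rw [hE, hE]
    exact wl_pF K hK w g
  refine le_antisymm (key w q) ?_
  have := key w⁻¹ (pQ K hK w q)
  rwa [← MulAut.mul_apply, ← map_mul, inv_mul_cancel, map_one] at this

/-- the group -/
abbrev G0 : Type := Ga K hK ⋊[pQ K hK] V

/-- There is a parameter for which the group is hyperbolic, with respect to a finite generating set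
for which the word length is close to a length of the normal subgroup. -/
theorem exists_hyp : ∃ (K : ℤ) (hK : 20 ≤ K), ∃ S : Set (G0 K hK), S.Finite ∧
    Subgroup.closure S = ⊤ ∧ Pool.Agent.H322R3.Hyp.IsHyperbolic S := by
  obtain ⟨K0, hK0⟩ := exists_quoGH
  have hK : 20 ≤ max 20 K0 := le_max_left _ _
  obtain ⟨E, Q, h1, h2, h3⟩ := hK0 (WK (max 20 K0) hK) (le_max_right _ _) (WK_fin _ hK)
  refine ⟨max 20 K0, hK, SE (pQ _ hK) Q, SE_finite _ _ h3, SE_closure _ _, hyp_ext _ _ ?_⟩
  intro v q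
  rw [h2, h2]
  exact len_pQ _ hK E h1 v q

end WKs

end Pool.Agent.U627.QC
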