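import Pool.Agent.U627.QC.Inj
import Pool.Agent.H26R2.Basic

/-!
# A malnormal free subgroup of rank two of a virtually free group
-/

set_option autoImplicit false

namespace Pool.Agent.U627.QC

open FreeGroup (of mk)

/-- The malnormality of the retracts of a free group (after `NH54.MG.MAL`) -/
theorem retract_mal {N : Type} [Group N] [IsFreeGroup N] [IsMulTorsionFree N] (X : Subgroup N)
    (rho : N →* N) (h1 : ∀ x, rho x ∈ X)
    (h2 : ∀ x ∈ X, rho x = x) {h z u : N} (hh : h ≠ 1) (hX : h ∈ X) (hz : z ∈ X)
    (e : u * z = h * u) : u ∈ X := by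
  set r := rho u with hr
  have hrX : r ∈ X := h1 u
  have e2 : r * z = h * r := by
    have := congrArg rho e
    rwa [map_mul, map_mul, h2 z hz, h2 h hX, ← hr] at this
  have hc : Commute (u * r⁻¹) h := by
    show u * r⁻¹ * h = h * (u * r⁻¹)
    have e3 : z = r⁻¹ * h * r := by rw [mul_assoc, ← e2, inv_mul_cancel_left]
    rw [e3] at e
    have e4 : u * r⁻¹ * h * r = h * u := by rw [← e]; group
    calc u * r⁻¹ * h = (u * r⁻¹ * h * r) * r⁻¹ := by group
      _ = h * (u * r⁻¹) := by rw [e4]; group
  obtain ⟨g, k, l, hk, hl⟩ := Pool.Agent.H26R2.exists_root hc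
  have hw : rho (u * r⁻¹) = 1 := by
    rw [map_mul, map_inv, h2 r hrX, ← hr, mul_inv_cancel]
  have hp : h ^ k = 1 := by
    have e5 : (u * r⁻¹) ^ l = h ^ k := by
      rw [hk, hl, ← zpow_mul, ← zpow_mul, mul_comm]
    have e6 := congrArg rho e5
    rw [map_zpow, map_zpow, hw, one_zpow, h2 h hX] at e6
    exact e6.symm
  have hk0 : k = 0 := by
    by_contra hne
    exact hh ((IsMulTorsionFree.zpow_eq_one_iff_left hne).1 hp)
  rw [hk0, zpow_zero] at hk
  have : u = r := by
    have := mul_inv_eq_one.1 hk
    exact this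
  rw [this]
  exact hrX

/-- the letters `a_i`, `b_j` -/
abbrev AB : Type := ℤˣ ⊕ ℤˣ

/-- the free group on the letters `a_i`, `b_j` -/
abbrev FI : Type := FreeGroup AB

/-- the words `x_v`, `y_v` -/
def UU (v : ℤˣ × ℤˣ) (z : Bool) : List AB :=
  if z then [Sum.inl (-v.1), Sum.inr (-v.2), Sum.inr (-v.2)] else [Sum.inl v.1, Sum.inl v.1, Sum.inr v.2]

/-- the homomorphism given by the words `x_v`, `y_v` -/
def kI (v : ℤˣ × ℤˣ) : FreeGroup Bool →* FI :=
  FreeGroup.lift (fun z => mk ((UU v z).map (fun b => (b, true))))

/-- the coordinates -/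
def cU (v : ℤˣ × ℤˣ) (k : ℕ) : FreeGroup Bool →* FI := FreeGroup.lift (fun z => co (UU v z) k)

/-- keep two letters -/
def kl (p q : AB) : FI →* FreeGroup Bool :=
  FreeGroup.lift (fun l => if l = p then of false else if l = q then of true else 1)

/-- count a letter -/
def cnt (p : AB) : FI →* Multiplicative ℤ :=
  FreeGroup.lift (fun l => if l = p then Multiplicative.ofAdd 1 else 1)

/-- the retraction onto the subgroup generated by the words `x_1`, `y_1` -/
def rI : FI →* FreeGroup Bool :=
  FreeGroup.lift (fun l => if l = Sum.inr 1 then of false else if l = Sum.inl (-1) then of true else 1)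

lemma rI_kI (u : FreeGroup Bool) : rI (kI 1 u) = u := by
  have : rI.comp (kI 1) = MonoidHom.id _ := by
    apply FreeGroup.ext_hom
    intro z
    rw [MonoidHom.comp_apply, kI, FreeGroup.lift_apply_of]
    cases z
    · show rI (of (Sum.inl 1) * of (Sum.inl 1) * of (Sum.inr 1)) = of false
      rw [map_mul, map_mul, rI, FreeGroup.lift_apply_of, FreeGroup.lift_apply_of]
      rw [if_neg (by decide), if_neg (by decide), if_pos rfl]
      simp
    · show rI (of (Sum.inl (-1)) * of (Sum.inr (-1)) * of (Sum.inr (-1))) = of true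
      rw [map_mul, map_mul, rI, FreeGroup.lift_apply_of, FreeGroup.lift_apply_of]
      rw [if_neg (by decide), if_pos rfl, if_neg (by decide), if_neg (by decide)]
      simp
  exact DFunLike.congr_fun this u

lemma kI_injective : Function.Injective (kI 1) := Function.LeftInverse.injective rI_kI

/-- the equations for the coordinates -/
lemma coords (v : ℤˣ × ℤˣ) (w : FI) (u u' : FreeGroup Bool) (h : kI 1 u = w * kI v u' * w⁻¹) :
    ∃ (s : ZMod 3) (f : ZMod 3 → FI), ∀ k : ZMod 3,
      cU 1 k.val u = f k * cU v (k - s).val u' * (f k)⁻¹ := by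
  have e1 := wr_lift 3 (UU 1) (by intro z; cases z <;> rfl) u
  have e2 := wr_lift 3 (UU v) (by intro z; cases z <;> rfl) u'
  have e3 : wr 3 (kI 1 u) = wr 3 w * wr 3 (kI v u') * (wr 3 w)⁻¹ := by
    rw [h, map_mul, map_mul, map_inv]
  refine ⟨(wr 3 w).right.toAdd, (wr 3 w).left, fun k => ?_⟩
  change wr 3 (kI 1 u) = _ at e1
  change wr 3 (kI v u') = _ at e2
  rw [e1, e2] at e3
  have e4 := congrFun (congrArg SemidirectProduct.left e3) k
  rw [SemidirectProduct.mul_left, SemidirectProduct.mul_left, SemidirectProduct.mul_right,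
    SemidirectProduct.inv_left, SemidirectProduct.left_inl, SemidirectProduct.left_inl,
    SemidirectProduct.right_inl, mul_one] at e4
  have e5 : ∀ (t : Multiplicative (ZMod 3)) (x : ZMod 3 → FI), sh 3 t (sh 3 t⁻¹ x) = x := by
    intro t x
    rw [← MulAut.mul_apply, ← map_mul, mul_inv_cancel, map_one]
    rfl
  rw [e5] at e4
  exact e4

lemma co_false_zero (v : ℤˣ × ℤˣ) : co (UU v false) 0 = of (Sum.inl v.1) := rfl
lemma co_false_one (v : ℤˣ × ℤˣ) : co (UU v false) 1 = of (Sum.inl v.1) := rfl
lemma co_false_two (v : ℤˣ × ℤˣ) : co (UU v false) 2 = of (Sum.inr v.2) := rfl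
lemma co_true_zero (v : ℤˣ × ℤˣ) : co (UU v true) 0 = of (Sum.inl (-v.1)) := rfl
lemma co_true_one (v : ℤˣ × ℤˣ) : co (UU v true) 1 = of (Sum.inr (-v.2)) := rfl
lemma co_true_two (v : ℤˣ × ℤˣ) : co (UU v true) 2 = of (Sum.inr (-v.2)) := rfl

/-- composition with a homomorphism on a free group -/
lemma lift_comp' {G : Type} [Group G] (f : Bool → FI) (g : FI →* G) (u : FreeGroup Bool) :
    g (FreeGroup.lift f u) = FreeGroup.lift (fun z => g (f z)) u := by
  have : g.comp (FreeGroup.lift f) = FreeGroup.lift (fun z => g (f z)) := by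
    apply FreeGroup.ext_hom
    intro z
    rw [MonoidHom.comp_apply, FreeGroup.lift_apply_of, FreeGroup.lift_apply_of]
  exact DFunLike.congr_fun this u

lemma lift_one' {G : Type} [Group G] (f : Bool → G) (hf : ∀ z, f z = 1) (u : FreeGroup Bool) :
    FreeGroup.lift f u = 1 := by
  have : FreeGroup.lift f = 1 := by
    apply FreeGroup.ext_hom
    intro z
    rw [FreeGroup.lift_apply_of, hf]
    rfl
  rw [this]
  rfl

lemma lift_of' (f : Bool → FreeGroup Bool) (hf : ∀ z, f z = of z) (u : FreeGroup Bool) :
    FreeGroup.lift f u = u := by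
  have : FreeGroup.lift f = MonoidHom.id _ := by
    apply FreeGroup.ext_hom
    intro z
    rw [FreeGroup.lift_apply_of, hf]
    rfl
  rw [this]
  rfl

/-- If the letters are disjoint then the element is trivial. -/
lemma disj {k k' : ℕ} {v : ℤˣ × ℤˣ} {u u' : FreeGroup Bool} {f : FI}
    (h : cU 1 k u = f * cU v k' u' * f⁻¹) (p q : AB)
    (h1 : ∀ z, kl p q (co (UU 1 z) k) = of z) (h2 : ∀ z, kl p q (co (UU v z) k') = 1) : u = 1 := by
  have e := congrArg (kl p q) h
  rw [map_mul, map_mul, map_inv, cU, cU, lift_comp', lift_comp', lift_one' _ h2, lift_of' _ h1] at e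
  rw [e, mul_one, mul_inv_cancel]

lemma kl_of (p q l : AB) : kl p q (of l) = if l = p then of false else if l = q then of true else 1 :=
  FreeGroup.lift_apply_of

lemma cnt_of (p l : AB) : cnt p (of l) = if l = p then Multiplicative.ofAdd 1 else 1 :=
  FreeGroup.lift_apply_of

/-- exponent sum of a generator -/
def es (z : Bool) : FreeGroup Bool →* Multiplicative ℤ :=
  FreeGroup.lift (fun y => if y = z then Multiplicative.ofAdd 1 else 1)

/-- count a letter in both sides -/
lemma cnt_eq {k k' : ℕ} {v : ℤˣ × ℤˣ} {u u' : FreeGroup Bool} {f : FI}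
    (h : cU 1 k u = f * cU v k' u' * f⁻¹) (p : AB) :
    FreeGroup.lift (fun z => cnt p (co (UU 1 z) k)) u =
      FreeGroup.lift (fun z => cnt p (co (UU v z) k')) u' := by
  have e := congrArg (cnt p) h
  rw [map_mul, map_mul, map_inv, cU, cU, lift_comp', lift_comp'] at e
  rw [e, mul_comm (cnt p f), mul_assoc, mul_inv_cancel, mul_one]

lemma lift_es (f : Bool → Multiplicative ℤ) (z : Bool)
    (hf : ∀ y, f y = if y = z then Multiplicative.ofAdd 1 else 1) (u : FreeGroup Bool) :
    FreeGroup.lift f u = es z u := by
  unfold es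
  congr 2
  funext y
  exact hf y

lemma lift_pow (z : Bool) (f : Bool → FreeGroup Bool) (hf : ∀ y, f y = if y = z then of z else 1)
    (u : FreeGroup Bool) (h : es z u = 1) : FreeGroup.lift f u = 1 := by
  have : FreeGroup.lift f = (zpowersHom _ (of z)).comp (es z) := by
    apply FreeGroup.ext_hom
    intro y
    rw [FreeGroup.lift_apply_of, hf, MonoidHom.comp_apply, es, FreeGroup.lift_apply_of]
    split_ifs
    · rw [zpowersHom_apply]; simp
    · rw [map_one]
  rw [this, MonoidHom.comp_apply, h, map_one]

lemma neg_ne (e : ℤˣ) : e ≠ -e := by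
  rcases Int.units_eq_one_or e with rfl | rfl <;> decide

/-- the twisted case -/
lemma twisted (v : ℤˣ × ℤˣ) (hv : v ≠ 1) (w : FI) (u u' : FreeGroup Bool)
    (h : kI 1 u = w * kI v u' * w⁻¹) : u = 1 := by
  obtain ⟨s, f, hf⟩ := coords v w u u' h
  have hs : ∀ s : ZMod 3, s = 0 ∨ s = 1 ∨ s = 2 := by decide
  rcases hs s with rfl | rfl | rfl
  · have h0 := hf 0
    have h1 := hf 1
    have h2 := hf 2
    have e0 : ((0 : ZMod 3) - 0).val = 0 := by decide
    have e1 : ((1 : ZMod 3) - 0).val = 1 := by decide
    have e2 : ((2 : ZMod 3) - 0).val = 2 := by decide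
    have g0 : (0 : ZMod 3).val = 0 := by decide
    have g1 : (1 : ZMod 3).val = 1 := by decide
    have g2 : (2 : ZMod 3).val = 2 := by decide
    rw [e0, g0] at h0
    rw [e1, g1] at h1
    rw [e2, g2] at h2
    obtain ⟨p, q⟩ := v
    rcases Int.units_eq_one_or p with rfl | rfl
    · rcases Int.units_eq_one_or q with rfl | rfl
      · exact absurd rfl hv
      · -- `σ = (1, -1)`
        -- count `b_{-1}` in the second coordinate
        have c1 := cnt_eq h1 (Sum.inr (-1))
        rw [lift_es _ true (by
          intro z; cases z <;>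
          simp only [co_false_one, co_true_one, cnt_of] <;> decide), lift_one' _ (by
          intro z; cases z <;>
          simp only [co_false_one, co_true_one, cnt_of] <;> decide)] at c1
        have c2 := cnt_eq h2 (Sum.inr (-1))
        rw [lift_es _ true (by
          intro z; cases z <;>
          simp only [co_false_two, co_true_two, cnt_of] <;> decide), lift_es _ false (by
          intro z; cases z <;>
          simp only [co_false_two, co_true_two, cnt_of] <;> decide), c1] at c2
        have e := congrArg (kl (Sum.inl 1) (Sum.inr (-1))) h1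
        rw [map_mul, map_mul, map_inv, cU, cU, lift_comp', lift_comp', lift_of' _ (by
          intro z; cases z
          · rw [co_false_one, kl_of]; rfl
          · rw [co_true_one, kl_of]; rfl), lift_pow false _ (by
          intro z; cases z
          · rw [co_false_one, kl_of]; rfl
          · rw [co_true_one, kl_of]; rfl) u' c2.symm] at e
        rw [e, mul_one, mul_inv_cancel]
    · rcases Int.units_eq_one_or q with rfl | rfl
      · -- `τ = (-1, 1)`
        have c1 := cnt_eq h1 (Sum.inl 1)
        rw [lift_es _ false (by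
          intro z; cases z <;>
          simp only [co_false_one, co_true_one, cnt_of] <;> decide), lift_one' _ (by
          intro z; cases z <;>
          simp only [co_false_one, co_true_one, cnt_of] <;> decide)] at c1
        have c2 := cnt_eq h0 (Sum.inl 1)
        rw [lift_es _ false (by
          intro z; cases z <;>
          simp only [co_false_zero, co_true_zero, cnt_of] <;> decide), lift_es _ true (by
          intro z; cases z <;>
          simp only [co_false_zero, co_true_zero, cnt_of] <;> decide), c1] at c2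
        have e := congrArg (kl (Sum.inl 1) (Sum.inr (-1))) h1
        rw [map_mul, map_mul, map_inv, cU, cU, lift_comp', lift_comp', lift_of' _ (by
          intro z; cases z
          · rw [co_false_one, kl_of]; rfl
          · rw [co_true_one, kl_of]; rfl), lift_pow true _ (by
          intro z; cases z
          · rw [co_false_one, kl_of]; rfl
          · rw [co_true_one, kl_of]; rfl) u' c2.symm] at e
        rw [e, mul_one, mul_inv_cancel]
      · apply disj h1 (Sum.inl 1) (Sum.inr (-1))
        · intro z; cases z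
          · rw [co_false_one, kl_of]; rfl
          · rw [co_true_one, kl_of]; rfl
        · intro z; cases z
          · rw [co_false_one, kl_of]; rfl
          · rw [co_true_one, kl_of]; rfl
  · have h0 := hf 0
    have e0 : ((0 : ZMod 3) - 1).val = 2 := by decide
    have g0 : (0 : ZMod 3).val = 0 := by decide
    rw [e0, g0] at h0
    apply disj h0 (Sum.inl 1) (Sum.inl (-1))
    · intro z; cases z
      · rw [co_false_zero, kl_of]; rfl
      · rw [co_true_zero, kl_of]; rfl
    · intro z; cases z
      · rw [co_false_two, kl_of, if_neg (by simp), if_neg (by simp)]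
      · rw [co_true_two, kl_of, if_neg (by simp), if_neg (by simp)]
  · have h2 := hf 2
    have e2 : ((2 : ZMod 3) - 2).val = 0 := by decide
    have g2 : (2 : ZMod 3).val = 2 := by decide
    rw [e2, g2] at h2
    apply disj h2 (Sum.inr 1) (Sum.inr (-1))
    · intro z; cases z
      · rw [co_false_two, kl_of]; rfl
      · rw [co_true_two, kl_of]; rfl
    · intro z; cases z
      · rw [co_false_zero, kl_of, if_neg (by simp), if_neg (by simp)]
      · rw [co_true_zero, kl_of, if_neg (by simp), if_neg (by simp)]

/-- **malnormality** -/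
theorem malnormal (v : ℤˣ × ℤˣ) (w : FI) (u u' : FreeGroup Bool) (hu : u ≠ 1)
    (h : kI 1 u = w * kI v u' * w⁻¹) : v = 1 ∧ w ∈ (kI 1).range := by
  by_cases hv : v = 1
  · refine ⟨hv, ?_⟩
    rw [hv] at h
    refine retract_mal (kI 1).range ((kI 1).comp rI) ?_ ?_ (h := kI 1 u) (z := kI 1 u') ?_
      ⟨_, rfl⟩ ⟨_, rfl⟩ ?_
    · intro x
      exact ⟨_, rfl⟩
    · rintro _ ⟨x, rfl⟩
      rw [MonoidHom.comp_apply, rI_kI]
    · intro h1
      apply hu
      apply kI_injective
      rw [h1, map_one]
    · rw [h, inv_mul_cancel_right]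
  · exact absurd (twisted v hv w u u' h) hu

end Pool.Agent.U627.QC
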