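import Pool.Agent.U627.QC.Grp
import Pool.Agent.U627.QC.Mal
import Pool.Agent.Helper705_SA.Amalg

/-!
# The group is an amalgamated product
-/

set_option autoImplicit false

namespace Pool.Agent.U627.QC

open Pool.Agent.H17R2 Pool.Agent.Y893.RN Pool.Agent.TH54.BU
open FreeGroup (of mk)
open SemidirectProduct (inl inr)

/-! ### a cube root of an injective endomorphism -/

/-- the injective homomorphism on the third power -/
def Ph (p : F2 →* F2) : (F2 × F2 × F2) →* (F2 × F2 × F2) where
  toFun u := (p u.2.2, u.1, u.2.1)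
  map_one' := by simp
  map_mul' a b := by simp

lemma Ph_injective (p : F2 →* F2) (hp : Function.Injective p) : Function.Injective (Ph p) := by
  rintro ⟨a, b, c⟩ ⟨a', b', c'⟩ h
  have h1 : (p c, a, b) = (p c', a', b') := h
  rw [Prod.mk.injEq, Prod.mk.injEq] at h1
  obtain ⟨h2, rfl, rfl⟩ := h1
  rw [hp h2]

theorem exists_root3 (p : F2 →* F2) (hp : Function.Injective p) :
    ∃ (A : Type) (_ : Group A) (i : F2 →* A) (t : A), Function.Injective i ∧
      ∀ u, t ^ 3 * i u * (t ^ 3)⁻¹ = i (p u) := by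
  let e : (⊤ : Subgroup (F2 × F2 × F2)) ≃* (Ph p).range :=
    Subgroup.topEquiv.trans (MonoidHom.ofInjective (Ph_injective p hp))
  let A := HNNExtension (F2 × F2 × F2) ⊤ (Ph p).range e
  let i : F2 →* A := HNNExtension.of.comp (MonoidHom.inl F2 (F2 × F2))
  have key : ∀ x : F2 × F2 × F2, (HNNExtension.t : A) * HNNExtension.of x * HNNExtension.t⁻¹ =
      HNNExtension.of (Ph p x) := by
    intro x
    have := HNNExtension.equiv_eq_conj (φ := e) (⟨x, trivial⟩ : (⊤ : Subgroup (F2 × F2 × F2)))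
    exact this.symm
  refine ⟨A, inferInstance, i, HNNExtension.t, ?_, ?_⟩
  · apply (HNNExtension.of_injective (φ := e)).comp
    intro a b h
    exact (Prod.mk.inj h).1
  · intro u
    have e1 : (HNNExtension.t : A) ^ 3 * i u * (HNNExtension.t ^ 3)⁻¹ =
        HNNExtension.t * (HNNExtension.t * (HNNExtension.t * i u * HNNExtension.t⁻¹) *
          HNNExtension.t⁻¹) * HNNExtension.t⁻¹ := by
      simp only [pow_succ, pow_zero, one_mul, mul_inv_rev, mul_assoc]
    rw [e1]
    have e2 : i u = HNNExtension.of (u, 1, 1) := rfl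
    rw [e2, key, key, key]
    have e3 : Ph p (Ph p (Ph p (u, 1, 1))) = (p u, 1, 1) := by
      show (p u, p 1, p 1) = (p u, 1, 1)
      rw [map_one]
    rw [e3]
    rfl

/-! ### the virtually free vertex group -/

/-- the permutations of the letters `a_i`, `b_j` -/
def pmI : V →* Equiv.Perm AB where
  toFun w :=
    { toFun := fun l => match l with
        | Sum.inl i => Sum.inl (w.1 * i)
        | Sum.inr j => Sum.inr (w.2 * j)
      invFun := fun l => match l with
        | Sum.inl i => Sum.inl (w.1⁻¹ * i)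
        | Sum.inr j => Sum.inr (w.2⁻¹ * j)
      left_inv := by rintro (i | j) <;> simp [← mul_assoc]
      right_inv := by rintro (i | j) <;> simp [← mul_assoc] }
  map_one' := by ext l; rcases l with (i | j) <;> simp
  map_mul' w w' := by ext l; rcases l with (i | j) <;> simp [mul_assoc]

lemma pm_inl (w : V) (l : AB) : pm w (Sum.inl l) = Sum.inl (pmI w l) := by
  rcases l with i | j <;> rfl

/-- the automorphisms of the free group on `a_i`, `b_j` -/
def pI : V →* MulAut FI where
  toFun w := FreeGroup.freeGroupCongr (pmI w)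
  map_one' := by
    apply MulEquiv.toMonoidHom_injective
    apply FreeGroup.ext_hom
    intro l
    show FreeGroup.map (pmI 1) (of l) = of l
    rw [FreeGroup.map.of, map_one]
    rfl
  map_mul' w w' := by
    apply MulEquiv.toMonoidHom_injective
    apply FreeGroup.ext_hom
    intro l
    show FreeGroup.map (pmI (w * w')) (of l) = FreeGroup.map (pmI w) (FreeGroup.map (pmI w') (of l))
    rw [FreeGroup.map.of, FreeGroup.map.of, FreeGroup.map.of, map_mul]
    rfl

lemma pI_of (w : V) (l : AB) : pI w (of l) = of (pmI w l) := by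
  show FreeGroup.map (pmI w) (of l) = _
  rw [FreeGroup.map.of]

/-- the inclusion of the free groups -/
def eI : FI →* FA := FreeGroup.map Sum.inl

lemma eI_of (l : AB) : eI (of l) = of (Sum.inl l) := FreeGroup.map.of

lemma pF_eI (w : V) (x : FI) : pF w (eI x) = eI (pI w x) := by
  have : (pF w).toMonoidHom.comp eI = eI.comp (pI w).toMonoidHom := by
    apply FreeGroup.ext_hom
    intro l
    show pF w (eI (of l)) = eI (pI w (of l))
    rw [eI_of, pF_of, pI_of, eI_of, pm_inl]
  exact DFunLike.congr_fun this x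

lemma eI_kI (v : V) (u : F2) : eI (kI v u) = kap v u := by
  have : eI.comp (kI v) = kap v := by
    apply FreeGroup.ext_hom
    intro z
    rw [MonoidHom.comp_apply, kap_of, kI, FreeGroup.lift_apply_of]
    cases z <;> rfl
  exact DFunLike.congr_fun this u

lemma pI_kI (w v : V) (u : F2) : pI w (kI v u) = kI (w * v) u := by
  have : (pI w).toMonoidHom.comp (kI v) = kI (w * v) := by
    apply FreeGroup.ext_hom
    intro z
    rw [MonoidHom.comp_apply]
    show pI w (kI v (of z)) = kI (w * v) (of z)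
    rw [kI, FreeGroup.lift_apply_of, kI, FreeGroup.lift_apply_of]
    cases z
    · show pI w (of (Sum.inl v.1) * of (Sum.inl v.1) * of (Sum.inr v.2)) =
        of (Sum.inl (w.1 * v.1)) * of (Sum.inl (w.1 * v.1)) * of (Sum.inr (w.2 * v.2))
      rw [map_mul, map_mul, pI_of, pI_of]
      rfl
    · show pI w (of (Sum.inl (-v.1)) * of (Sum.inr (-v.2)) * of (Sum.inr (-v.2))) =
        of (Sum.inl (-(w.1 * v.1))) * of (Sum.inr (-(w.2 * v.2))) * of (Sum.inr (-(w.2 * v.2)))
      rw [map_mul, map_mul, pI_of, pI_of]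
      have e1 : pmI w (Sum.inl (-v.1)) = Sum.inl (w.1 * -v.1) := rfl
      have e2 : pmI w (Sum.inr (-v.2)) = Sum.inr (w.2 * -v.2) := rfl
      rw [e1, e2, mul_neg, mul_neg]
  exact DFunLike.congr_fun this u

/-- the virtually free group -/
abbrev B0 : Type := FI ⋊[pI] V

/-- the malnormal subgroup -/
def kB : F2 →* B0 := inl.comp (kI 1)

lemma kB_injective : Function.Injective kB :=
  SemidirectProduct.inl_injective.comp kI_injective

theorem malnormalB (g : B0) (u u' : F2) (hu : u ≠ 1) (h : kB u = g * kB u' * g⁻¹) :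
    g ∈ kB.range := by
  have h1 : kI 1 u = g.left * kI g.right u' * g.left⁻¹ := by
    have h2 := congrArg SemidirectProduct.left h
    rw [SemidirectProduct.mul_left, SemidirectProduct.mul_left, SemidirectProduct.mul_right,
      SemidirectProduct.inv_left] at h2
    have h3 : (kB u).left = kI 1 u := rfl
    have h4 : (kB u').left = kI 1 u' := rfl
    have h5 : (kB u').right = 1 := rfl
    rw [h3, h4, h5, mul_one, pI_kI, mul_one, ← MulAut.mul_apply, ← map_mul, mul_inv_cancel,
      map_one] at h2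
    exact h2
  obtain ⟨h2, w, h3⟩ := malnormal g.right g.left u u' hu h1
  refine ⟨w, ?_⟩
  apply SemidirectProduct.ext
  · exact h3
  · exact h2.symm

section grp

variable {K : ℤ} {hK : 20 ≤ K}

/-- the homomorphism from the free group -/
def iF : FA →* G0 K hK := inl.comp (QuotientGroup.mk' _)

/-- the finite subgroup -/
def iV : V →* G0 K hK := inr

lemma iV_iF (w : V) (g : FA) : iV w * iF g * (iV w)⁻¹ = (iF (pF w g) : G0 K hK) := by
  have h := SemidirectProduct.inl_aut (φ := pQ K hK) w (g : Ga K hK)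
  rw [map_inv] at h
  exact h.symm

/-- the stable letter -/
def tt : G0 K hK := iF (of (lt 1))

/-- the inclusion of the virtually free group -/
def iB : B0 →* G0 K hK :=
  SemidirectProduct.lift (iF.comp eI) iV (by
    intro w
    apply FreeGroup.ext_hom
    intro l
    show iF (eI (pI w (of l))) = iV w * iF (eI (of l)) * (iV w)⁻¹
    rw [iV_iF, pF_eI])

lemma iB_inl (x : FI) : (iB (inl x) : G0 K hK) = iF (eI x) := SemidirectProduct.lift_inl _ _ _ _

lemma iB_inr (v : V) : (iB (inr v) : G0 K hK) = iV v := SemidirectProduct.lift_inr _ _ _ _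

/-- the free subgroup of rank two -/
def jj : F2 →* G0 K hK := iB.comp kB

lemma jj_eq (u : F2) : (jj u : G0 K hK) = iF (kap 1 u) := by
  show iB (inl (kI 1 u)) = _
  rw [iB_inl, eI_kI]

lemma iF_lt (v : V) : (iF (of (lt v)) : G0 K hK) = iV v * tt * (iV v)⁻¹ := by
  rw [tt, iV_iF, pF_of, pm_lt, mul_one]

lemma iF_Rl (v : V) (z : Bool) : (iF (Rl (2 * K) v z) : G0 K hK) = 1 := by
  show inl ((Rl (2 * K) v z : FA) : Ga K hK) = 1
  have : ((Rl (2 * K) v z : FA) : Ga K hK) = 1 := by
    rw [QuotientGroup.eq_one_iff, NN_eq]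
    exact Subgroup.subset_normalClosure ⟨v, z, rfl⟩
  rw [this, map_one]

/-- the relation -/
lemma tt_jj (u : F2) : (tt : G0 K hK) ^ 3 * jj u * (tt ^ 3)⁻¹ = jj (phi (2 * K) u) := by
  have h : (MulAut.conj ((tt : G0 K hK) ^ 3)).toMonoidHom.comp jj = jj.comp (phi (2 * K)) := by
    apply FreeGroup.ext_hom
    intro z
    show (tt : G0 K hK) ^ 3 * jj (of z) * (tt ^ 3)⁻¹ = jj (phi (2 * K) (of z))
    rw [phi_of, map_inv, jj_eq, jj_eq, kap_of]
    have h1 := iF_Rl (K := K) (hK := hK) 1 z
    rw [Rl, map_mul, map_mul, map_mul, map_inv, map_pow] at h1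
    exact eq_inv_of_mul_eq_one_left h1
  exact DFunLike.congr_fun h u

section hom

variable {H : Type*} [Group H] (β : B0 →* H) (τ : H)

/-- the homomorphism on the free group -/
def hF : FA →* H :=
  FreeGroup.lift (fun l => match l with
    | Sum.inl x => β (inl (of x))
    | Sum.inr v => β (inr v) * τ * (β (inr v))⁻¹)

lemma hF_inl (x : AB) : hF β τ (of (Sum.inl x)) = β (inl (of x)) := FreeGroup.lift_apply_of

lemma hF_lt (v : V) : hF β τ (of (lt v)) = β (inr v) * τ * (β (inr v))⁻¹ := FreeGroup.lift_apply_of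

lemma hF_eI (x : FI) : hF β τ (eI x) = β (inl x) := by
  have : (hF β τ).comp eI = β.comp inl := by
    apply FreeGroup.ext_hom
    intro l
    rw [MonoidHom.comp_apply, MonoidHom.comp_apply, eI_of, hF_inl]
  exact DFunLike.congr_fun this x

lemma hF_pF (w : V) (g : FA) : hF β τ (pF w g) = β (inr w) * hF β τ g * (β (inr w))⁻¹ := by
  have : (hF β τ).comp (pF w).toMonoidHom = (MulAut.conj (β (inr w))).toMonoidHom.comp (hF β τ) := by
    apply FreeGroup.ext_hom
    intro l
    show hF β τ (pF w (of l)) = β (inr w) * hF β τ (of l) * (β (inr w))⁻¹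
    rw [pF_of]
    rcases l with l | v
    · rw [pm_inl, hF_inl, hF_inl, ← pI_of, SemidirectProduct.inl_aut, map_mul, map_mul, map_inv,
        map_inv]
    · have e : pm w (Sum.inr v) = lt (w * v) := rfl
      have e' : (Sum.inr v : Al) = lt v := rfl
      rw [e, e', hF_lt, hF_lt, map_mul, map_mul]
      group
  exact DFunLike.congr_fun this g

lemma hF_Rl (L : ℤ) (hrel : ∀ z, τ ^ 3 * β (kB (of z)) * (τ ^ 3)⁻¹ * β (kB (hz L z)) = 1) (v : V)
    (z : Bool) : hF β τ (Rl L v z) = 1 := by
  have h1 : hF β τ (Rl L 1 z) = 1 := by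
    rw [Rl, map_mul, map_mul, map_mul, map_inv, map_pow, hF_lt, map_one, map_one, one_mul, inv_one,
      mul_one, ← kap_of, ← eI_kI, ← eI_kI, hF_eI, hF_eI]
    exact hrel z
  have h2 := pF_Rl v 1 z L
  rw [mul_one] at h2
  rw [← h2, hF_pF, h1, mul_one, mul_inv_cancel]

variable (K hK) in
/-- homomorphisms from the group -/
theorem exists_hom (hrel : ∀ z, τ ^ 3 * β (kB (of z)) * (τ ^ 3)⁻¹ * β (kB (hz (2 * K) z)) = 1) :
    ∃ Φ : G0 K hK →* H, (∀ b, Φ (iB b) = β b) ∧ Φ tt = τ := by
  have hN : NN K hK ≤ (hF β τ).ker := by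
    rw [NN_eq]
    apply Subgroup.normalClosure_le_normal
    rintro _ ⟨v, z, rfl⟩
    exact hF_Rl β τ (2 * K) hrel v z
  let f1 : Ga K hK →* H := QuotientGroup.lift _ (hF β τ) hN
  have f1_mk : ∀ g : FA, f1 (g : Ga K hK) = hF β τ g := fun g => rfl
  let Φ : G0 K hK →* H := SemidirectProduct.lift f1 (β.comp inr) (by
    intro w
    apply MonoidHom.ext
    intro q
    obtain ⟨g, rfl⟩ := QuotientGroup.mk_surjective q
    show f1 (pQ K hK w (g : Ga K hK)) = β (inr w) * f1 (g : Ga K hK) * (β (inr w))⁻¹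
    rw [pQ_mk, f1_mk, f1_mk, hF_pF])
  have h1 : ∀ g : FA, Φ (iF g) = hF β τ g := by
    intro g
    exact (SemidirectProduct.lift_inl _ _ _ _).trans (f1_mk g)
  have h2 : ∀ v : V, Φ (iV v) = β (inr v) := by
    intro v
    exact SemidirectProduct.lift_inr _ _ _ _
  refine ⟨Φ, fun b => ?_, ?_⟩
  · have e : b = inl b.left * inr b.right := (SemidirectProduct.inl_left_mul_inr_right b).symm
    rw [e, map_mul, map_mul, map_mul, iB_inl, iB_inr, h1, h2, hF_eI]
  · rw [tt, h1, hF_lt, map_one, map_one, one_mul, inv_one, mul_one]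

end hom

/-! ### the embedding of the vertex group -/

/-- the family of the two factors -/
def Gf (A : Type) : Bool → Type
  | false => A
  | true => B0

instance (A : Type) [Group A] : ∀ b, Group (Gf A b)
  | false => inferInstanceAs (Group A)
  | true => inferInstanceAs (Group B0)

/-- the two homomorphisms -/
def gf {A : Type} [Group A] (i : F2 →* A) : ∀ b, F2 →* Gf A b
  | false => i
  | true => kB

variable (K hK) in
theorem exists_Psi : ∃ (P : Type) (_ : Group P) (Ψ : G0 K hK →* P) (X Y : Subgroup P),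
    Function.Injective (Ψ.comp iB) ∧ (Ψ.comp iB).range ≤ Y ∧ Ψ tt ∈ X ∧ (∀ u, Ψ (jj u) ∈ X) ∧
    ∀ x ∈ X ⊓ Y, ∃ u, x = Ψ (jj u) := by
  obtain ⟨A, _, i, t, hi, ht⟩ := exists_root3 (phi (2 * K)) (phi_injective (hK2 hK))
  have hφ : ∀ b, Function.Injective (gf i b) := by
    intro b
    cases b
    · exact hi
    · exact kB_injective
  let P := Monoid.PushoutI (gf i)
  let oA : A →* P := Monoid.PushoutI.of (φ := gf i) false
  let oB : B0 →* P := Monoid.PushoutI.of (φ := gf i) true
  have hbase : ∀ u, oA (i u) = Monoid.PushoutI.base (gf i) u := fun u =>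
    Monoid.PushoutI.of_apply_eq_base (gf i) false u
  have hbase' : ∀ u, oB (kB u) = Monoid.PushoutI.base (gf i) u := fun u =>
    Monoid.PushoutI.of_apply_eq_base (gf i) true u
  obtain ⟨Ψ, h1, h2⟩ := exists_hom K hK oB (oA t) (by
    intro z
    rw [hbase', hbase', ← hbase, ← hbase, ← map_pow, ← map_inv, ← map_mul, ← map_mul, ht, phi_of,
      ← map_mul, ← map_mul, inv_mul_cancel, map_one, map_one])
  refine ⟨P, inferInstance, Ψ, oA.range, oB.range, ?_, ?_, ?_, ?_, ?_⟩
  · have : Ψ.comp iB = oB := MonoidHom.ext h1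
    rw [this]
    exact Monoid.PushoutI.of_injective hφ true
  · rintro _ ⟨b, rfl⟩
    exact ⟨b, (h1 b).symm⟩
  · exact ⟨t, h2.symm⟩
  · intro u
    refine ⟨i u, ?_⟩
    rw [hbase, ← hbase']
    exact (h1 _).symm
  · intro x hx
    have h3 := Monoid.PushoutI.inf_of_range_eq_base_range hφ (show false ≠ true by decide)
    have h4 : x ∈ (Monoid.PushoutI.base (gf i)).range := by
      rw [← h3]
      exact hx
    obtain ⟨u, rfl⟩ := h4
    exact ⟨u, by rw [← hbase']; exact (h1 _).symm⟩

variable (K hK)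

/-- the vertex group `B` -/
def SB : Subgroup (G0 K hK) := (iB).range

/-- the vertex group `A` -/
def SA : Subgroup (G0 K hK) := Subgroup.zpowers tt ⊔ (jj).range

lemma tt_mem : (tt : G0 K hK) ∈ SA K hK :=
  (le_sup_left : _ ≤ SA K hK) (Subgroup.mem_zpowers _)

lemma jj_mem (u : F2) : (jj u : G0 K hK) ∈ SA K hK :=
  (le_sup_right : _ ≤ SA K hK) ⟨u, rfl⟩

lemma jj_mem' (u : F2) : (jj u : G0 K hK) ∈ SB K hK := ⟨kB u, rfl⟩

theorem iB_injective : Function.Injective (iB : B0 →* G0 K hK) := by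
  obtain ⟨P, _, Ψ, X, Y, h1, -⟩ := exists_Psi K hK
  exact Function.Injective.of_comp (f := Ψ) h1

theorem jj_injective : Function.Injective (jj : F2 →* G0 K hK) :=
  (iB_injective K hK).comp kB_injective

theorem inf_eq : SA K hK ⊓ SB K hK = (jj).range := by
  apply le_antisymm
  · rintro x ⟨hA, b, rfl⟩
    obtain ⟨P, _, Ψ, X, Y, h1, h2, h3, h4, h5⟩ := exists_Psi K hK
    have hX : SA K hK ≤ X.comap Ψ := by
      apply sup_le
      · rw [Subgroup.zpowers_le]
        exact h3
      · rintro _ ⟨u, rfl⟩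
        exact h4 u
    obtain ⟨u, hu⟩ := h5 (Ψ (iB b)) ⟨hX hA, h2 ⟨b, rfl⟩⟩
    refine ⟨u, ?_⟩
    have : b = kB u := h1 hu
    rw [this]
    rfl
  · rintro _ ⟨u, rfl⟩
    exact ⟨jj_mem K hK u, jj_mem' K hK u⟩

theorem closure_gen (S : Subgroup (G0 K hK)) (h1 : tt ∈ S) (h2 : SB K hK ≤ S) : S = ⊤ := by
  have hV : ∀ v : V, iV v ∈ S := fun v => h2 ⟨inr v, iB_inr v⟩
  have hF : ∀ g : FA, iF g ∈ S := by
    intro g
    have : (⊤ : Subgroup FA) ≤ S.comap iF := by
      rw [← FreeGroup.closure_range_of, Subgroup.closure_le]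
      rintro _ ⟨l, rfl⟩
      show iF (of l) ∈ S
      rcases l with l | v
      · exact h2 ⟨inl (of l), by rw [iB_inl, eI_of]⟩
      · show iF (of (lt v)) ∈ S
        rw [iF_lt]
        exact mul_mem (mul_mem (hV v) h1) (inv_mem (hV v))
    exact this (Subgroup.mem_top g)
  rw [eq_top_iff]
  intro g _
  rw [← SemidirectProduct.inl_left_mul_inr_right g]
  obtain ⟨x, hx⟩ := QuotientGroup.mk_surjective g.left
  rw [← hx]
  exact mul_mem (hF x) (hV g.right)

theorem isAmalgam : Pool.Agent.Helper705_SA.IsAmalgam (SA K hK) (SB K hK) := by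
  constructor
  · apply closure_gen
    · exact (le_sup_left : SA K hK ≤ _) (tt_mem K hK)
    · exact le_sup_right
  · intro H _ f g hfg
    let β : B0 →* H := g.comp (iB.rangeRestrict)
    obtain ⟨Φ, h1, h2⟩ := exists_hom K hK β (f ⟨tt, tt_mem K hK⟩) (by
      intro z
      have e : ∀ u, β (kB u) = f ⟨jj u, jj_mem K hK u⟩ := by
        intro u
        exact (hfg (jj u) (jj_mem K hK u) (jj_mem' K hK u)).symm
      rw [e, e, ← map_pow, ← map_inv, ← map_mul, ← map_mul, ← map_mul]
      have : (⟨tt, tt_mem K hK⟩ ^ 3 * ⟨jj (of z), jj_mem K hK (of z)⟩ * (⟨tt, tt_mem K hK⟩ ^ 3)⁻¹ *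
          ⟨jj (hz (2 * K) z), jj_mem K hK (hz (2 * K) z)⟩ : SA K hK) = 1 := by
        apply Subtype.ext
        show tt ^ 3 * jj (of z) * (tt ^ 3)⁻¹ * jj (hz (2 * K) z) = (1 : G0 K hK)
        rw [tt_jj, phi_of, ← map_mul, inv_mul_cancel, map_one]
      rw [this, map_one])
    refine ⟨Φ, ?_, ?_⟩
    · have hA : SA K hK ≤ (Φ.eqLocus Φ) := fun x _ => rfl
      have key : ∀ x (hx : x ∈ SA K hK), Φ x = f ⟨x, hx⟩ := by
        have : (⊤ : Subgroup (SA K hK)) ≤ (Φ.comp (SA K hK).subtype).eqLocus f := by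
          have hcl : (⊤ : Subgroup (SA K hK)) = Subgroup.closure ({⟨tt, tt_mem K hK⟩} ∪
              Set.range (fun u => (⟨jj u, jj_mem K hK u⟩ : SA K hK))) := by
            rw [eq_comm, eq_top_iff]
            rintro ⟨x, hx⟩ _
            have hle : SA K hK ≤ (Subgroup.closure ({⟨tt, tt_mem K hK⟩} ∪
              Set.range (fun u => (⟨jj u, jj_mem K hK u⟩ : SA K hK)))).map (SA K hK).subtype := by
              apply sup_le
              · rw [Subgroup.zpowers_le]
                exact ⟨⟨tt, tt_mem K hK⟩, Subgroup.subset_closure (Or.inl rfl), rfl⟩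
              · rintro _ ⟨u, rfl⟩
                exact ⟨⟨jj u, jj_mem K hK u⟩, Subgroup.subset_closure (Or.inr ⟨u, rfl⟩), rfl⟩
            obtain ⟨y, hy, hyx⟩ := hle hx
            have : y = ⟨x, hx⟩ := Subtype.ext hyx
            rw [← this]
            exact hy
          rw [hcl, Subgroup.closure_le]
          rintro _ (rfl | ⟨u, rfl⟩)
          · exact h2
          · show Φ (jj u) = f ⟨jj u, jj_mem K hK u⟩
            rw [hfg _ (jj_mem K hK u) (jj_mem' K hK u)]
            exact h1 (kB u)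
        intro x hx
        exact this (Subgroup.mem_top (⟨x, hx⟩ : SA K hK))
      exact fun a => key a.1 a.2
    · rintro ⟨_, b, rfl⟩
      exact h1 b

/-- malnormality in the vertex group `B` -/
theorem malnormalG (g : G0 K hK) (hg : g ∈ SB K hK) (u u' : F2) (hu : u ≠ 1)
    (h : (jj u : G0 K hK) = g * jj u' * g⁻¹) : g ∈ (jj : F2 →* G0 K hK).range := by
  obtain ⟨b, rfl⟩ := hg
  have h1 : kB u = b * kB u' * b⁻¹ := by
    apply iB_injective K hK
    rw [map_mul, map_mul, map_inv]
    exact h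
  obtain ⟨w, hw⟩ := malnormalB b u u' hu h1
  exact ⟨w, by rw [← hw]; rfl⟩

end grp

end Pool.Agent.U627.QC
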