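import Pool.Agent.U627.QC.Cone
import Pool.Agent.H322R3.HypDefs

/-!
# Hyperbolicity of small cancellation groups and of their finite extensions
-/

set_option autoImplicit false

namespace Pool.Agent.U627.QC

open Pool.Agent.TH54.BU Pool.Agent.H17R2 Pool.Agent.Y33.SM
open scoped Pointwise

/-- There is a constant `K0` such that for all small cancellation families `W` with constant at
least `K0` the quotient `FreeGroup α ⧸ N` has a hyperbolic geodesic length, the quotient of the word
length of the generating set `gs W`, with finite balls. -/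
theorem exists_quoGH : ∃ K0 : ℤ, ∀ {α : Type} [DecidableEq α] [Finite α] (W : Words α), K0 ≤ W.K →
    W.B.Finite → ∃ (E : GH (FreeGroup α)) (Q : GH (FreeGroup α ⧸ W.toFam.N)),
      (∀ g, E.len g = wl (gs W) g) ∧ (∀ q, Q.len q = E.qoLen W.toFam.N q) ∧
      {q | Q.len q ≤ 1}.Finite := by
  obtain ⟨R, hR⟩ := rb2
  refine ⟨4 * ((2 * R + 10 : ℕ) : ℤ) + 100, fun {α} _ _ W hK hfin => ?_⟩
  obtain ⟨E, hE1, hE2⟩ := hR W
  have hJP := rb3 R W E hE2
  refine ⟨E, quoGH W E (2 * R + 10) hK (fun g hg => (hE2.one g).2 hg) hJP, hE1, fun q => rfl, ?_⟩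
  refine (fin_one hfin).subset ?_
  intro q hq
  obtain ⟨g, hg, hl⟩ := E.qoLen_rep W.toFam.N q
  refine ⟨g, hg, (hE2.one g).1 ?_⟩
  rw [hl]
  exact hq

section ext

variable {Γ V : Type} [Group Γ] [Group V] (ψ : V →* MulAut Γ) (Q : GH Γ)

/-- The generating set of the extension. -/
def SE : Set (Γ ⋊[ψ] V) := {g | Q.len g.left ≤ 1}

variable (hQ : ∀ v q, Q.len (ψ v q) = Q.len q)

lemma SE_finite [Finite V] (hfin : {q | Q.len q ≤ 1}.Finite) : (SE ψ Q).Finite := by
  have h : (SE ψ Q) ⊆ (fun p : Γ × V => (⟨p.1, p.2⟩ : Γ ⋊[ψ] V)) '' ({q | Q.len q ≤ 1} ×ˢ Set.univ) := by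
    intro g hg
    exact ⟨(g.left, g.right), ⟨hg, trivial⟩, rfl⟩
  exact ((hfin.prod Set.finite_univ).image _).subset h

include hQ in
lemma len_left_mul (g h : Γ ⋊[ψ] V) : Q.len (g * h).left ≤ Q.len g.left + Q.len h.left := by
  rw [SemidirectProduct.mul_left]
  have := Q.len_mul g.left (ψ g.right h.left)
  rw [hQ] at this
  exact this

include hQ in
lemma len_left_inv (g : Γ ⋊[ψ] V) : Q.len (g⁻¹).left = Q.len g.left := by
  rw [SemidirectProduct.inv_left, hQ, Q.len_inv]

include hQ in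
lemma len_le_prod (l : List (Γ ⋊[ψ] V)) (hl : ∀ x ∈ l, x ∈ SE ψ Q ∨ x⁻¹ ∈ SE ψ Q) :
    Q.len l.prod.left ≤ l.length := by
  induction l with
  | nil => simp [Q.len_one]
  | cons a l ih =>
    have h1 := ih (fun x hx => hl x (List.mem_cons_of_mem _ hx))
    have h2 := len_left_mul ψ Q hQ a l.prod
    have h3 : Q.len a.left ≤ 1 := by
      rcases hl a List.mem_cons_self with h | h
      · exact h
      · have h' : Q.len (a⁻¹).left ≤ 1 := h
        rwa [len_left_inv ψ Q hQ] at h'
    rw [List.prod_cons, List.length_cons]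
    omega

lemma exists_word : ∀ (n : ℕ) (g : Γ ⋊[ψ] V), Q.len g.left ≤ n →
    ∃ l : List (Γ ⋊[ψ] V), l.length ≤ n + 1 ∧ (∀ x ∈ l, x ∈ SE ψ Q ∨ x⁻¹ ∈ SE ψ Q) ∧
      l.prod = g := by
  intro n
  induction n with
  | zero =>
    intro g hg
    refine ⟨[g], by simp, fun x hx => ?_, by simp⟩
    rw [List.mem_singleton] at hx
    subst hx
    left
    show Q.len x.left ≤ 1
    omega
  | succ n ih =>
    intro g hg
    by_cases h1 : Q.len g.left ≤ 1
    · refine ⟨[g], by simp, fun x hx => ?_, by simp⟩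
      rw [List.mem_singleton] at hx
      subst hx
      exact Or.inl h1
    · obtain ⟨h, h2, h3⟩ := Q.step g.left 1 (by omega)
      obtain ⟨l, l1, l2, l3⟩ := ih ⟨h⁻¹ * g.left, g.right⟩ (by
        show Q.len (h⁻¹ * g.left) ≤ n
        omega)
      refine ⟨⟨h, 1⟩ :: l, by simp only [List.length_cons]; omega, fun x hx => ?_, ?_⟩
      · rcases List.mem_cons.1 hx with rfl | hx
        · left
          show Q.len h ≤ 1
          omega
        · exact l2 x hx
      · rw [List.prod_cons, l3]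
        apply SemidirectProduct.ext
        · rw [SemidirectProduct.mul_left, map_one]
          show h * (h⁻¹ * g.left) = g.left
          rw [mul_inv_cancel_left]
        · rw [SemidirectProduct.mul_right]
          show 1 * g.right = g.right
          rw [one_mul]

lemma SE_closure : Subgroup.closure (SE ψ Q) = ⊤ := by
  rw [eq_top_iff]
  intro g _
  obtain ⟨l, -, l2, rfl⟩ := exists_word ψ Q _ g le_rfl
  apply Subgroup.list_prod_mem
  intro x hx
  rcases l2 x hx with h | h
  · exact Subgroup.subset_closure h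
  · exact (Subgroup.inv_mem_iff _).1 (Subgroup.subset_closure h)

open Pool.Agent.H322R3.Hyp

include hQ in
lemma wlen_ge (g : Γ ⋊[ψ] V) : Q.len g.left ≤ wlen (SE ψ Q) g := by
  obtain ⟨l, h1, h2, h3⟩ := wlen_spec (SE_closure ψ Q) g
  rw [← h1, ← h3]
  exact len_le_prod ψ Q hQ l h2

lemma wlen_le' (g : Γ ⋊[ψ] V) : wlen (SE ψ Q) g ≤ Q.len g.left + 1 := by
  obtain ⟨l, l1, l2, rfl⟩ := exists_word ψ Q _ g le_rfl
  exact (wlen_le l l2).trans l1

include hQ in
theorem hyp_ext : IsHyperbolic (SE ψ Q) := by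
  have hd : ∀ x y : Γ ⋊[ψ] V, Q.len (x⁻¹ * y).left = Q.d x.left y.left := by
    intro x y
    rw [SemidirectProduct.mul_left, SemidirectProduct.inv_left, SemidirectProduct.inv_right,
      ← map_mul, hQ]
    rfl
  have lo : ∀ x y : Γ ⋊[ψ] V, (Q.d x.left y.left : ℝ) ≤ wdist (SE ψ Q) x y := by
    intro x y
    unfold wdist
    have := wlen_ge ψ Q hQ (x⁻¹ * y)
    rw [hd] at this
    exact_mod_cast this
  have hi : ∀ x y : Γ ⋊[ψ] V, wdist (SE ψ Q) x y ≤ (Q.d x.left y.left : ℝ) + 1 := by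
    intro x y
    unfold wdist
    have := wlen_le' ψ Q (x⁻¹ * y)
    rw [hd] at this
    exact_mod_cast this
  refine ⟨Q.D + 4, fun w x y z => ?_⟩
  have h := Q.fp x.left z.left y.left w.left
  have h' : (Q.d x.left z.left : ℝ) + Q.d y.left w.left ≤
      max ((Q.d x.left y.left : ℝ) + Q.d z.left w.left)
        ((Q.d x.left w.left : ℝ) + Q.d z.left y.left) + Q.D := by exact_mod_cast h
  have a1 := lo x w
  have a2 := lo y w
  have a3 := lo z w
  have a4 := lo x y
  have a5 := lo y z
  have a6 := lo x z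
  have b1 := hi x w
  have b2 := hi y w
  have b3 := hi z w
  have b4 := hi x y
  have b5 := hi y z
  have b6 := hi x z
  have c1 : (Q.d z.left y.left : ℝ) = Q.d y.left z.left := by rw [Q.d_comm]
  have hD : (0 : ℝ) ≤ Q.D := Nat.cast_nonneg _
  unfold gprod
  rcases max_cases ((Q.d x.left y.left : ℝ) + Q.d z.left w.left)
    ((Q.d x.left w.left : ℝ) + Q.d z.left y.left) with hm | hm
  · rw [hm.1] at h'
    refine (sub_le_sub_right (min_le_left _ _) _).trans ?_
    linarith
  · rw [hm.1] at h'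
    refine (sub_le_sub_right (min_le_right _ _) _).trans ?_
    linarith

end ext

end Pool.Agent.U627.QC
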