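import Pool.Agent.U627.QC.TreeG
import Pool.Agent.U627.QC.Grow

/-!
# A non-elementary acylindrical action not dominated by a quasi-convex splitting
-/

set_option autoImplicit false

namespace Pool.Agent.U627.QC

open SimpleGraph Pool.Agent.Helper270.Tree Pool.Agent.Helper705_SA
open Pool.Agent.Y893.RN Pool.Agent.H322R3.Hyp
open FreeGroup (of mk)
open SemidirectProduct (inl inr)

section defs

variable {G : Type} [Group G] {V : Type} [MulAction G V] (T : SimpleGraph V)

/-- `G` is a Gromov hyperbolic group. -/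
def Hyperbolic (G : Type) [Group G] : Prop :=
  ∃ S : Set G, S.Finite ∧ Subgroup.closure S = ⊤ ∧ IsHyperbolic S

variable (G) in
/-- The action is `(k, C)`-acylindrical: the pointwise stabiliser of every edge path (without
backtracking) of length at least `k` has at most `C` elements. -/
def AcylindricalWith (k C : ℕ) : Prop :=
  ∀ (u v : V) (p : T.Walk u v), p.IsPath → k ≤ p.length →
    {g : G | ∀ w ∈ p.support, g • w = w}.Finite ∧ {g : G | ∀ w ∈ p.support, g • w = w}.ncard ≤ C

variable (G) in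
/-- The action is acylindrical. -/
def Acylindrical : Prop := ∃ k C : ℕ, 0 < C ∧ AcylindricalWith G T k C

/-- Two rays (injective edge paths) have the same end if they eventually coincide. -/
def SameEnd (r r' : ℕ → V) : Prop := ∃ a b : ℕ, ∀ n, r (a + n) = r' (b + n)

variable (G) in
/-- The action is non-elementary: there are two hyperbolic elements `g`, `h` with axes `L`, `M`
(bi-infinite edge paths without backtracking along which `g`, `h` act as translations by `l > 0`,
`m > 0`) which have no common end. -/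
def NonElementary : Prop :=
  ∃ (g h : G) (L M : ℤ → V) (l m : ℕ), IsAxis T g L l ∧ IsAxis T h M m ∧
    ∀ ε ε' : ℤˣ, ¬ SameEnd (fun n : ℕ => L (ε * n)) (fun n : ℕ => M (ε' * n))

/-- `H` is quasi-convex in `G`. -/
def QuasiConvex (H : Subgroup G) : Prop :=
  ∃ S : Set G, S.Finite ∧ Subgroup.closure S = ⊤ ∧ ∃ R : ℕ, QConv S R H

variable (G) in
/-- All edge stabilisers are quasi-convex. -/
def QCSplitting : Prop :=
  ∀ u v : V, T.Adj u v → QuasiConvex (MulAction.stabilizer G u ⊓ MulAction.stabilizer G v)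

variable (G) in
/-- The action of `G` on `T'` dominates the action on `T`: there is a surjective `G`-equivariant
graph morphism `T' → T` (which is even allowed to collapse edges). -/
def Dominates {V' : Type} [MulAction G V'] (T' : SimpleGraph V') : Prop :=
  ∃ f : V' → V, (∀ (g : G) (x : V'), f (g • x) = g • f x) ∧ Function.Surjective f ∧
    ∀ x y, T'.Adj x y → f x = f y ∨ T.Adj (f x) (f y)

end defs

section main

variable (K : ℤ) (hK : 20 ≤ K)

lemma iV_injective : Function.Injective (iV : V → G0 K hK) := SemidirectProduct.inr_injective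

lemma iV_mem (v : V) : (iV v : G0 K hK) ∈ SB K hK := ⟨inr v, iB_inr v⟩

/-- elements of order two are not in the edge group -/
lemma torsion {x : G0 K hK} (hx : x * x = 1) (hA : x ∈ SA K hK) (hB : x ∈ SB K hK) : x = 1 := by
  have h : x ∈ (jj : F2 →* G0 K hK).range := by
    rw [← inf_eq]
    exact ⟨hA, hB⟩
  obtain ⟨u, rfl⟩ := h
  have h2 : u ^ 2 = 1 := by
    apply jj_injective K hK
    rw [map_pow, map_one, pow_two]
    exact hx
  have h3 : u = 1 := IsMulTorsionFree.pow_left_injective (M := F2) (n := 2) (by norm_num)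
    (show u ^ 2 = 1 ^ 2 by rw [h2, one_pow])
  rw [h3, map_one]

lemma iV_sq (v : V) : (iV v : G0 K hK) * iV v = 1 := by
  rw [← map_mul]
  have : v * v = 1 := by
    revert v
    decide
  rw [this, map_one]

lemma iV_not_mem {v : V} (hv : v ≠ 1) : (iV v : G0 K hK) ∉ SA K hK := by
  intro h
  have := torsion K hK (iV_sq K hK v) h (iV_mem K hK v)
  apply hv
  apply iV_injective K hK
  rw [this, map_one]

lemma iV_conj {v : V} (hv : v ≠ 1) (b : G0 K hK) (hb : b ∈ SB K hK) :
    b⁻¹ * iV v * b ∉ SA K hK := by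
  intro h
  have h1 : b⁻¹ * iV v * b ∈ SB K hK :=
    (SB K hK).mul_mem ((SB K hK).mul_mem ((SB K hK).inv_mem hb) (iV_mem K hK v)) hb
  have h2 : (b⁻¹ * iV v * b) * (b⁻¹ * iV v * b) = 1 := by
    calc (b⁻¹ * iV v * b) * (b⁻¹ * iV v * b) = b⁻¹ * (iV v * iV v) * b := by group
      _ = 1 := by rw [iV_sq]; group
  have h3 := torsion K hK h2 h h1
  apply hv
  apply iV_injective K hK
  have : (iV v : G0 K hK) = b * (b⁻¹ * iV v * b) * b⁻¹ := by group
  rw [this, h3, map_one]
  group

lemma fix_iV {v : V} (hv : v ≠ 1) (x : (G0 K hK ⧸ SA K hK) ⊕ (G0 K hK ⧸ SB K hK))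
    (hx : (iV v : G0 K hK) • x = x) : x = vB (SA K hK) (SB K hK) 1 :=
  fix_unique _ _ (isAmalgam K hK) _ (iV_mem K hK v) (fun b hb => iV_conj K hK hv b hb) x hx

lemma rho_of (z : Bool) : rho (of z) = Multiplicative.ofAdd 1 := FreeGroup.lift_apply_of

lemma tt_not_mem : (tt : G0 K hK) ^ 3 ∉ SB K hK := by
  intro h
  have h1 : (tt : G0 K hK) ^ 3 ∈ (jj : F2 →* G0 K hK).range := by
    rw [← inf_eq]
    exact ⟨(SA K hK).pow_mem (tt_mem K hK) 3, h⟩
  obtain ⟨w, hw⟩ := h1
  have h2 := tt_jj (K := K) (hK := hK) (of false)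
  rw [← hw, ← map_inv, ← map_mul, ← map_mul] at h2
  have h3 := jj_injective K hK h2
  have h4 := rho_phi (hK2 hK) (of false)
  rw [← h3, map_mul, map_mul, map_inv, mul_comm (rho w), mul_assoc, mul_inv_cancel, mul_one, rho_of,
    ← ofAdd_zsmul] at h4
  have h5 := Multiplicative.ofAdd.injective h4
  have h6 := Lt3 (hK2 hK)
  have h7 : M (2 * K) = 32 * (2 * K) + 10 := rfl
  rw [smul_eq_mul, mul_one] at h5
  omega

theorem nonElementary : NonElementary (G0 K hK) (cosetGraph (SA K hK) (SB K hK)) := by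
  have hA := isAmalgam K hK
  have hact := coset_treeAct _ _ hA
  let σ : G0 K hK := iV (1, -1)
  let τ : G0 K hK := iV (-1, 1)
  let s : G0 K hK := tt ^ 3
  have hσ : σ * σ = 1 := iV_sq K hK _
  have hσA : σ ∉ SA K hK := iV_not_mem K hK (by decide)
  have hσB : σ ∈ SB K hK := iV_mem K hK _
  have hsA : s ∈ SA K hK := (SA K hK).pow_mem (tt_mem K hK) 3
  have hsB : s ∉ SB K hK := tt_not_mem K hK
  have hτB : τ ∈ SB K hK := iV_mem K hK _
  have h1 : τ ∉ SA K hK := iV_not_mem K hK (by decide)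
  have h2 : τ * σ ∉ SA K hK := by
    have : τ * σ = iV ((-1, 1) * (1, -1)) := (map_mul _ _ _).symm
    rw [this]
    exact iV_not_mem K hK (by decide)
  have h3 : σ⁻¹ * τ ∉ SA K hK := by
    have : σ⁻¹ * τ = iV ((1, -1)⁻¹ * (-1, 1)) := by rw [map_mul, map_inv]
    rw [this]
    exact iV_not_mem K hK (by decide)
  have h4 : σ⁻¹ * (τ * σ) ∉ SA K hK := by
    have : σ⁻¹ * (τ * σ) = iV ((1, -1)⁻¹ * ((-1, 1) * (1, -1))) := by
      rw [map_mul, map_mul, map_inv]
    rw [this]
    exact iV_not_mem K hK (by decide)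
  have hax := ax_axis (SA K hK) (SB K hK) σ s hσ hσA hsA hsB hσB hA
  have hmeet := ax_meet (SA K hK) (SB K hK) σ s hσ hσA hsA hsB hσB hA τ hτB h1 h2 h3 h4
  refine ⟨gh σ s, τ * gh σ s * τ⁻¹, ax (SA K hK) (SB K hK) σ s,
    fun i => τ • ax (SA K hK) (SB K hK) σ s i, 4, 4, hax, ?_, ?_⟩
  · refine ⟨⟨fun i => hact.adj τ _ _ (hax.line.adj i), fun i hc => ?_⟩, by norm_num, fun i => ?_⟩
    · exact hax.line.nb i (smul_left_cancel τ hc)
    · show (τ * gh σ s * τ⁻¹) • τ • ax (SA K hK) (SB K hK) σ s i = _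
      rw [← mul_smul, inv_mul_cancel_right, mul_smul, hax.smul]
  · rintro ε ε' ⟨a, b, hab⟩
    have e0 := hmeet _ _ (hab 0)
    have e1 := hmeet _ _ (hab 1)
    have hε : (ε : ℤ) ≠ 0 := ε.ne_zero
    have : (ε : ℤ) * ((a + 0 : ℕ) : ℤ) = ε * ((a + 1 : ℕ) : ℤ) := by rw [e0, e1]
    have h5 := mul_left_cancel₀ hε this
    push_cast at h5
    omega

lemma length_eq_dist {V : Type} {T : SimpleGraph V} (hT : T.IsTree) {u v : V} (p : T.Walk u v)
    (hp : p.IsPath) : p.length = T.dist u v := by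
  obtain ⟨q, hq⟩ := hT.connected.exists_walk_length_eq_dist u v
  have h1 := Walk.isPath_of_length_eq_dist q hq
  rw [(hT.existsUnique_path u v).unique hp h1, hq]

theorem acylindrical : Acylindrical (G0 K hK) (cosetGraph (SA K hK) (SB K hK)) := by
  have hA := isAmalgam K hK
  have hact := coset_treeAct _ _ hA
  refine ⟨3, 1, one_pos, ?_⟩
  intro u v p hp hl
  rw [length_eq_dist hact.isTree p hp] at hl
  have key : {g : G0 K hK | ∀ w ∈ p.support, g • w = w} ⊆ {1} := by
    intro g hg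
    refine stab_trivial _ _ hA ?_ hl g (hg u p.start_mem_support) (hg v p.end_mem_support)
    intro b hb c hc c' hc' hne hcc
    rw [inf_eq] at hc hc'
    obtain ⟨w, rfl⟩ := hc
    obtain ⟨w', rfl⟩ := hc'
    have h1 := malnormalG K hK b hb w w' (by
      rintro rfl
      exact hne (map_one _)) hcc
    obtain ⟨y, rfl⟩ := h1
    exact jj_mem K hK y
  refine ⟨(Set.finite_singleton _).subset key, ?_⟩
  have := Set.ncard_le_ncard key (Set.finite_singleton _)
  rwa [Set.ncard_singleton] at this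

/-- generators of the vertex group `B` -/
lemma SB_closure : SB K hK = Subgroup.closure
    (Set.range (iV : V → G0 K hK) ∪ (Set.range (fun i => iF (of (la i))) ∪
      Set.range (fun j => iF (of (lb j))))) := by
  apply le_antisymm
  · rintro _ ⟨b, rfl⟩
    set C := Subgroup.closure (Set.range (iV : V → G0 K hK) ∪ (Set.range (fun i => iF (of (la i))) ∪
      Set.range (fun j => iF (of (lb j))))) with hC
    rw [← SemidirectProduct.inl_left_mul_inr_right b, map_mul, iB_inl, iB_inr]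
    refine C.mul_mem ?_ (Subgroup.subset_closure (Or.inl ⟨_, rfl⟩))
    have : (⊤ : Subgroup FI) ≤ C.comap (iF.comp eI) := by
      rw [← FreeGroup.closure_range_of, Subgroup.closure_le]
      rintro _ ⟨l, rfl⟩
      show iF (eI (of l)) ∈ C
      rw [eI_of]
      rcases l with i | j
      · exact Subgroup.subset_closure (Or.inr (Or.inl ⟨i, rfl⟩))
      · exact Subgroup.subset_closure (Or.inr (Or.inr ⟨j, rfl⟩))
    exact this (Subgroup.mem_top b.left)
  · rw [Subgroup.closure_le]
    rintro _ (⟨v, rfl⟩ | ⟨i, rfl⟩ | ⟨j, rfl⟩)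
    · exact iV_mem K hK v
    · exact ⟨inl (of (Sum.inl i)), by rw [iB_inl, eI_of]; rfl⟩
    · exact ⟨inl (of (Sum.inr j)), by rw [iB_inl, eI_of]; rfl⟩

lemma jj_iter (n : ℕ) (u : F2) : (jj ((phi (2 * K))^[n] u) : G0 K hK) =
    (tt ^ 3) ^ n * jj u * ((tt ^ 3) ^ n)⁻¹ := by
  induction n generalizing u with
  | zero => simp
  | succ n ih =>
    rw [Function.iterate_succ_apply, ih, ← tt_jj, pow_succ]
    group

include hK in
lemma rho_iter (n : ℕ) (u : F2) : (rho ((phi (2 * K))^[n] u)).toAdd =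
    (-(Lt (2 * K) - 3)) ^ n * (rho u).toAdd := by
  induction n generalizing u with
  | zero => simp
  | succ n ih =>
    rw [Function.iterate_succ_apply, ih, rho_phi (hK2 hK), toAdd_zpow, smul_eq_mul, pow_succ]
    ring

/-- A subgroup between `t³ C t⁻³` and `C` is not quasi-convex. -/
theorem not_quasiConvex (E : Subgroup (G0 K hK)) (h1 : E ≤ (jj : F2 →* G0 K hK).range)
    (h2 : ∀ u, jj (phi (2 * K) u) ∈ E) : ¬ QuasiConvex E := by
  rintro ⟨S, hfin, hS, R, hQ⟩
  let e : F2 ≃* (jj : F2 →* G0 K hK).range := MonoidHom.ofInjective (jj_injective K hK)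
  let f : E →* Multiplicative ℤ := rho.comp (e.symm.toMonoidHom.comp (Subgroup.inclusion h1))
  have hf : ∀ (u : F2) (hu : jj u ∈ E), f ⟨jj u, hu⟩ = rho u := by
    intro u hu
    show rho (e.symm ⟨jj u, h1 hu⟩) = rho u
    congr 1
    rw [MulEquiv.symm_apply_eq]
    rfl
  obtain ⟨Mb, hM⟩ := linear_bound hS hfin hQ f
  set c1 := wlen S ((tt : G0 K hK) ^ 3) with hc1
  set c2 := wlen S (jj (of false) : G0 K hK) with hc2
  have hw : ∀ n : ℕ, wlen S (((tt : G0 K hK) ^ 3) ^ n) ≤ n * c1 := by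
    intro n
    induction n with
    | zero => rw [pow_zero, wlen_one]; omega
    | succ n ih =>
      have := wlen_mul_le hS (((tt : G0 K hK) ^ 3) ^ n) (tt ^ 3)
      rw [← pow_succ] at this
      have e1 : (n + 1) * c1 = n * c1 + c1 := by ring
      omega
  have hLt := Lt3 (hK2 hK)
  have hMd : M (2 * K) = 32 * (2 * K) + 10 := rfl
  have key : ∀ n : ℕ, 1 ≤ n → (n * n : ℕ) ≤ Mb * (2 * (n * c1) + c2 + 1) := by
    intro n hn
    obtain ⟨m, rfl⟩ : ∃ m, n = m + 1 := ⟨n - 1, by omega⟩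
    have hmem : (jj ((phi (2 * K))^[m + 1] (of false)) : G0 K hK) ∈ E := by
      rw [Function.iterate_succ_apply']
      exact h2 _
    have h3 := hM ⟨_, hmem⟩
    rw [hf] at h3
    have h4 : wlen S (jj ((phi (2 * K))^[m + 1] (of false)) : G0 K hK) ≤
        2 * ((m + 1) * c1) + c2 := by
      rw [jj_iter]
      have a1 := wlen_mul_le hS (((tt : G0 K hK) ^ 3) ^ (m + 1) * jj (of false))
        ((((tt : G0 K hK) ^ 3) ^ (m + 1))⁻¹)
      have a2 := wlen_mul_le hS (((tt : G0 K hK) ^ 3) ^ (m + 1)) (jj (of false))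
      rw [wlen_inv hS] at a1
      have a3 := hw (m + 1)
      omega
    have h5 : (m + 1) * (m + 1) ≤ (rho ((phi (2 * K))^[m + 1] (of false))).toAdd.natAbs := by
      rw [rho_iter K hK, rho_of, toAdd_ofAdd, mul_one, Int.natAbs_pow]
      have b1 : 4 ≤ (-(Lt (2 * K) - 3)).natAbs := by omega
      have b2 : m + 1 ≤ 2 ^ (m + 1) := Nat.lt_two_pow_self.le
      calc (m + 1) * (m + 1) ≤ 2 ^ (m + 1) * 2 ^ (m + 1) := Nat.mul_le_mul b2 b2
        _ = 4 ^ (m + 1) := by rw [← mul_pow]; norm_num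
        _ ≤ _ := Nat.pow_le_pow_left b1 _
    refine h5.trans (h3.trans ?_)
    apply Nat.mul_le_mul_left
    have h6 : wlen S (((⟨jj ((phi (2 * K))^[m + 1] (of false)), hmem⟩ : E) : G0 K hK)) ≤
        2 * ((m + 1) * c1) + c2 := h4
    omega
  -- contradiction
  have h7 := key (Mb * (2 * c1 + c2 + 1) + 1) (by omega)
  set N := Mb * (2 * c1 + c2 + 1) + 1 with hN
  have h8 : Mb * (2 * (N * c1) + c2 + 1) ≤ N * (Mb * (2 * c1 + c2 + 1)) := by
    have hN1 : 1 ≤ N := by omega
    calc Mb * (2 * (N * c1) + c2 + 1) ≤ Mb * (N * (2 * c1 + c2 + 1)) := by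
          apply Nat.mul_le_mul_left
          nlinarith
      _ = N * (Mb * (2 * c1 + c2 + 1)) := by ring
  have h9 : N * N ≤ N * (Mb * (2 * c1 + c2 + 1)) := h7.trans h8
  have h10 : N ≤ Mb * (2 * c1 + c2 + 1) := Nat.le_of_mul_le_mul_left h9 (by omega)
  omega

theorem not_dominated (V' : Type) [MulAction (G0 K hK) V'] (T' : SimpleGraph V')
    (h' : TreeAct (G0 K hK) T')
    (hdom : Dominates (G0 K hK) (cosetGraph (SA K hK) (SB K hK)) T') : ¬ QCSplitting (G0 K hK) T' := by
  intro hqc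
  obtain ⟨f, hf, -, hadjf⟩ := hdom
  have hA := isAmalgam K hK
  have hact := coset_treeAct _ _ hA
  set wA := vA (SA K hK) (SB K hK) 1 with hwA
  set wB := vB (SA K hK) (SB K hK) 1 with hwB
  have hstB : ∀ g : G0 K hK, g • wB = wB ↔ g ∈ SB K hK := by
    intro g
    rw [hwB, fix_vB]
    simp
  have hstA : ∀ g : G0 K hK, g • wA = wA ↔ g ∈ SA K hK := by
    intro g
    rw [hwA, fix_vA]
    simp
  -- a vertex fixed by the finite subgroup
  obtain ⟨v0, hv0⟩ : ∃ v0 : V', ∀ v : V, (iV v : G0 K hK) • v0 = v0 := by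
    let _ : MulAction V V' := MulAction.compHom V' (iV : V →* G0 K hK)
    have hV : TreeAct V T' := ⟨h'.isTree, fun g => h'.adj (iV g), fun g => h'.noInv (iV g)⟩
    exact exists_fixed_of_finite hV
  have hσ : ∀ x, (iV (1, -1) : G0 K hK) • x = x → x = wB := fix_iV K hK (by decide)
  have hτ : ∀ x, (iV (-1, 1) : G0 K hK) • x = x → x = wB := fix_iV K hK (by decide)
  have hf0 : f v0 = wB := by
    apply hσ
    rw [← hf, hv0]
  have hP : ∀ b : G0 K hK, b • wB = wB → PP T' f wB v0 (b • v0) := by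
    intro b hb
    rw [hstB, SB_closure] at hb
    refine PP_closure h' hf v0 hf0 _ ?_ ?_ b hb
    · rintro _ (⟨v, rfl⟩ | ⟨i, rfl⟩ | ⟨j, rfl⟩)
      · rw [hv0]
        intro x hx
        rw [SimpleGraph.dist_self] at hx
        rw [← h'.isTree.connected.dist_eq_zero_iff.1 (show T'.dist v0 x = 0 by omega)]
        exact hf0
      · refine PP_of_commute h' hf v0 (iV (1, -1)) _ (hv0 _) hσ ?_
        show (iV (1, -1) : G0 K hK) * iF (of (la i)) = iF (of (la i)) * iV (1, -1)
        have := iV_iF (K := K) (hK := hK) (1, -1) (of (la i))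
        rw [pF_of, pm_la] at this
        rw [mul_inv_eq_iff_eq_mul] at this
        rw [this]
        simp
      · refine PP_of_commute h' hf v0 (iV (-1, 1)) _ (hv0 _) hτ ?_
        show (iV (-1, 1) : G0 K hK) * iF (of (lb j)) = iF (of (lb j)) * iV (-1, 1)
        have := iV_iF (K := K) (hK := hK) (-1, 1) (of (lb j))
        rw [pF_of, pm_lb] at this
        rw [mul_inv_eq_iff_eq_mul] at this
        rw [this]
        simp
    · intro g hg
      rw [hstB, SB_closure]
      exact Subgroup.subset_closure hg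
  obtain ⟨p, q, hpq, hp, hq, hE⟩ := exists_edge h' hact hf hadjf wA wB (adj_AB _ _ 1).symm (tt ^ 3)
    ((hstA _).2 ((SA K hK).pow_mem (tt_mem K hK) 3)) (fun h => tt_not_mem K hK ((hstB _).1 h)) v0 hP
  refine not_quasiConvex K hK _ ?_ ?_ (hqc p q hpq)
  · rintro g ⟨h1, h2⟩
    rw [← inf_eq]
    constructor
    · show g ∈ SA K hK
      have h3 : g • q = q := h2
      rw [← hstA, ← hq, ← hf, h3]
    · show g ∈ SB K hK
      have h3 : g • p = p := h1
      rw [← hstB, ← hp, ← hf, h3]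
  · intro u
    have h3 : (jj (phi (2 * K) u) : G0 K hK) • wB = wB := (hstB _).2 (jj_mem' K hK _)
    have h4 : ((tt ^ 3)⁻¹ * jj (phi (2 * K) u) * tt ^ 3 : G0 K hK) • wB = wB := by
      rw [hstB, ← tt_jj]
      have : ((tt : G0 K hK) ^ 3)⁻¹ * (tt ^ 3 * jj u * (tt ^ 3)⁻¹) * tt ^ 3 = jj u := by group
      rw [this]
      exact jj_mem' K hK u
    exact hE _ h3 h4

end main

/-- **Main theorem.** -/
theorem main_thm : ∃ (G : Type) (_ : Group G) (V : Type) (_ : MulAction G V) (T : SimpleGraph V),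
    Hyperbolic G ∧ TreeAct G T ∧ Acylindrical G T ∧ NonElementary G T ∧
      ∀ (V' : Type) (_ : MulAction G V') (T' : SimpleGraph V'), TreeAct G T' →
        Dominates G T T' → ¬ QCSplitting G T' := by
  obtain ⟨K, hK, S, h1, h2, h3⟩ := exists_hyp
  refine ⟨G0 K hK, inferInstance, _, inferInstance, cosetGraph (SA K hK) (SB K hK), ⟨S, h1, h2, h3⟩,
    coset_treeAct _ _ (isAmalgam K hK), acylindrical K hK, nonElementary K hK, ?_⟩
  intro V' _ T' h' hdom
  exact not_dominated K hK V' T' h' hdom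

end Pool.Agent.U627.QC
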