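import Pool.Agent.U627.QC.WordsX

/-!
# The relators, and the endomorphism of the free group of rank two
-/

set_option autoImplicit false

namespace Pool.Agent.U627.QC

open Pool.Agent.H17R2 Pool.Agent.Y893.RN
open FreeGroup (of mk)

/-- the free group of rank two -/
abbrev F2 : Type := FreeGroup Bool

/-- the free group on the letters -/
abbrev FA : Type := FreeGroup Al

/-- the words `x_v` and `y_v` -/
def xy (v : V) (z : Bool) : FA :=
  if z then of (la (-v.1)) * of (lb (-v.2)) * of (lb (-v.2))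
  else of (la v.1) * of (la v.1) * of (lb v.2)

/-- the homomorphism given by `x_v`, `y_v` -/
def kap (v : V) : F2 →* FA := FreeGroup.lift (xy v)

/-- the substitution -/
def ev (v : V) : FreeGroup (Fin 5) →* FA :=
  FreeGroup.lift (fun i => if i = 0 then of (lt v) ^ 3 else if i = 3 then xy v false else xy v true)

/-- the letters of the level one words -/
def io : F2 →* FreeGroup (Fin 5) := FreeGroup.lift (fun z => of (pz z).1.succ)

lemma kap_of (v : V) (z : Bool) : kap v (of z) = xy v z := FreeGroup.lift_apply_of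

lemma io_of (z : Bool) : io (of z) = of (pz z).1.succ := FreeGroup.lift_apply_of

lemma ev_io (v : V) (u : F2) : ev v (io u) = kap v u := by
  have : (ev v).comp io = kap v := by
    apply FreeGroup.ext_hom
    intro z
    rw [MonoidHom.comp_apply, io_of, kap_of, ev, FreeGroup.lift_apply_of]
    cases z <;> rfl
  exact DFunLike.congr_fun this u

lemma ev_mk (v : V) (l : Fin 5 × Bool) (hl : l = (0, true) ∨ l = (0, false) ∨ l = (3, true) ∨
    l = (4, true)) : ev v (mk [l]) = mk [ex v l 0] * mk [ex v l 1] * mk [ex v l 2] := by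
  rcases hl with rfl | rfl | rfl | rfl
  · show ev v (of 0) = _
    rw [ev, FreeGroup.lift_apply_of]
    rfl
  · show ev v ((of 0)⁻¹) = _
    rw [map_inv, ev, FreeGroup.lift_apply_of]
    rfl
  · show ev v (of 3) = _
    rw [ev, FreeGroup.lift_apply_of]
    rfl
  · show ev v (of 4) = _
    rw [ev, FreeGroup.lift_apply_of]
    rfl

lemma zw_ww (K : ℤ) (v : V) (z : Bool) (n : ℕ) :
    zw (ww K v z) (3 * (n : ℤ)) = ev v (zw (wd K (pz z)) n) := by
  induction n with
  | zero => simp
  | succ n ih =>
    have e : (3 * ((n + 1 : ℕ) : ℤ)) = 3 * (n : ℤ) + 0 + 1 + 1 + 1 := by push_cast; ring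
    rw [e, zw_succ, zw_succ, zw_succ, add_zero, ih]
    push_cast
    rw [zw_succ, map_mul, ev_mk v _ (wd_four K z n)]
    have e0 := ww_at K v z n 0 (by norm_num) (by norm_num)
    have e1 := ww_at K v z n 1 (by norm_num) (by norm_num)
    have e2 := ww_at K v z n 2 (by norm_num) (by norm_num)
    rw [add_zero] at e0
    rw [show 3 * (n : ℤ) + 1 + 1 = 3 * n + 2 by ring, e0, e1, e2]
    simp only [mul_assoc]

/-- the tail of the level one relators -/
def tl (K : ℤ) (z : Bool) : List Bool :=
  (List.range (Lt K - 3).toNat).map (fun i : ℕ => decide ((wd K (pz z) (3 + i)).1 = 4))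

/-- the positive words `h_z` -/
def hz (K : ℤ) (z : Bool) : F2 := mk ((tl K z).map (fun b => (b, true)))

lemma io_mk (l : List Bool) :
    io (mk (l.map (fun b => (b, true)))) = mk (l.map (fun b => ((pz b).1.succ, true))) := by
  induction l with
  | nil => rfl
  | cons b l ih =>
    have e1 : (mk ((b :: l).map (fun b => (b, true))) : F2) = of b * mk (l.map (fun b => (b, true))) := rfl
    have e2 : (mk ((b :: l).map (fun b => ((pz b).1.succ, true))) : FreeGroup (Fin 5)) =
      of (pz b).1.succ * mk (l.map (fun b => ((pz b).1.succ, true))) := rfl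
    rw [e1, e2, map_mul, ih, io_of]

lemma wd_tail {K : ℤ} (hK : 20 ≤ K) (z : Bool) (k : ℤ) (h3 : 3 ≤ k) (hL : k < Lt K) :
    wd K (pz z) k = ((pz (decide ((wd K (pz z) k).1 = 4))).1.succ, true) := by
  have h := wd_ne hK (pz z) k h3 hL
  rcases wd_four K z k with h1 | h1 | h1 | h1
  · rw [h1] at h; exact absurd rfl h
  · rw [h1] at h; exact absurd rfl h
  · rw [h1]; rfl
  · rw [h1]; rfl

lemma Lt3 {K : ℤ} (hK : 20 ≤ K) : 12 * M K + 3 ≤ Lt K := by
  unfold Lt J M
  nlinarith

lemma tl_length {K : ℤ} (hK : 20 ≤ K) (z : Bool) : ((tl K z).length : ℤ) = Lt K - 3 := by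
  have := Lt3 hK
  have hM : M K = 32 * K + 10 := rfl
  unfold tl
  rw [List.length_map, List.length_range]
  omega

lemma zw_tail {K : ℤ} (hK : 20 ≤ K) (z : Bool) :
    zw (fun i => wd K (pz z) (3 + i)) (Lt K - 3) = io (hz K z) := by
  have := Lt3 hK
  have hM : M K = 32 * K + 10 := rfl
  obtain ⟨n, hn⟩ := Int.eq_ofNat_of_zero_le (show 0 ≤ Lt K - 3 by omega)
  unfold hz tl
  rw [hn, zw_nat, io_mk, Int.toNat_natCast, List.map_map]
  congr 1
  apply List.map_congr_left
  intro i hi
  rw [List.mem_range] at hi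
  exact wd_tail hK z (3 + i) (by omega) (by omega)

/-- the relators -/
def Rl (K : ℤ) (v : V) (z : Bool) : FA :=
  of (lt v) ^ 3 * xy v z * (of (lt v) ^ 3)⁻¹ * kap v (hz K z)

lemma zw_rel {K : ℤ} (hK : 20 ≤ K) (v : V) (z : Bool) : zw (ww K v z) (3 * Lt K) = Rl K v z := by
  have := Lt3 hK
  have hM : M K = 32 * K + 10 := rfl
  obtain ⟨n, hn⟩ := Int.eq_ofNat_of_zero_le (show 0 ≤ Lt K by omega)
  rw [hn, zw_ww, ← hn]
  have e : Lt K = 3 + (Lt K - 3) := by ring
  rw [e, zw_add, map_mul, zw_tail hK, ev_io, zw_three hK]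
  have e1 : (mk [(0, (pz z).2), ((pz z).1.succ, true), (0, !(pz z).2)] : FreeGroup (Fin 5)) =
    of 0 * io (of z) * (of 0)⁻¹ := by
    rw [io_of]; rfl
  rw [e1, map_mul, map_mul, map_inv, ev_io, kap_of]
  rfl

/-- the endomorphism -/
def phi (K : ℤ) : F2 →* F2 := FreeGroup.lift (fun z => (hz K z)⁻¹)

lemma phi_of (K : ℤ) (z : Bool) : phi K (of z) = (hz K z)⁻¹ := FreeGroup.lift_apply_of

lemma tl_ne {K : ℤ} (hK : 20 ≤ K) : tl K false ≠ tl K true := by
  intro h
  have h3 := Lt3 hK
  have hM : M K = 32 * K + 10 := rfl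
  have key : ∀ k : ℤ, 3 ≤ k → k < Lt K → (wd K (pz false) k).1 = (wd K (pz true) k).1 := by
    intro k h1 h2
    have e1 := wd_tail hK false k h1 h2
    have e2 := wd_tail hK true k h1 h2
    obtain ⟨n, hn⟩ := Int.eq_ofNat_of_zero_le (show 0 ≤ k - 3 by omega)
    have e3 : ∀ z, (tl K z)[n]? = some (decide ((wd K (pz z) k).1 = 4)) := by
      intro z
      unfold tl
      rw [List.getElem?_map, List.getElem?_range (by omega)]
      have : 3 + (n : ℤ) = k := by omega
      simp only [Option.map_some, this]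
    have e4 := e3 false
    rw [h, e3 true] at e4
    have e5 := Option.some.inj e4
    rw [e1, e2, e5]
  obtain ⟨hp, -⟩ := window hK (pz false) (pz true) 3 3 (Lt K - 3).toNat (by omega) (by
    intro k hk
    exact key _ (by omega) (by omega))
  exact absurd (pz_inj hp) (by decide)

/-! ### the exponent sum -/

/-- the exponent sum -/
def rho : F2 →* Multiplicative ℤ := FreeGroup.lift (fun _ => Multiplicative.ofAdd 1)

lemma rho_pos (l : List Bool) :
    rho (mk (l.map (fun b => (b, true)))) = Multiplicative.ofAdd (l.length : ℤ) := by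
  induction l with
  | nil => rfl
  | cons b l ih =>
    have e1 : (mk ((b :: l).map (fun b => (b, true))) : F2) = of b * mk (l.map (fun b => (b, true))) := rfl
    rw [e1, map_mul, ih, rho, FreeGroup.lift_apply_of, ← ofAdd_add]
    congr 1
    rw [List.length_cons]
    push_cast
    ring

lemma rho_phi {K : ℤ} (hK : 20 ≤ K) (u : F2) : rho (phi K u) = rho u ^ (-(Lt K - 3)) := by
  have h : rho.comp (phi K) = (zpowGroupHom (-(Lt K - 3))).comp rho := by
    apply FreeGroup.ext_hom
    intro z
    simp only [MonoidHom.comp_apply, phi_of, map_inv, zpowGroupHom_apply]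
    rw [hz, rho_pos, tl_length hK, rho, FreeGroup.lift_apply_of, ← ofAdd_neg, ← ofAdd_zsmul]
    congr 1
    rw [smul_eq_mul, mul_one]
  exact DFunLike.congr_fun h u

end Pool.Agent.U627.QC
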