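import Pool.Agent.U627.QC.Hom
import Pool.Agent.U627.QC.Dom

/-!
# The action on the Bass–Serre tree
-/

set_option autoImplicit false

namespace Pool.Agent.U627.QC

open SimpleGraph Pool.Agent.Helper270.Tree Pool.Agent.Helper705_SA
open Pool.Agent.Y893.RN
open FreeGroup (of mk)
open SemidirectProduct (inl inr)

/-! ### generalities on coset trees -/

section coset

variable {G : Type} [Group G] (A B : Subgroup G)

/-- the action on the coset tree -/
theorem coset_treeAct (h : IsAmalgam A B) : TreeAct G (cosetGraph A B) where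
  isTree := cosetGraph_isTree A B h
  adj := by
    rintro g v w ⟨k, ⟨rfl, rfl⟩ | ⟨rfl, rfl⟩⟩
    · exact ⟨g * k, Or.inl ⟨rfl, rfl⟩⟩
    · exact ⟨g * k, Or.inr ⟨rfl, rfl⟩⟩
  noInv := by
    rintro g v w ⟨k, ⟨rfl, rfl⟩ | ⟨rfl, rfl⟩⟩ ⟨h1, h2⟩
    · cases h1
    · cases h1

/-- the vertices of the first kind -/
def vA (g : G) : (G ⧸ A) ⊕ (G ⧸ B) := Sum.inl (QuotientGroup.mk g)

/-- the vertices of the second kind -/
def vB (g : G) : (G ⧸ A) ⊕ (G ⧸ B) := Sum.inr (QuotientGroup.mk g)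

lemma smul_vA (g h : G) : g • vA A B h = vA A B (g * h) := rfl
lemma smul_vB (g h : G) : g • vB A B h = vB A B (g * h) := rfl

lemma vA_eq {g h : G} : vA A B g = vA A B h ↔ g⁻¹ * h ∈ A := by
  rw [vA, vA, Sum.inl_injective.eq_iff, QuotientGroup.eq]

lemma vB_eq {g h : G} : vB A B g = vB A B h ↔ g⁻¹ * h ∈ B := by
  rw [vB, vB, Sum.inr_injective.eq_iff, QuotientGroup.eq]

lemma vA_ne_vB (g h : G) : vA A B g ≠ vB A B h := by
  intro h; cases h

lemma fix_vA {g h : G} : g • vA A B h = vA A B h ↔ h⁻¹ * g * h ∈ A := by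
  rw [smul_vA, eq_comm, vA_eq, mul_assoc]

lemma fix_vB {g h : G} : g • vB A B h = vB A B h ↔ h⁻¹ * g * h ∈ B := by
  rw [smul_vB, eq_comm, vB_eq, mul_assoc]

lemma adj_AB (g : G) : (cosetGraph A B).Adj (vA A B g) (vB A B g) := ⟨g, Or.inl ⟨rfl, rfl⟩⟩

/-- neighbours of a vertex of the second kind -/
lemma adj_vB {g : G} {x : (G ⧸ A) ⊕ (G ⧸ B)} (h : (cosetGraph A B).Adj (vB A B g) x) :
    ∃ b ∈ B, x = vA A B (g * b) := by
  obtain ⟨k, ⟨h1, h2⟩ | ⟨h1, h2⟩⟩ := h
  · cases h1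
  · have h3 : vB A B g = vB A B k := h2
    rw [vB_eq] at h3
    exact ⟨g⁻¹ * k, h3, by rw [mul_inv_cancel_left]; exact h1⟩

lemma adj_vA {g : G} {x : (G ⧸ A) ⊕ (G ⧸ B)} (h : (cosetGraph A B).Adj (vA A B g) x) :
    ∃ k, x = vB A B k := by
  obtain ⟨k, ⟨h1, h2⟩ | ⟨h1, h2⟩⟩ := h
  · exact ⟨k, h2⟩
  · cases h2

lemma vert_cases (x : (G ⧸ A) ⊕ (G ⧸ B)) : (∃ g, x = vA A B g) ∨ ∃ g, x = vB A B g := by
  rcases x with x | x
  · obtain ⟨g, rfl⟩ := QuotientGroup.mk_surjective x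
    exact Or.inl ⟨g, rfl⟩
  · obtain ⟨g, rfl⟩ := QuotientGroup.mk_surjective x
    exact Or.inr ⟨g, rfl⟩

/-- If `A ⊓ B` is malnormal in `B` then the stabilisers of paths of length three are trivial. -/
theorem stab_trivial (h : IsAmalgam A B)
    (hmal : ∀ b ∈ B, ∀ c ∈ A ⊓ B, ∀ c' ∈ A ⊓ B, c ≠ 1 → c = b * c' * b⁻¹ → b ∈ A)
    {x y : (G ⧸ A) ⊕ (G ⧸ B)} (hd : 3 ≤ (cosetGraph A B).dist x y) (g : G) (hx : g • x = x)
    (hy : g • y = y) : g = 1 := by
  have hact := coset_treeAct A B h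
  obtain ⟨q, hq0, hq1, hqadj, hqd, hqnb⟩ := exists_geod hact.isTree x y
  have hfix : ∀ i ≤ (cosetGraph A B).dist x y, g • q i = q i := by
    intro i hi
    apply hact.convex hx hy
    have := hqd i hi
    omega
  -- an interior vertex of the second kind
  obtain ⟨i, hi, k, hk⟩ : ∃ i, i + 2 ≤ (cosetGraph A B).dist x y ∧ ∃ k, q (i + 1) = vB A B k := by
    rcases vert_cases A B (q 1) with ⟨k, hk⟩ | ⟨k, hk⟩
    · have h1 := hqadj 1 (by omega)
      rw [hk] at h1
      obtain ⟨k', hk'⟩ := adj_vA A B h1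
      exact ⟨1, by omega, k', hk'⟩
    · exact ⟨0, by omega, k, hk⟩
  have h1 := (hqadj i (by omega)).symm
  have h2 := hqadj (i + 1) (by omega)
  rw [hk] at h1 h2
  obtain ⟨b, hb, hb'⟩ := adj_vB A B h1
  obtain ⟨c, hc, hc'⟩ := adj_vB A B h2
  have f1 := hfix i (by omega)
  have f2 := hfix (i + 1) (by omega)
  have f3 := hfix (i + 1 + 1) (by omega)
  rw [hb', fix_vA] at f1
  rw [hk, fix_vB] at f2
  rw [hc', fix_vA] at f3
  by_contra hg
  have hne := hqnb i (by omega)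
  apply hne
  rw [hb', show i + 2 = i + 1 + 1 from rfl, hc', vA_eq]
  have e0 : (k * b)⁻¹ * (k * c) = b⁻¹ * c := by group
  rw [e0]
  have m1 : (k * b)⁻¹ * g * (k * b) ∈ A ⊓ B := by
    refine ⟨f1, ?_⟩
    have : (k * b)⁻¹ * g * (k * b) = b⁻¹ * (k⁻¹ * g * k) * b := by group
    rw [this]
    exact B.mul_mem (B.mul_mem (B.inv_mem hb) f2) hb
  have m2 : (k * c)⁻¹ * g * (k * c) ∈ A ⊓ B := by
    refine ⟨f3, ?_⟩
    have : (k * c)⁻¹ * g * (k * c) = c⁻¹ * (k⁻¹ * g * k) * c := by group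
    rw [this]
    exact B.mul_mem (B.mul_mem (B.inv_mem hc) f2) hc
  refine hmal (b⁻¹ * c) (B.mul_mem (B.inv_mem hb) hc) _ m1 _ m2 ?_ (by group)
  intro h3
  apply hg
  have : g = (k * b) * ((k * b)⁻¹ * g * (k * b)) * (k * b)⁻¹ := by group
  rw [this, h3]
  group

/-- An element of `B` none of whose conjugates in `B` lies in `A` fixes only one vertex. -/
theorem fix_unique (h : IsAmalgam A B) (g : G) (hg : g ∈ B) (hcon : ∀ b ∈ B, b⁻¹ * g * b ∉ A)
    (x : (G ⧸ A) ⊕ (G ⧸ B)) (hx : g • x = x) : x = vB A B 1 := by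
  have hact := coset_treeAct A B h
  by_contra hne
  obtain ⟨q, hq0, hq1, hqadj, hqd, hqnb⟩ := exists_geod hact.isTree (vB A B 1) x
  have hd0 : 0 < (cosetGraph A B).dist (vB A B 1) x :=
    hact.isTree.connected.pos_dist_of_ne (Ne.symm hne)
  have hB1 : g • vB A B 1 = vB A B 1 := by
    rw [fix_vB]
    simpa using hg
  have f1 : g • q 1 = q 1 := by
    apply hact.convex hB1 hx
    have := hqd 1 (by omega)
    omega
  have h1 := hqadj 0 hd0
  rw [hq0] at h1
  obtain ⟨b, hb, hb'⟩ := adj_vB A B h1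
  rw [zero_add] at hb'
  rw [hb', fix_vA, one_mul] at f1
  exact hcon b hb f1

/-! ### two hyperbolic elements -/

section axis

variable (h : IsAmalgam A B) (σ s : G)

/-- the second reflection -/
def t' (σ s : G) : G := s * σ * s⁻¹

/-- the hyperbolic element -/
def gh (σ s : G) : G := σ * t' σ s

/-- a fundamental domain of the axis -/
def cc (r : ℤ) : (G ⧸ A) ⊕ (G ⧸ B) :=
  if r = 0 then vB A B (t' σ s) else if r = 1 then vA A B (t' σ s) else if r = 2 then vB A B s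
  else vA A B 1

/-- the axis -/
def ax (i : ℤ) : (G ⧸ A) ⊕ (G ⧸ B) := gh σ s ^ (i / 4) • cc A B σ s (i % 4)

lemma ax_at (m r : ℤ) (h0 : 0 ≤ r) (h1 : r < 4) :
    ax A B σ s (4 * m + r) = gh σ s ^ m • cc A B σ s r := by
  unfold ax
  have e1 : (4 * m + r) / 4 = m := by omega
  have e2 : (4 * m + r) % 4 = r := by omega
  rw [e1, e2]

lemma ax_next (m r : ℤ) (h0 : 0 ≤ r) (h1 : r < 4) :
    ax A B σ s (4 * m + (r + 4)) = gh σ s ^ m • gh σ s • cc A B σ s r := by
  rw [show 4 * m + (r + 4) = 4 * (m + 1) + r by ring, ax_at A B σ s _ _ h0 h1, zpow_add_one, mul_smul]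

variable (hσ : σ * σ = 1) (hσA : σ ∉ A) (hsA : s ∈ A) (hsB : s ∉ B) (hσB : σ ∈ B)

lemma cc0 : cc A B σ s 0 = vB A B (t' σ s) := rfl
lemma cc1 : cc A B σ s 1 = vA A B (t' σ s) := rfl
lemma cc2 : cc A B σ s 2 = vB A B s := rfl
lemma cc3 : cc A B σ s 3 = vA A B 1 := rfl

include hσ in
lemma t'_sq : t' σ s * t' σ s = 1 := by
  unfold t'
  calc s * σ * s⁻¹ * (s * σ * s⁻¹) = s * (σ * σ) * s⁻¹ := by group
    _ = 1 := by rw [hσ]; group

include hσ in
lemma gh_t' : gh σ s * t' σ s = σ := by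
  unfold gh
  rw [mul_assoc, t'_sq σ s hσ, mul_one]

include hσ hσB in
lemma gcc0 : gh σ s • cc A B σ s 0 = vB A B 1 := by
  rw [cc0, smul_vB, gh_t' σ s hσ, vB_eq]
  simpa using hσB

include hσ in
lemma gcc1 : gh σ s • cc A B σ s 1 = vA A B σ := by
  rw [cc1, smul_vA, gh_t' σ s hσ]

include hσ hσA hsA hsB hσB in
theorem ax_line (h : IsAmalgam A B) : IsLine (cosetGraph A B) (ax A B σ s) := by
  have hact := coset_treeAct A B h
  have hsσ : s * σ⁻¹ * s⁻¹ ∉ A := by
    intro h1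
    apply hσA
    have h2 := A.mul_mem (A.mul_mem (A.inv_mem hsA) h1) hsA
    have h3 : s⁻¹ * (s * σ⁻¹ * s⁻¹) * s = σ⁻¹ := by group
    rw [h3] at h2
    exact inv_mem_iff.1 h2
  have e2 : vB A B s ≠ vB A B 1 := by
    rw [Ne, vB_eq]
    intro h1
    apply hsB
    simpa using h1
  have a0 : (cosetGraph A B).Adj (cc A B σ s 0) (cc A B σ s 1) := (adj_AB A B _).symm
  have a1 : (cosetGraph A B).Adj (cc A B σ s 1) (cc A B σ s 2) := by
    have h1 : vA A B (s * σ) = cc A B σ s 1 := by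
      rw [cc1, vA_eq]
      unfold t'
      have : (s * σ)⁻¹ * (s * σ * s⁻¹) = s⁻¹ := by group
      rw [this]
      exact A.inv_mem hsA
    have h2 : vB A B (s * σ) = cc A B σ s 2 := by
      rw [cc2, vB_eq]
      have : (s * σ)⁻¹ * s = σ⁻¹ := by group
      rw [this]
      exact B.inv_mem hσB
    rw [← h1, ← h2]
    exact adj_AB A B _
  have hs1 : vA A B s = cc A B σ s 3 := by
    rw [cc3, vA_eq, mul_one]
    exact A.inv_mem hsA
  have a2 : (cosetGraph A B).Adj (cc A B σ s 2) (cc A B σ s 3) := by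
    rw [← hs1, cc2]
    exact (adj_AB A B s).symm
  have a3 : (cosetGraph A B).Adj (cc A B σ s 3) (gh σ s • cc A B σ s 0) := by
    rw [gcc0 A B σ s hσ hσB, cc3]
    exact adj_AB A B 1
  have n0 : cc A B σ s 0 ≠ cc A B σ s 2 := by
    rw [cc0, cc2, Ne, vB_eq]
    intro h1
    apply hsB
    unfold t' at h1
    have : (s * σ * s⁻¹)⁻¹ * s = s * σ⁻¹ := by group
    rw [this] at h1
    have h2 := B.mul_mem h1 hσB
    rwa [inv_mul_cancel_right] at h2
  have n1 : cc A B σ s 1 ≠ cc A B σ s 3 := by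
    rw [cc1, cc3, Ne, vA_eq, mul_one]
    unfold t'
    have : (s * σ * s⁻¹)⁻¹ = s * σ⁻¹ * s⁻¹ := by group
    rw [this]
    exact hsσ
  have n2 : cc A B σ s 2 ≠ gh σ s • cc A B σ s 0 := by
    rw [gcc0 A B σ s hσ hσB, cc2]
    exact e2
  have n3 : cc A B σ s 3 ≠ gh σ s • cc A B σ s 1 := by
    rw [gcc1 A B σ s hσ, cc3, Ne, vA_eq]
    simpa using hσA
  have hsm : ∀ (k : G) {x y : (G ⧸ A) ⊕ (G ⧸ B)}, x ≠ y → k • x ≠ k • y := by
    intro k x y hxy hc
    exact hxy (smul_left_cancel k hc)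
  have hcases : ∀ i : ℤ, ∃ m : ℤ, i = 4 * m + 0 ∨ i = 4 * m + 1 ∨ i = 4 * m + 2 ∨ i = 4 * m + 3 := by
    intro i
    exact ⟨i / 4, by omega⟩
  constructor
  · intro i
    obtain ⟨m, rfl | rfl | rfl | rfl⟩ := hcases i
    · rw [add_assoc, ax_at A B σ s m 0 (by norm_num) (by norm_num),
        show (0 : ℤ) + 1 = 1 by norm_num, ax_at A B σ s m 1 (by norm_num) (by norm_num)]
      exact hact.adj _ _ _ a0
    · rw [add_assoc, ax_at A B σ s m 1 (by norm_num) (by norm_num),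
        show (1 : ℤ) + 1 = 2 by norm_num, ax_at A B σ s m 2 (by norm_num) (by norm_num)]
      exact hact.adj _ _ _ a1
    · rw [add_assoc, ax_at A B σ s m 2 (by norm_num) (by norm_num),
        show (2 : ℤ) + 1 = 3 by norm_num, ax_at A B σ s m 3 (by norm_num) (by norm_num)]
      exact hact.adj _ _ _ a2
    · rw [add_assoc, ax_at A B σ s m 3 (by norm_num) (by norm_num),
        show (3 : ℤ) + 1 = 0 + 4 by norm_num, ax_next A B σ s m 0 (by norm_num) (by norm_num)]
      exact hact.adj _ _ _ a3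
  · intro i
    obtain ⟨m, rfl | rfl | rfl | rfl⟩ := hcases i
    · rw [add_assoc, ax_at A B σ s m 0 (by norm_num) (by norm_num),
        show (0 : ℤ) + 2 = 2 by norm_num, ax_at A B σ s m 2 (by norm_num) (by norm_num)]
      exact hsm _ n0
    · rw [add_assoc, ax_at A B σ s m 1 (by norm_num) (by norm_num),
        show (1 : ℤ) + 2 = 3 by norm_num, ax_at A B σ s m 3 (by norm_num) (by norm_num)]
      exact hsm _ n1
    · rw [add_assoc, ax_at A B σ s m 2 (by norm_num) (by norm_num),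
        show (2 : ℤ) + 2 = 0 + 4 by norm_num, ax_next A B σ s m 0 (by norm_num) (by norm_num)]
      exact hsm _ n2
    · rw [add_assoc, ax_at A B σ s m 3 (by norm_num) (by norm_num),
        show (3 : ℤ) + 2 = 1 + 4 by norm_num, ax_next A B σ s m 1 (by norm_num) (by norm_num)]
      exact hsm _ n3

include hσ hσA hsA hsB hσB in
theorem ax_axis (h : IsAmalgam A B) : IsAxis (cosetGraph A B) (gh σ s) (ax A B σ s) 4 where
  line := ax_line A B σ s hσ hσA hsA hsB hσB h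
  pos := by norm_num
  smul := by
    intro i
    have e : i = 4 * (i / 4) + i % 4 := by omega
    rw [e]
    show _ = ax A B σ s (4 * (i / 4) + i % 4 + ((4 : ℕ) : ℤ))
    rw [show 4 * (i / 4) + i % 4 + ((4 : ℕ) : ℤ) = 4 * (i / 4) + (i % 4 + 4) by push_cast; ring,
      ax_at A B σ s _ _ (by omega) (by omega), ax_next A B σ s _ _ (by omega) (by omega),
      ← mul_smul, ← mul_smul, (Commute.refl (gh σ s)).zpow_right (i / 4) |>.eq]

lemma ax3 : ax A B σ s 3 = vA A B 1 := by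
  have := ax_at A B σ s 0 3 (by norm_num) (by norm_num)
  rw [zpow_zero, one_smul, cc3] at this
  simpa using this

include hσ hσB in
lemma ax4 : ax A B σ s 4 = vB A B 1 := by
  have := ax_next A B σ s 0 0 (by norm_num) (by norm_num)
  rw [zpow_zero, one_smul, gcc0 A B σ s hσ hσB] at this
  simpa using this

include hσ in
lemma ax5 : ax A B σ s 5 = vA A B σ := by
  have := ax_next A B σ s 0 1 (by norm_num) (by norm_num)
  rw [zpow_zero, one_smul, gcc1 A B σ s hσ] at this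
  have e : 4 * (0 : ℤ) + (1 + 4) = 5 := by norm_num
  rwa [e] at this

include hσ hσA hsA hsB hσB in
/-- the two axes meet in one vertex -/
theorem ax_meet (h : IsAmalgam A B) (τ : G) (hτB : τ ∈ B) (h1 : τ ∉ A) (h2 : τ * σ ∉ A)
    (h3 : σ⁻¹ * τ ∉ A) (h4 : σ⁻¹ * (τ * σ) ∉ A) (i j : ℤ)
    (hij : ax A B σ s i = τ • ax A B σ s j) : i = 4 := by
  have hact := coset_treeAct A B h
  have hT := hact.isTree
  have hL := ax_line A B σ s hσ hσA hsA hsB hσB h
  by_contra hi
  have e4 := ax4 A B σ s hσ hσB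
  have e3 := ax3 A B σ s
  have e5 := ax5 A B σ s hσ
  have hτ4 : τ • vB A B 1 = vB A B 1 := by
    rw [fix_vB]
    simpa using hτB
  have hj : j ≠ 4 := by
    rintro rfl
    rw [e4, hτ4, ← e4] at hij
    exact hi (hL.injective hT hij)
  set x := ax A B σ s i with hx
  -- the direction of `x` in the first line
  obtain ⟨u, hu, hu1, hu2⟩ : ∃ u, (u = vA A B 1 ∨ u = vA A B σ) ∧
      (cosetGraph A B).Adj u (vB A B 1) ∧
      (cosetGraph A B).dist x (vB A B 1) = (cosetGraph A B).dist x u + 1 := by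
    rcases lt_or_gt_of_ne hi with h5 | h5
    · refine ⟨vA A B 1, Or.inl rfl, adj_AB A B 1, ?_⟩
      rw [hx, ← e4, ← e3]
      have d1 := hL.dist hT i 4
      have d2 := hL.dist hT i 3
      omega
    · refine ⟨vA A B σ, Or.inr rfl, ?_, ?_⟩
      · rw [← e4, ← e5]
        exact (hL.adj 4).symm
      · rw [hx, ← e4, ← e5]
        have d1 := hL.dist hT i 4
        have d2 := hL.dist hT i 5
        omega
  obtain ⟨w, hw, hw1, hw2⟩ : ∃ w, (w = vA A B τ ∨ w = vA A B (τ * σ)) ∧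
      (cosetGraph A B).Adj w (vB A B 1) ∧
      (cosetGraph A B).dist x (vB A B 1) = (cosetGraph A B).dist x w + 1 := by
    rw [hij]
    rcases lt_or_gt_of_ne hj with h5 | h5
    · refine ⟨vA A B τ, Or.inl rfl, ?_, ?_⟩
      · have := hact.adj τ _ _ (adj_AB A B 1)
        rwa [hτ4, smul_vA, mul_one] at this
      · have e6 : vA A B τ = τ • ax A B σ s 3 := by rw [e3, smul_vA, mul_one]
        have e7 : vB A B 1 = τ • ax A B σ s 4 := by rw [e4, hτ4]
        rw [e6, e7, hact.dist_smul, hact.dist_smul]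
        have d1 := hL.dist hT j 4
        have d2 := hL.dist hT j 3
        omega
    · have e6 : vA A B (τ * σ) = τ • ax A B σ s 5 := by rw [e5, smul_vA]
      have e7 : vB A B 1 = τ • ax A B σ s 4 := by rw [e4, hτ4]
      refine ⟨vA A B (τ * σ), Or.inr rfl, ?_, ?_⟩
      · rw [e6, e7]
        exact hact.adj τ _ _ (hL.adj 4).symm
      · rw [e6, e7, hact.dist_smul, hact.dist_smul]
        have d1 := hL.dist hT j 4
        have d2 := hL.dist hT j 5
        omega
  have huw := parent_unique hT hu1 hw1 hu2 hw2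
  rcases hu with rfl | rfl <;> rcases hw with rfl | rfl
  · rw [vA_eq] at huw
    apply h1
    simpa using huw
  · rw [vA_eq] at huw
    apply h2
    simpa using huw
  · rw [vA_eq] at huw
    exact h3 huw
  · rw [vA_eq] at huw
    exact h4 huw

end axis

end coset

end Pool.Agent.U627.QC
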