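import Pool.Agent.Y893.RN.RB1
import Pool.Agent.U627.QC.Hyp

/-!
# The relators

The words `wd K p` of `Y893.RN.RB1` are of the form `t z t⁻¹ h`, where `z` is one of the letters
`3, 4` and `h` is a positive word in the letters `3, 4`. We substitute `t ↦ t_v³`,
`3 ↦ a_i a_i b_j`, `4 ↦ a_{-i} b_{-j} b_{-j}` for `v = (i, j) ∈ {±1}²`.
-/

set_option autoImplicit false

namespace Pool.Agent.U627.QC

open Pool.Agent.H17R2 Pool.Agent.Y893.RN FreeGroup

/-- The group `(ℤ/2)²`. -/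
abbrev V : Type := ℤˣ × ℤˣ

/-- The letters `a_i`, `b_j`, `t_v`. -/
abbrev Al : Type := (ℤˣ ⊕ ℤˣ) ⊕ V

/-- the letter `a_i` -/
def la (i : ℤˣ) : Al := Sum.inl (Sum.inl i)
/-- the letter `b_j` -/
def lb (j : ℤˣ) : Al := Sum.inl (Sum.inr j)
/-- the letter `t_v` -/
def lt (v : V) : Al := Sum.inr v

/-- code of the relator -/
def pz (z : Bool) : Fin 4 × Bool := (if z then 3 else 2, true)

/-- the letters of the substitution -/
def ex (v : V) (l : Fin 5 × Bool) (r : ℤ) : Al × Bool :=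
  if l.1 = 0 then (lt v, l.2)
  else if l.1 = 3 then (if r ≤ 1 then la v.1 else lb v.2, true)
  else (if r ≤ 0 then la (-v.1) else lb (-v.2), true)

/-- the periodic words -/
def ww (K : ℤ) (v : V) (z : Bool) (k : ℤ) : Al × Bool := ex v (wd K (pz z) (k / 3)) (k % 3)

/-- type of a letter -/
def ty : Al → Fin 3
  | Sum.inl (Sum.inl _) => 0
  | Sum.inl (Sum.inr _) => 1
  | Sum.inr _ => 2

lemma pz_inj {z z' : Bool} (h : pz z = pz z') : z = z' := by
  revert h
  cases z <;> cases z' <;> decide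

lemma wd_four (K : ℤ) (z : Bool) (k : ℤ) : wd K (pz z) k = (0, true) ∨ wd K (pz z) k = (0, false) ∨
    wd K (pz z) k = (3, true) ∨ wd K (pz z) k = (4, true) := by
  unfold wd f
  split_ifs
  · left; rfl
  · cases z
    · right; right; left; rfl
    · right; right; right; rfl
  · right; left; rfl
  · right; right; left; rfl
  · right; right; right; rfl

lemma ww_at (K : ℤ) (v : V) (z : Bool) (c r : ℤ) (h0 : 0 ≤ r) (h1 : r < 3) :
    ww K v z (3 * c + r) = ex v (wd K (pz z) c) r := by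
  unfold ww
  have e1 : (3 * c + r) / 3 = c := by omega
  have e2 : (3 * c + r) % 3 = r := by omega
  rw [e1, e2]

lemma ty_ex (v : V) (l : Fin 5 × Bool) (r : ℤ) (hl : l = (0, true) ∨ l = (0, false) ∨ l = (3, true) ∨
    l = (4, true)) : (l.1 = 0 ∧ ty (ex v l r).1 = 2) ∨
      (l.1 = 3 ∧ ((r ≤ 1 ∧ ty (ex v l r).1 = 0) ∨ (1 < r ∧ ty (ex v l r).1 = 1))) ∨
      (l.1 = 4 ∧ ((r ≤ 0 ∧ ty (ex v l r).1 = 0) ∨ (0 < r ∧ ty (ex v l r).1 = 1))) := by
  rcases hl with rfl | rfl | rfl | rfl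
  · left; exact ⟨rfl, rfl⟩
  · left; exact ⟨rfl, rfl⟩
  · right; left
    refine ⟨rfl, ?_⟩
    rcases le_or_gt r 1 with h | h
    · left
      refine ⟨h, ?_⟩
      simp [ex, h, ty, la]
    · right
      refine ⟨h, ?_⟩
      simp [ex, not_le.2 h, ty, lb]
  · right; right
    refine ⟨rfl, ?_⟩
    rcases le_or_gt r 0 with h | h
    · left
      refine ⟨h, ?_⟩
      simp [ex, h, ty, la]
    · right
      refine ⟨h, ?_⟩
      simp [ex, not_le.2 h, ty, lb]

lemma sg_ex (v : V) (l : Fin 5 × Bool) (r : ℤ) (h : l.1 ≠ 0) : (ex v l r).2 = true := by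
  unfold ex
  rw [if_neg h]
  split_ifs <;> rfl

/-- a place in the interior of a block -/
lemma exists_place {K : ℤ} (hK : 20 ≤ K) (z : Bool) (c : ℤ) : ∃ m, c ≤ m ∧ m ≤ c + 4 ∧
    (wd K (pz z) m).1 ≠ 0 ∧ (wd K (pz z) (m + 1)).1 ≠ 0 := by
  have hMM : M K = 32 * K + 10 := rfl
  have hM : 0 < M K := by omega
  obtain ⟨q, r, hk, h0, h1, -, -⟩ := pos_eq hK c
  have key : ∀ q r : ℤ, 3 ≤ r → r + 1 < M K → (wd K (pz z) (q * M K + r)).1 ≠ 0 ∧
      (wd K (pz z) (q * M K + r + 1)).1 ≠ 0 := by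
    have key2 : ∀ q r : ℤ, 3 ≤ r → r < M K → (wd K (pz z) (q * M K + r)).1 ≠ 0 := by
      intro q r h3 h4
      rw [wd_at _ _ _ (by omega) h4]
      unfold f
      rw [if_neg (by omega), if_neg (by omega), if_neg (by omega)]
      split_ifs <;> simp
    intro q r h3 h4
    refine ⟨key2 q r h3 (by omega), ?_⟩
    rw [add_assoc]
    exact key2 q (r + 1) (by omega) h4
  by_cases h2 : r < 3
  · refine ⟨q * M K + 3, by omega, by omega, ?_⟩
    exact key q 3 le_rfl (by omega)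
  · by_cases h3 : r + 1 < M K
    · refine ⟨c, le_rfl, by omega, ?_⟩
      rw [hk]
      exact key q r (by omega) h3
    · refine ⟨(q + 1) * M K + 3, ?_, ?_, key (q + 1) 3 le_rfl (by omega)⟩
      · have : (q + 1) * M K = q * M K + M K := by ring
        omega
      · have : (q + 1) * M K = q * M K + M K := by ring
        omega

lemma window2 {K : ℤ} (hK : 20 ≤ K) (v v' : V) (z z' : Bool) (s s' : ℤ) (t : ℕ)
    (ht : 12 * M K + 3 ≤ t) (h : ∀ k : ℕ, k < t → ww K v z (s + k) = ww K v' z' (s' + k)) :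
    v = v' ∧ z = z' ∧ ∃ m : ℤ, s = s' + m * (3 * Lt K) := by
  have hMM : M K = 32 * K + 10 := rfl
  have hM : 0 < M K := by omega
  have hh : ∀ x : ℤ, s ≤ x → x < s + t → ww K v z x = ww K v' z' (x - s + s') := by
    intro x h1 h2
    obtain ⟨n, hn⟩ := Int.eq_ofNat_of_zero_le (sub_nonneg.2 h1)
    have e := h n (by omega)
    have e1 : s + (n : ℤ) = x := by omega
    have e2 : s' + (n : ℤ) = x - s + s' := by omega
    rw [e1, e2] at e
    exact e
  set c0 : ℤ := s / 3 + 1 with hc0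
  have hc1 : s < 3 * c0 := by omega
  have hc2 : 3 * c0 ≤ s + 3 := by omega
  obtain ⟨m, hm1, hm2, hm3, hm4⟩ := exists_place hK z c0
  -- alignment
  have g1 := hh (3 * m + 2) (by omega) (by omega)
  have g2 := hh (3 * (m + 1) + 0) (by omega) (by omega)
  rw [ww_at K v z m 2 (by norm_num) (by norm_num)] at g1
  rw [ww_at K v z (m + 1) 0 (by norm_num) (by norm_num)] at g2
  have t1 : ty (ex v (wd K (pz z) m) 2).1 = 1 := by
    rcases ty_ex v _ 2 (wd_four K z m) with ⟨h1, -⟩ | ⟨-, ⟨h2, -⟩ | ⟨-, h2⟩⟩ | ⟨-, ⟨h2, -⟩ | ⟨-, h2⟩⟩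
    · exact absurd h1 hm3
    · omega
    · exact h2
    · omega
    · exact h2
  have t2 : ty (ex v (wd K (pz z) (m + 1)) 0).1 = 0 := by
    rcases ty_ex v _ 0 (wd_four K z (m + 1)) with ⟨h1, -⟩ | ⟨-, ⟨-, h2⟩ | ⟨h2, -⟩⟩ |
      ⟨-, ⟨-, h2⟩ | ⟨h2, -⟩⟩
    · exact absurd h1 hm4
    · exact h2
    · omega
    · exact h2
    · omega
  set A : ℤ := 3 * (m + 1) + 0 - s + s' with hA
  have eA : 3 * m + 2 - s + s' = A - 1 := by omega
  rw [eA] at g1
  have hmod : A % 3 = 0 := by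
    by_contra hne
    have hcase : A % 3 = 1 ∨ A % 3 = 2 := by omega
    rcases hcase with hc | hc
    · have e : A - 1 = 3 * (A / 3) + 0 := by omega
      rw [e, ww_at K v' z' (A / 3) 0 (by norm_num) (by norm_num)] at g1
      rw [g1] at t1
      rcases ty_ex v' _ 0 (wd_four K z' (A / 3)) with ⟨-, h1⟩ | ⟨-, ⟨-, h2⟩ | ⟨h2, -⟩⟩ |
        ⟨-, ⟨-, h2⟩ | ⟨h2, -⟩⟩
      · rw [h1] at t1; exact absurd t1 (by decide)
      · rw [h2] at t1; exact absurd t1 (by decide)
      · omega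
      · rw [h2] at t1; exact absurd t1 (by decide)
      · omega
    · have e : A = 3 * (A / 3) + 2 := by omega
      rw [e, ww_at K v' z' (A / 3) 2 (by norm_num) (by norm_num)] at g2
      rw [g2] at t2
      rcases ty_ex v' _ 2 (wd_four K z' (A / 3)) with ⟨-, h1⟩ | ⟨-, ⟨h2, -⟩ | ⟨-, h2⟩⟩ |
        ⟨-, ⟨h2, -⟩ | ⟨-, h2⟩⟩
      · rw [h1] at t2; exact absurd t2 (by decide)
      · omega
      · rw [h2] at t2; exact absurd t2 (by decide)
      · omega
      · rw [h2] at t2; exact absurd t2 (by decide)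
  obtain ⟨d, hd⟩ : ∃ d : ℤ, s = s' + 3 * d := ⟨(s - s') / 3, by omega⟩
  -- level one letters
  have lev : ∀ c : ℤ, s ≤ 3 * c → 3 * c + 2 < s + t → ∀ r : ℤ, 0 ≤ r → r < 3 →
      ex v (wd K (pz z) c) r = ex v' (wd K (pz z') (c - d)) r := by
    intro c h1 h2 r h3 h4
    have := hh (3 * c + r) (by omega) (by omega)
    rw [ww_at K v z c r h3 h4] at this
    rw [this]
    have e : 3 * c + r - s + s' = 3 * (c - d) + r := by omega
    rw [e, ww_at K v' z' (c - d) r h3 h4]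
  have lev1 : ∀ c : ℤ, s ≤ 3 * c → 3 * c + 2 < s + t →
      (wd K (pz z) c).1 = (wd K (pz z') (c - d)).1 := by
    intro c h1 h2
    have h3 := lev c h1 h2 1 (by norm_num) (by norm_num)
    have h4 := ty_ex v _ 1 (wd_four K z c)
    have h5 := ty_ex v' _ 1 (wd_four K z' (c - d))
    rw [← h3] at h5
    rcases h4 with ⟨h6, h7⟩ | ⟨h6, ⟨-, h7⟩ | ⟨h8, -⟩⟩ | ⟨h6, ⟨h8, -⟩ | ⟨-, h7⟩⟩
    · rcases h5 with ⟨k6, k7⟩ | ⟨k6, ⟨-, k7⟩ | ⟨k8, -⟩⟩ | ⟨k6, ⟨k8, -⟩ | ⟨-, k7⟩⟩
      · rw [h6, k6]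
      · rw [h7] at k7; exact absurd k7 (by decide)
      · omega
      · omega
      · rw [h7] at k7; exact absurd k7 (by decide)
    · rcases h5 with ⟨k6, k7⟩ | ⟨k6, ⟨-, k7⟩ | ⟨k8, -⟩⟩ | ⟨k6, ⟨k8, -⟩ | ⟨-, k7⟩⟩
      · rw [h7] at k7; exact absurd k7 (by decide)
      · rw [h6, k6]
      · omega
      · omega
      · rw [h7] at k7; exact absurd k7 (by decide)
    · omega
    · omega
    · rcases h5 with ⟨k6, k7⟩ | ⟨k6, ⟨-, k7⟩ | ⟨k8, -⟩⟩ | ⟨k6, ⟨k8, -⟩ | ⟨-, k7⟩⟩
      · rw [h7] at k7; exact absurd k7 (by decide)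
      · rw [h7] at k7; exact absurd k7 (by decide)
      · omega
      · omega
      · rw [h6, k6]
  obtain ⟨T1, hT1⟩ := Int.eq_ofNat_of_zero_le (show 0 ≤ 4 * M K by omega)
  obtain ⟨hp, mm, hmm⟩ := window hK (pz z) (pz z') c0 (c0 - d) T1 (by omega) (by
    intro k hk
    have := lev1 (c0 + k) (by omega) (by omega)
    rw [this]
    congr 2
    ring)
  refine ⟨?_, pz_inj hp, mm, ?_⟩
  · -- `v = v'`
    have e1 := lev1 m (by omega) (by omega)
    have e0 := lev m (by omega) (by omega) 0 (by norm_num) (by norm_num)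
    have e2 := lev m (by omega) (by omega) 2 (by norm_num) (by norm_num)
    rcases wd_four K z m with h1 | h1 | h1 | h1
    · rw [h1] at hm3; exact absurd rfl hm3
    · rw [h1] at hm3; exact absurd rfl hm3
    · have h2 : wd K (pz z') (m - d) = (3, true) := by
        rw [h1] at e1
        rcases wd_four K z' (m - d) with h2 | h2 | h2 | h2
        · rw [h2] at e1; exact absurd e1 (by decide)
        · rw [h2] at e1; exact absurd e1 (by decide)
        · exact h2
        · rw [h2] at e1; exact absurd e1 (by decide)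
      rw [h1, h2] at e0 e2
      have e3 : la v.1 = la v'.1 := congrArg Prod.fst e0
      have e4 : lb v.2 = lb v'.2 := congrArg Prod.fst e2
      exact Prod.ext (Sum.inl_injective (Sum.inl_injective e3))
        (Sum.inr_injective (Sum.inl_injective e4))
    · have h2 : wd K (pz z') (m - d) = (4, true) := by
        rw [h1] at e1
        rcases wd_four K z' (m - d) with h2 | h2 | h2 | h2
        · rw [h2] at e1; exact absurd e1 (by decide)
        · rw [h2] at e1; exact absurd e1 (by decide)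
        · rw [h2] at e1; exact absurd e1 (by decide)
        · exact h2
      rw [h1, h2] at e0 e2
      have e3 : la (-v.1) = la (-v'.1) := congrArg Prod.fst e0
      have e4 : lb (-v.2) = lb (-v'.2) := congrArg Prod.fst e2
      exact Prod.ext (neg_injective (Sum.inl_injective (Sum.inl_injective e3)))
        (neg_injective (Sum.inr_injective (Sum.inl_injective e4)))
  · have : d = mm * Lt K := by linarith
    rw [hd, this]
    ring

lemma ww_per {K : ℤ} (hK : 20 ≤ K) (v : V) (z : Bool) (k m : ℤ) :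
    ww K v z (k + m * (3 * Lt K)) = ww K v z k := by
  unfold ww
  have e1 : (k + m * (3 * Lt K)) / 3 = k / 3 + m * Lt K := by
    rw [show k + m * (3 * Lt K) = k + 3 * (m * Lt K) by ring]
    generalize m * Lt K = x
    omega
  have e2 : (k + m * (3 * Lt K)) % 3 = k % 3 := by
    rw [show k + m * (3 * Lt K) = k + 3 * (m * Lt K) by ring]
    generalize m * Lt K = x
    omega
  rw [e1, e2, wd_add_mul hK]

lemma ww_red {K : ℤ} (hK : 20 ≤ K) (v : V) (z : Bool) (k : ℤ) :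
    ww K v z (k + 1) ≠ inv2 (ww K v z k) := by
  intro h
  set c := k / 3 with hc
  have hkc : k = 3 * c + k % 3 := by omega
  have hr0 : 0 ≤ k % 3 := by omega
  have hr3 : k % 3 < 3 := by omega
  rw [hkc, ww_at K v z c (k % 3) hr0 hr3] at h
  by_cases h2 : k % 3 = 2
  · rw [h2, show 3 * c + 2 + 1 = 3 * (c + 1) + 0 by ring,
      ww_at K v z (c + 1) 0 (by norm_num) (by norm_num)] at h
    have hs : (ex v (wd K (pz z) (c + 1)) 0).2 = !(ex v (wd K (pz z) c) 2).2 := by rw [h]; rfl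
    have ht : ty (ex v (wd K (pz z) (c + 1)) 0).1 = ty (ex v (wd K (pz z) c) 2).1 := by rw [h]; rfl
    have hred := wd_red hK (pz z) c
    rcases wd_four K z c with h1 | h1 | h1 | h1 <;>
      rcases wd_four K z (c + 1) with h3 | h3 | h3 | h3 <;>
      rw [h1, h3] at hs ht hred <;>
      first
      | exact hred rfl
      | (exfalso; simp [ex] at hs; done)
      | (exfalso; simp [ex, ty, la, lb, lt] at ht; done)
  · rw [add_assoc, ww_at K v z c (k % 3 + 1) (by omega) (by omega)] at h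
    have hs : (ex v (wd K (pz z) c) (k % 3 + 1)).2 = !(ex v (wd K (pz z) c) (k % 3)).2 := by
      rw [h]; rfl
    rcases wd_four K z c with h1 | h1 | h1 | h1
    · rw [h1] at hs; exact absurd hs (by simp [ex])
    · rw [h1] at hs; exact absurd hs (by simp [ex])
    · rw [h1, sg_ex _ _ _ (by decide), sg_ex _ _ _ (by decide)] at hs
      exact absurd hs (by decide)
    · rw [h1, sg_ex _ _ _ (by decide), sg_ex _ _ _ (by decide)] at hs
      exact absurd hs (by decide)

lemma ww_sign {K : ℤ} (v : V) (z : Bool) (k : ℤ) (h : ty (ww K v z k).1 ≠ 2) :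
    (ww K v z k).2 = true := by
  unfold ww at h ⊢
  apply sg_ex
  intro h0
  apply h
  rcases ty_ex v _ (k % 3) (wd_four K z (k / 3)) with ⟨-, h1⟩ | ⟨h1, -⟩ | ⟨h1, -⟩
  · exact h1
  · rw [h0] at h1; exact absurd h1 (by decide)
  · rw [h0] at h1; exact absurd h1 (by decide)

lemma exists_nont {K : ℤ} (hK : 20 ≤ K) (v : V) (z : Bool) (s : ℤ) :
    ∃ k : ℕ, k < 20 ∧ ty (ww K v z (s + k)).1 ≠ 2 := by
  obtain ⟨m, hm1, hm2, hm3, -⟩ := exists_place hK z (s / 3 + 1)
  obtain ⟨k, hk⟩ := Int.eq_ofNat_of_zero_le (show 0 ≤ 3 * m - s by omega)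
  refine ⟨k, by omega, ?_⟩
  have e : s + (k : ℤ) = 3 * m + 0 := by omega
  rw [e, ww_at K v z m 0 (by norm_num) (by norm_num)]
  rcases ty_ex v _ 0 (wd_four K z m) with ⟨h1, -⟩ | ⟨-, ⟨-, h2⟩ | ⟨h2, -⟩⟩ | ⟨-, ⟨-, h2⟩ | ⟨h2, -⟩⟩
  · exact absurd h1 hm3
  · rw [h2]; decide
  · omega
  · rw [h2]; decide
  · omega

/-- opposite orientations do not match -/
lemma no_opp {K : ℤ} (hK : 20 ≤ K) (v v' : V) (z z' : Bool) (s s' : ℤ) (t : ℕ) (ht : 20 ≤ t)
    (h : ∀ k : ℕ, k < t → ww K v z (s + k) = inv2 (ww K v' z' (s' - k - 1))) : False := by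
  obtain ⟨k, hk, hk2⟩ := exists_nont hK v z s
  have h1 := h k (by omega)
  have h2 := ww_sign v z _ hk2
  have h3 : ty (ww K v' z' (s' - k - 1)).1 ≠ 2 := by
    intro h3
    apply hk2
    rw [h1]
    exact h3
  have h4 := ww_sign v' z' _ h3
  rw [h1] at h2
  simp [inv2, h4] at h2

lemma ww_sc {K : ℤ} (hK : 20 ≤ K) (v v' : V) (z z' : Bool) (s s' : ℤ) (ε ε' : Bool) (t : ℕ)
    (h : ∀ k : ℕ, k < t → lab (ww K v z) s ε k = lab (ww K v' z') s' ε' k)
    (ht : 12 * M K + 3 ≤ t) :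
    ∀ k, lab (ww K v z) s ε k = lab (ww K v' z') s' ε' k := by
  have hMM : M K = 32 * K + 10 := rfl
  cases ε <;> cases ε'
  · -- both reversed
    have h1 : ∀ k : ℕ, k < t → ww K v z (s - t + k) = ww K v' z' (s' - t + k) := by
      intro k hk
      have h2 := h (t - 1 - k) (by omega)
      have h3 : ww K v z (s - ((t - 1 - k : ℕ) : ℤ) - 1) =
        ww K v' z' (s' - ((t - 1 - k : ℕ) : ℤ) - 1) := inv2_injective h2
      have e1 : s - ((t - 1 - k : ℕ) : ℤ) - 1 = s - t + k := by omega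
      have e2 : s' - ((t - 1 - k : ℕ) : ℤ) - 1 = s' - t + k := by omega
      rwa [e1, e2] at h3
    obtain ⟨rfl, rfl, m, hm⟩ := window2 hK v v' z z' _ _ t ht h1
    intro k
    show inv2 (ww K v z (s - k - 1)) = inv2 (ww K v z (s' - k - 1))
    rw [← ww_per hK v z (s' - k - 1) m]
    congr 2
    linarith
  · exfalso
    refine no_opp hK v' v z' z s' s t (by omega) ?_
    intro k hk
    exact (h k hk).symm
  · exfalso
    refine no_opp hK v v' z z' s s' t (by omega) ?_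
    intro k hk
    exact h k hk
  · have h1 : ∀ k : ℕ, k < t → ww K v z (s + k) = ww K v' z' (s' + k) := fun k hk => h k hk
    obtain ⟨rfl, rfl, m, hm⟩ := window2 hK v v' z z' _ _ t ht h1
    intro k
    show ww K v z (s + k) = ww K v z (s' + k)
    rw [← ww_per hK v z (s' + k) m]
    congr 1
    linarith

/-- the small cancellation family with constant `K` -/
def WK (K : ℤ) (hK : 20 ≤ K) : Words Al where
  B := Set.range (fun p : V × Bool => (ww (2 * K) p.1 p.2, 3 * Lt (2 * K)))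
  K := K
  hK := hK
  per := by
    rintro _ ⟨p, rfl⟩ k
    have := ww_per (K := 2 * K) (by omega) p.1 p.2 k 1
    rwa [one_mul] at this
  red := by
    rintro _ ⟨p, rfl⟩ k
    exact ww_red (by omega) p.1 p.2 k
  KL := by
    rintro _ ⟨p, rfl⟩
    have := (Lt_ge (K := 2 * K) (by omega)).1
    show K ≤ 3 * Lt (2 * K)
    omega
  sc := by
    rintro _ ⟨p, rfl⟩ _ ⟨p', rfl⟩ s s' ε ε' t h ht
    refine ⟨ww_sc (by omega) p.1 p'.1 p.2 p'.2 s s' ε ε' t h ?_, rfl⟩
    have ht' : 3 * Lt (2 * K) ≤ K * t := by rcases ht with h | h <;> exact h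
    have hM : 0 < M (2 * K) := by unfold M; omega
    have h1 : K * (24 * M (2 * K)) ≤ K * t := by
      have : 3 * Lt (2 * K) = K * (24 * M (2 * K)) := by unfold Lt J; ring
      rwa [this] at ht'
    have h2 := le_of_mul_le_mul_left h1 (by omega)
    have h3 : M (2 * K) = 32 * (2 * K) + 10 := rfl
    omega

lemma WK_fin (K : ℤ) (hK : 20 ≤ K) : (WK K hK).B.Finite := Set.finite_range _

end Pool.Agent.U627.QC
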